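import Pool.Agent.Q292.LC.Stm4

/-!
# Project LC: balls, boxes, contraction
-/

set_option autoImplicit false

namespace Pool.Agent.Q257.LC

open Finset Equiv Matrix Q292.LC

section geo

variable {d L : ℕ} [NeZero L]

theorem natAbs_le_val (a : ZMod L) : a.valMinAbs.natAbs ≤ a.val := by
  rw [ZMod.valMinAbs_natAbs_eq_min]
  exact min_le_left _ _

theorem td_comm (x y : Fin d → ZMod L) : td x y = td y x := by
  unfold td
  refine sum_congr rfl fun i _ => ?_
  rw [← ZMod.natAbs_valMinAbs_neg, neg_sub]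

theorem td_self (x : Fin d → ZMod L) : td x x = 0 := by
  unfold td
  simp

theorem td_tri (x y z : Fin d → ZMod L) : td x z ≤ td x y + td y z := by
  unfold td
  rw [← sum_add_distrib]
  refine sum_le_sum fun i _ => ?_
  have h : x i - z i = (x i - y i) + (y i - z i) := by ring
  rw [h]
  exact (ZMod.natAbs_valMinAbs_add_le _ _).trans (Int.natAbs_add_le _ _)

theorem mem_bal (z : Fin d → ZMod L) (r : ℕ) (x : Fin d → ZMod L) : x ∈ bal z r ↔ td z x ≤ r := by
  simp [bal]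

theorem bal_mono (z : Fin d → ZMod L) {r s : ℕ} (h : r ≤ s) : bal z r ⊆ bal z s := by
  intro x hx
  rw [mem_bal] at hx ⊢
  omega

theorem box_sub (z : Fin d → ZMod L) (r : ℕ) : box z r ⊆ bal z (d * r) := by
  intro x hx
  rw [mem_bal]
  simp only [Q292.LC.box, mem_filter, mem_univ, true_and] at hx
  rw [td_comm]
  unfold td
  calc ∑ i, (x i - z i).valMinAbs.natAbs ≤ ∑ _i : Fin d, r :=
        sum_le_sum fun i _ => (natAbs_le_val _).trans (hx i).le
    _ = d * r := by simp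

theorem card_bal_ge (ℓ s : ℕ) (h : d * s ≤ ℓ) (hs : s < L) :
    (s + 1) ^ d ≤ (bal (0 : Fin d → ZMod L) ℓ).card := by
  have h1 : (univ : Finset (Fin d → Fin (s + 1))).card = (s + 1) ^ d := by
    rw [card_univ, Fintype.card_fun, Fintype.card_fin, Fintype.card_fin]
  rw [← h1]
  refine card_le_card_of_injOn (fun v i => ((v i : ℕ) : ZMod L)) ?_ ?_
  · intro v _
    rw [mem_coe, mem_bal, td_comm]
    unfold td
    calc ∑ i, ((((v i : ℕ) : ZMod L)) - (0 : Fin d → ZMod L) i).valMinAbs.natAbs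
        ≤ ∑ _i : Fin d, s := by
          refine sum_le_sum fun i _ => ?_
          refine (natAbs_le_val _).trans ?_
          rw [Pi.zero_apply, sub_zero, ZMod.val_natCast]
          exact (Nat.mod_le _ _).trans (Nat.lt_succ_iff.1 (v i).2)
      _ = d * s := by simp
      _ ≤ ℓ := h
  · intro v _ w _ hvw
    funext i
    have h2 := congrFun hvw i
    beta_reduce at h2
    have h3 := congrArg ZMod.val h2
    rw [ZMod.val_natCast, ZMod.val_natCast, Nat.mod_eq_of_lt, Nat.mod_eq_of_lt] at h3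
    · exact Fin.ext h3
    · exact lt_of_le_of_lt (Nat.lt_succ_iff.1 (w i).2) hs
    · exact lt_of_le_of_lt (Nat.lt_succ_iff.1 (v i).2) hs

end geo

section contr

variable {V : Type} [Fintype V] [DecidableEq V]

/-- Jensen: columns sums one -/
theorem vecMul_sq_le (T : Matrix V V ℝ) (f : V → ℝ) (h0 : ∀ x y, 0 ≤ T x y)
    (h1 : ∀ y, ∑ x, T x y ≤ 1) (y : V) :
    (vecMul f T y) ^ 2 ≤ ∑ x, f x ^ 2 * T x y := by
  have h2 : vecMul f T y = ∑ x, f x * T x y := rfl
  rw [h2]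
  have h3 : (∑ x, f x * T x y) ^ 2 ≤ (∑ x, f x ^ 2 * T x y) * ∑ x, T x y :=
    Finset.sum_sq_le_sum_mul_sum_of_sq_le_mul _ (fun x _ => mul_nonneg (sq_nonneg _) (h0 x y))
      (fun x _ => h0 x y) (fun x _ => le_of_eq (by ring))
  refine h3.trans ?_
  exact mul_le_of_le_one_right (sum_nonneg fun x _ => mul_nonneg (sq_nonneg _) (h0 x y)) (h1 y)

theorem sum_vecMul_sq_le (T : Matrix V V ℝ) (f : V → ℝ) (h0 : ∀ x y, 0 ≤ T x y)
    (h1 : ∀ y, ∑ x, T x y ≤ 1) (h2 : ∀ x, ∑ y, T x y ≤ 1) :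
    ∑ y, (vecMul f T y) ^ 2 ≤ ∑ x, f x ^ 2 := by
  calc ∑ y, (vecMul f T y) ^ 2 ≤ ∑ y, ∑ x, f x ^ 2 * T x y :=
        sum_le_sum fun y _ => vecMul_sq_le T f h0 h1 y
    _ = ∑ x, f x ^ 2 * ∑ y, T x y := by
        rw [sum_comm]
        exact sum_congr rfl fun x _ => by rw [mul_sum]
    _ ≤ ∑ x, f x ^ 2 := sum_le_sum fun x _ => mul_le_of_le_one_right (sq_nonneg _) (h2 x)

theorem sum_vecMul (T : Matrix V V ℝ) (f : V → ℝ) (h2 : ∀ x, ∑ y, T x y = 1) :
    ∑ y, vecMul f T y = ∑ x, f x := by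
  have h3 : ∀ y, vecMul f T y = ∑ x, f x * T x y := fun y => rfl
  simp only [h3]
  rw [sum_comm]
  exact sum_congr rfl fun x _ => by rw [← mul_sum, h2, mul_one]

theorem vecMul_nonneg (T : Matrix V V ℝ) (f : V → ℝ) (h0 : ∀ x y, 0 ≤ T x y) (hf : ∀ x, 0 ≤ f x)
    (y : V) : 0 ≤ vecMul f T y :=
  sum_nonneg fun x _ => mul_nonneg (hf x) (h0 x y)

end contr

end Pool.Agent.Q257.LC
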