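import Pool.Agent.Q292.LC.Stm1

/-!
# Project LC: the exact identity `S_L1`
-/

set_option autoImplicit false

namespace Pool.Agent.Q257.LC

open Finset Equiv Matrix Q292.LC

section line

variable {V : Type} [Fintype V] [DecidableEq V]

theorem det_line_aux (X : Matrix V V ℝ) (u v : V → ℝ) : ∃ κ : ℝ, ∀ s : ℝ,
    (X + s • vecMulVec u v).det = X.det + s * κ := by
  refine ⟨(fromBlocks X (replicateCol Unit u) (-(replicateRow Unit v)) 0).det, fun s => ?_⟩
  have h1 : (X + s • vecMulVec u v).det =
      (fromBlocks X (replicateCol Unit (s • u)) (-(replicateRow Unit v)) 1).det := by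
    rw [det_fromBlocks_one₂₂]
    congr 1
    ext i j
    simp [Matrix.mul_apply, vecMulVec_apply]
  have h2 : fromBlocks X (replicateCol Unit (s • u)) (-(replicateRow Unit v)) 1 =
      (fromBlocks X (0 : Matrix V Unit ℝ) (-(replicateRow Unit v)) 1).updateCol (Sum.inr ())
        (s • (Sum.elim u (fun _ => (0 : ℝ))) + Sum.elim (fun _ => (0 : ℝ)) (fun _ => (1 : ℝ))) := by
    ext i j
    rcases i with i | i <;> rcases j with j | j <;> simp
  have h3 : (fromBlocks X (0 : Matrix V Unit ℝ) (-(replicateRow Unit v)) 1).updateCol (Sum.inr ())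
        (Sum.elim u (fun _ => (0 : ℝ))) =
      fromBlocks X (replicateCol Unit u) (-(replicateRow Unit v)) 0 := by
    ext i j
    rcases i with i | i <;> rcases j with j | j <;> simp
  have h4 : (fromBlocks X (0 : Matrix V Unit ℝ) (-(replicateRow Unit v)) 1).updateCol (Sum.inr ())
        (Sum.elim (fun _ => (0 : ℝ)) (fun _ => (1 : ℝ))) =
      fromBlocks X (0 : Matrix V Unit ℝ) (-(replicateRow Unit v)) 1 := by
    ext i j
    rcases i with i | i <;> rcases j with j | j <;> simp
  rw [h1, h2, det_updateCol_add, det_updateCol_smul, h3, h4, det_fromBlocks_zero₁₂, det_one,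
    mul_one]
  ring

/-- The determinant is affine along rank one lines. -/
theorem det_line (X : Matrix V V ℝ) (u v : V → ℝ) (s : ℝ) :
    (X + s • vecMulVec u v).det = X.det + s * ((X + vecMulVec u v).det - X.det) := by
  obtain ⟨κ, hκ⟩ := det_line_aux X u v
  have h1 := hκ 1
  rw [one_smul, one_mul] at h1
  rw [hκ s, h1]
  ring

theorem pm_mul (g h : Perm V) : pm g * pm h = pm (h * g) := by
  ext a c
  simp only [pm, Matrix.mul_apply, Matrix.of_apply, Perm.mul_apply]
  rw [Finset.sum_eq_single (g a)]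
  · simp
  · intro b _ hb
    simp [Ne.symm hb]
  · simp

theorem pm_one : pm (1 : Perm V) = 1 := by
  ext a c
  simp [pm, Matrix.one_apply]

theorem pm_swap (a b : V) :
    pm (swap a b) = 1 + vecMulVec (Pi.single b 1 - Pi.single a 1) (Pi.single a 1 - Pi.single b 1) := by
  ext i j
  simp only [pm, Matrix.of_apply, Matrix.add_apply, Matrix.one_apply, vecMulVec_apply,
    Pi.sub_apply, Pi.single_apply, Equiv.swap_apply_def]
  by_cases h1 : i = a <;> by_cases h2 : i = b <;> by_cases h3 : j = a <;> by_cases h4 : j = b <;>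
    simp_all <;> first
      | (rw [eq_comm]; assumption)
      | (rw [if_neg (Ne.symm h3), if_neg (Ne.symm h4)])
      | (rw [if_neg (Ne.symm h4), if_neg (Ne.symm h3)])

/-- one coin -/
theorem det_coin (X Y T Q : Matrix V V ℝ) (a b : V) (δ : ℝ) :
    (1 - δ) * (X + Y * (T * (1 * Q))).det + δ * (X + Y * (T * (pm (swap a b) * Q))).det =
      (X + Y * (T * (fr δ (a, b) * Q))).det := by
  set u : V → ℝ := Pi.single b 1 - Pi.single a 1 with hu
  set v : V → ℝ := Pi.single a 1 - Pi.single b 1 with hv
  have h1 : X + Y * (T * (pm (swap a b) * Q)) =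
      (X + Y * (T * (1 * Q))) + vecMulVec ((Y * T) *ᵥ u) (v ᵥ* Q) := by
    rw [pm_swap, Matrix.add_mul, Matrix.vecMulVec_mul, Matrix.mul_add, Matrix.mul_add,
      Matrix.mul_vecMulVec, Matrix.mul_vecMulVec, Matrix.mulVec_mulVec, add_assoc]
  have h2 : X + Y * (T * (fr δ (a, b) * Q)) =
      (X + Y * (T * (1 * Q))) + δ • vecMulVec ((Y * T) *ᵥ u) (v ᵥ* Q) := by
    have h3 : fr δ (a, b) = (1 : Matrix V V ℝ) + δ • vecMulVec u v := by
      unfold fr
      rw [pm_swap, smul_add, ← add_assoc, ← add_smul]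
      simp [hu, hv]
    rw [h3, Matrix.add_mul, Matrix.smul_mul, Matrix.vecMulVec_mul, Matrix.mul_add, Matrix.mul_add,
      Matrix.mul_smul, Matrix.mul_smul,
      Matrix.mul_vecMulVec, Matrix.mul_vecMulVec, Matrix.mulVec_mulVec, add_assoc]
  rw [h1, h2, det_line _ _ _ δ]
  ring

end line

section coins

variable {V : Type} [DecidableEq V]

/-- average over one coin -/
theorem EE_avg (n k : ℕ) (hk : k < n) (δ : ℝ) (F : (ℕ → Bool) → ℝ) :
    EE n δ F = EE n δ (fun ω => (1 - δ) * F (Function.update ω k false) +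
      δ * F (Function.update ω k true)) := by
  unfold EE
  have hr : range n = insert k ((range n).erase k) :=
    (Finset.insert_erase (Finset.mem_range.2 hk)).symm
  have hkn : k ∉ (range n).erase k := Finset.notMem_erase k _
  rw [hr, sum_powerset_insert hkn, sum_powerset_insert hkn, ← sum_add_distrib, ← sum_add_distrib]
  refine sum_congr rfl fun t ht => ?_
  have hkt : k ∉ t := fun h => hkn (mem_powerset.1 ht h)
  have hc : t.card + 1 ≤ n := by
    have := card_le_card (mem_powerset.1 ht)
    rw [card_erase_of_mem (mem_range.2 hk), card_range] at this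
    omega
  have h1 : Function.update (fun j => decide (j ∈ t)) k false = fun j => decide (j ∈ t) := by
    funext j
    by_cases hj : j = k
    · subst hj
      simp [hkt]
    · simp [Function.update_of_ne hj]
  have h2 : Function.update (fun j => decide (j ∈ t)) k true =
      fun j => decide (j ∈ insert k t) := by
    funext j
    by_cases hj : j = k
    · subst hj
      simp
    · simp [hj]
  have h3 : Function.update (fun j => decide (j ∈ insert k t)) k false =
      fun j => decide (j ∈ t) := by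
    funext j
    by_cases hj : j = k
    · subst hj
      simp [hkt]
    · simp [hj]
  have h4 : Function.update (fun j => decide (j ∈ insert k t)) k true =
      fun j => decide (j ∈ insert k t) := by
    funext j
    by_cases hj : j = k
    · subst hj
      simp
    · simp [hj]
  beta_reduce
  rw [h1, h2, h3, h4, card_insert_of_notMem hkt]
  obtain ⟨m, hm⟩ : ∃ m, n = t.card + 1 + m := ⟨n - (t.card + 1), by omega⟩
  have e1 : n - t.card = m + 1 := by omega
  have e2 : n - (t.card + 1) = m := by omega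
  rw [e1, e2]
  ring

theorem gp_congr (e : ℕ → V × V) {ω ω' : ℕ → Bool} {n : ℕ} (h : ∀ k < n, ω k = ω' k) :
    ∀ k ≤ n, gp e ω k = gp e ω' k := by
  intro k
  induction k with
  | zero => intro _; rfl
  | succ k ih =>
    intro hk
    simp only [gp]
    rw [ih (by omega), h k (by omega)]

theorem tch_congr (e : ℕ → V × V) {ω ω' : ℕ → Bool} (A : Finset V) {k : ℕ}
    (h : ∀ i < k, ω i = ω' i) : tch e ω A k ↔ tch e ω' A k := by
  unfold tch
  rw [gp_congr e h k le_rfl]

variable [Fintype V]

theorem Mx_congr (e : ℕ → V × V) {ω ω' : ℕ → Bool} (A : Finset V) (δ : ℝ) {k : ℕ}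
    (h : ∀ i < k + 1, ω i = ω' i) : Mx e ω A δ k = Mx e ω' A δ k := by
  unfold Mx
  have h1 := tch_congr e A (ω := ω) (ω' := ω') (k := k) fun i hi => h i (by omega)
  simp only [h1, h k (by omega)]

theorem TT_congr (e : ℕ → V × V) {ω ω' : ℕ → Bool} (A : Finset V) (δ : ℝ) {k : ℕ}
    (h : ∀ i < k, ω i = ω' i) : TT e ω A δ k = TT e ω' A δ k := by
  induction k with
  | zero => rfl
  | succ k ih =>
    simp only [TT]
    rw [ih fun i hi => h i (by omega), Mx_congr e A δ h]

/-- the step matrix -/
def St (e : ℕ → V × V) (ω : ℕ → Bool) (k : ℕ) : Matrix V V ℝ :=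
  if ω k then pm (swap (e k).1 (e k).2) else 1

/-- the steps `k, ..., k + m - 1` -/
def Qm (e : ℕ → V × V) (ω : ℕ → Bool) (k : ℕ) : ℕ → Matrix V V ℝ
  | 0 => 1
  | m + 1 => Qm e ω k m * St e ω (k + m)

theorem Qm_succ (e : ℕ → V × V) (ω : ℕ → Bool) (k m : ℕ) :
    Qm e ω k (m + 1) = St e ω k * Qm e ω (k + 1) m := by
  induction m with
  | zero => simp [Qm]
  | succ m ih =>
    rw [Qm, ih, Qm, Matrix.mul_assoc]
    congr 3
    omega

theorem Qm_congr (e : ℕ → V × V) {ω ω' : ℕ → Bool} {k m : ℕ}
    (h : ∀ i, k ≤ i → ω i = ω' i) : Qm e ω k m = Qm e ω' k m := by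
  induction m with
  | zero => rfl
  | succ m ih =>
    rw [Qm, ih, Qm, St, St, h (k + m) (by omega)]

theorem pm_gp (e : ℕ → V × V) (ω : ℕ → Bool) (n : ℕ) : pm (gp e ω n) = Qm e ω 0 n := by
  induction n with
  | zero => simp [gp, Qm, pm_one]
  | succ n ih =>
    rw [Qm, ← ih, gp, St, Nat.zero_add]
    by_cases h : ω n
    · simp only [h, if_true]
      rw [pm_mul]
    · simp [h]

theorem Mx_tch (e : ℕ → V × V) (ω : ℕ → Bool) (A : Finset V) (δ : ℝ) (k : ℕ)
    (h : tch e ω A k) : Mx e ω A δ k = St e ω k := by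
  unfold Mx St
  simp [h]

theorem l1_step (e : ℕ → V × V) (n : ℕ) (δ : ℝ)
    (A : Finset V) (Θ : (ℕ → Bool) → ℝ) (X Y : (ℕ → Bool) → Matrix V V ℝ)
    (hΘ : Rmeas e n A Θ) (hX : Rmeas e n A X) (hY : Rmeas e n A Y) (k : ℕ) (hk : k < n) :
    EE n δ (fun ω => Θ ω * (X ω + Y ω * (TT e ω A δ k * Qm e ω k (n - k))).det) =
    EE n δ (fun ω => Θ ω *
      (X ω + Y ω * (TT e ω A δ (k + 1) * Qm e ω (k + 1) (n - (k + 1)))).det) := by
  rw [EE_avg n k hk, EE_avg n k hk δ (fun ω => Θ ω *
      (X ω + Y ω * (TT e ω A δ (k + 1) * Qm e ω (k + 1) (n - (k + 1)))).det)]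
  congr 1
  funext ω
  have hne : ∀ (b : Bool) (i : ℕ), i ≠ k → Function.update ω k b i = ω i :=
    fun b i hi => Function.update_of_ne hi _ _
  have hlt : ∀ (b : Bool) (i : ℕ), i < k → Function.update ω k b i = ω i :=
    fun b i hi => hne b i (by omega)
  have e1 : n - k = (n - (k + 1)) + 1 := by omega
  have hT : ∀ b : Bool, TT e (Function.update ω k b) A δ k = TT e ω A δ k :=
    fun b => TT_congr e A δ (hlt b)
  have hQ : ∀ b : Bool, Qm e (Function.update ω k b) (k + 1) (n - (k + 1)) =
      Qm e ω (k + 1) (n - (k + 1)) :=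
    fun b => Qm_congr e fun i hi => hne b i (by omega)
  have htc : ∀ b : Bool, tch e (Function.update ω k b) A k ↔ tch e ω A k :=
    fun b => tch_congr e A (hlt b)
  by_cases ht : tch e ω A k
  · have h5 : ∀ b : Bool, TT e (Function.update ω k b) A δ k *
        Qm e (Function.update ω k b) k (n - k) =
        TT e (Function.update ω k b) A δ (k + 1) *
          Qm e (Function.update ω k b) (k + 1) (n - (k + 1)) := by
      intro b
      rw [e1, Qm_succ, TT, Mx_tch e _ A δ k ((htc b).2 ht), Matrix.mul_assoc]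
    rw [h5 false, h5 true]
  · have hR : ∀ k' < n, tch e (Function.update ω k true) A k' →
        Function.update ω k true k' = Function.update ω k false k' := by
      intro k' _ h
      by_cases hkk : k' = k
      · subst hkk
        exact absurd ((htc true).1 h) ht
      · rw [hne _ _ hkk, hne _ _ hkk]
    have g1 := hΘ _ _ hR
    have g2 := hX _ _ hR
    have g3 := hY _ _ hR
    have hM : ∀ b : Bool, Mx e (Function.update ω k b) A δ k = fr δ ((e k).1, (e k).2) := by
      intro b
      unfold Mx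
      simp [(htc b), ht]
    rw [g1, g2, g3, e1, Qm_succ, Qm_succ, TT, TT, hM false, hM true, hT false, hT true, hQ false,
      hQ true]
    have s1 : St e (Function.update ω k false) k = 1 := by simp [St]
    have s2 : St e (Function.update ω k true) k = pm (swap (e k).1 (e k).2) := by simp [St]
    rw [s1, s2]
    have h6 := det_coin (X (Function.update ω k false)) (Y (Function.update ω k false))
      (TT e ω A δ k) (Qm e ω (k + 1) (n - (k + 1))) (e k).1 (e k).2 δ
    rw [Matrix.mul_assoc (TT e ω A δ k) (fr δ ((e k).1, (e k).2)), ← h6]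
    ring

theorem l1 : S_L1 := by
  intro V _ _ e n δ A Θ X Y _ _ hΘ hX hY
  have key : ∀ k ≤ n, EE n δ (fun ω => Θ ω * (X ω + Y ω * pm (gp e ω n)).det) =
      EE n δ (fun ω => Θ ω * (X ω + Y ω * (TT e ω A δ k * Qm e ω k (n - k))).det) := by
    intro k
    induction k with
    | zero =>
      intro _
      simp only [TT, Matrix.one_mul, Nat.sub_zero, pm_gp]
    | succ k ih =>
      intro hk
      rw [ih (by omega), l1_step e n δ A Θ X Y hΘ hX hY k (by omega)]
  rw [key n le_rfl]
  simp [Qm]

end coins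

end Pool.Agent.Q257.LC
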