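import Pool.Agent.Q257.LC.Badp
import Pool.Agent.Q68.LC.Bas3
import Pool.Agent.Q68.LC.Rot
import Pool.Agent.Q68.LC.Arc
import Pool.Agent.Q176.LC.P1

/-!
# Project LC: `S_BADP`, unconditional
-/

set_option autoImplicit false

namespace Pool.Agent.Q257.LC

open Q292.LC

theorem arc_all : S_ARC :=
  Pool.Agent.Q68.LC.arc peel (Pool.Agent.Q176.LC.p1 Pool.Agent.Q153.LC.p4) Pool.Agent.Q153.LC.p4

theorem first_all : S_FIRST := Pool.Agent.Q176.LC.first Pool.Agent.Q68.LC.t_rot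

theorem badp : S_BADP :=
  badp_of Pool.Agent.Q153.LC.p4 first_all Pool.Agent.Q68.LC.t_rot arc_all Pool.Agent.Q68.LC.bas3
    Pool.Agent.Q153.LC.rus

end Pool.Agent.Q257.LC
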