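import Pool.Agent.Q257.LC.LapA

/-!
# Project LC: decay in a sparse environment, `S_LAP`
-/

set_option autoImplicit false

namespace Pool.Agent.Q257.LC

open Finset Equiv Matrix Q292.LC

/-- the abstract block argument -/
theorem seq_block (F G : ℕ → ℝ) (hmono : ∀ j, F (j + 1) ≤ F j) (h0 : ∀ j, 0 ≤ F j)
    (K u0 p u2 : ℕ) (hu2 : u2 = p * u0) (c a m0 : ℝ) (hc : 0 ≤ c) (ha : 0 ≤ a)
    (hW : ∀ j, j + u0 ≤ K → G j ≤ F j / 2 → F j ≤ m0 ∨
      c * min (F j) (u0 * F j ^ a) ≤ F j - F (j + u0))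
    (hS : ∀ j, u2 ≤ j → j + u0 ≤ K → G j ≤ F (j - u2) / 8) (k : ℕ) (hk : 1 ≤ k)
    (hkK : (k + 1) * u2 ≤ K) :
    F ((k + 1) * u2) < F ((k - 1) * u2) / 4 ∨ F ((k + 1) * u2) ≤ m0 ∨
      c * min (p * F ((k + 1) * u2)) (u2 * F ((k + 1) * u2) ^ a) ≤
        F (k * u2) - F ((k + 1) * u2) := by
  have hanti : Antitone F := antitone_nat_of_succ_le hmono
  by_cases h1 : F ((k + 1) * u2) < F ((k - 1) * u2) / 4
  · exact Or.inl h1
  right
  by_cases h2 : F ((k + 1) * u2) ≤ m0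
  · exact Or.inl h2
  right
  push Not at h1 h2
  set b := F ((k + 1) * u2) with hb
  have hkk : (k + 1) * u2 = k * u2 + u2 := by ring
  have hstep : ∀ i < p, c * min b (u0 * b ^ a) ≤
      F (k * u2 + i * u0) - F (k * u2 + (i + 1) * u0) := by
    intro i hi
    have hiu : (i + 1) * u0 ≤ u2 := by
      rw [hu2]
      exact Nat.mul_le_mul_right _ hi
    have e1 : k * u2 + i * u0 + u0 = k * u2 + (i + 1) * u0 := by ring
    have hjK : k * u2 + i * u0 + u0 ≤ K := by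
      rw [e1]
      omega
    have hj2 : u2 ≤ k * u2 + i * u0 := by
      have : 1 * u2 ≤ k * u2 := Nat.mul_le_mul_right _ hk
      omega
    have hFb : b ≤ F (k * u2 + i * u0) := hanti (by omega)
    have hG : G (k * u2 + i * u0) ≤ F (k * u2 + i * u0) / 2 := by
      have h3 := hS _ hj2 hjK
      have h4 : F (k * u2 + i * u0 - u2) ≤ F ((k - 1) * u2) := by
        refine hanti ?_
        have e2 : (k - 1) * u2 = k * u2 - u2 := by
          rw [Nat.sub_mul, one_mul]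
        omega
      linarith
    rcases hW _ hjK hG with h5 | h5
    · exact absurd (hFb.trans h5) (not_le.2 h2)
    · rw [e1] at h5
      refine le_trans (mul_le_mul_of_nonneg_left ?_ hc) h5
      refine min_le_min hFb (mul_le_mul_of_nonneg_left ?_ (Nat.cast_nonneg _))
      exact Real.rpow_le_rpow (h0 _) hFb ha
  have hsum : ∀ i ≤ p, i * (c * min b (u0 * b ^ a)) ≤ F (k * u2) - F (k * u2 + i * u0) := by
    intro i
    induction i with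
    | zero => intro _; simp
    | succ i ih =>
      intro hi
      have h6 := ih (by omega)
      have h7 := hstep i (by omega)
      push_cast
      linarith
  have h8 := hsum p le_rfl
  rw [← hu2, ← hkk] at h8
  refine le_trans (le_of_eq ?_) h8
  have hp0 : (0 : ℝ) ≤ p := Nat.cast_nonneg _
  have e3 : (u2 : ℝ) = p * u0 := by
    rw [hu2]
    push_cast
    ring
  rw [e3, mul_assoc (p : ℝ), ← mul_min_of_nonneg _ _ hp0]
  ring

/-- body of `S_FRE` -/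
def FREb (d : ℕ) (C : ℝ) : Prop := ∀ (L : ℕ) [NeZero L], 3 ≤ L → ∀ K : ℕ,
  ∃ q₀ : ℕ, ∀ q ≥ q₀, ∀ σ : ℕ → (Fin d → ZMod L) × Fin d, Per σ → ∀ δ : ℝ,
  1 ≤ δ * q → δ * q ≤ 2 →
  (∀ s ≤ K * q, ∀ x y, PP (ed ∘ σ) δ (s * ms d L) x y ≤
    C * ((1 + s * δ) ^ (-(d / 2 : ℝ)) + 1 / (L : ℝ) ^ d)) ∧
  (∀ u, 1 ≤ u → u ≤ K → ∀ k ≤ u * (q * ms d L), ∀ (D : ℕ) y,
    ∑ x ∈ univ.filter (fun x => D < td x y), PP (ed ∘ σ) δ k x y ≤
      C * Real.exp (-(D / (C * Real.sqrt u)))) ∧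
  (∀ u, 1 ≤ u → u ≤ K → u ≤ L ^ 2 → ∀ x y, (td x y : ℝ) ≤ Real.sqrt u / C →
    (u : ℝ) ^ (-(d / 2 : ℝ)) / C ≤ PP (ed ∘ σ) δ (u * (q * ms d L)) x y)

section per

variable {d L : ℕ} [NeZero L]

theorem per_mul {σ : ℕ → (Fin d → ZMod L) × Fin d} (hσ : Per σ) (s k : ℕ) :
    σ (k + s * ms d L) = σ k := by
  induction s with
  | zero => simp
  | succ s ih =>
    rw [Nat.succ_mul, ← add_assoc, hσ.1, ih]

theorem sh_ed {σ : ℕ → (Fin d → ZMod L) × Fin d} (hσ : Per σ) (j q : ℕ) :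
    sh (j * (q * ms d L)) (ed ∘ σ) = ed ∘ σ := by
  funext k
  unfold sh
  rw [← mul_assoc]
  simp only [Function.comp_apply]
  rw [per_mul hσ]

theorem TT_units (hB2 : S_BAS2) {σ : ℕ → (Fin d → ZMod L) × Fin d} (hσ : Per σ) (ω : ℕ → Bool)
    (A : Finset (Fin d → ZMod L)) {δ : ℝ} (hδ0 : 0 ≤ δ) (hδ1 : δ ≤ 1) (q j u : ℕ) :
    TT (ed ∘ σ) ω A δ ((j + u) * (q * ms d L)) = TT (ed ∘ σ) ω A δ (j * (q * ms d L)) *
      TT (ed ∘ σ) (sh (j * (q * ms d L)) ω) (A.image (gp (ed ∘ σ) ω (j * (q * ms d L)))) δ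
        (u * (q * ms d L)) := by
  have h := (hB2 _ (ed ∘ σ) ω A δ hδ0 hδ1).2.2.2.2.2 (j * (q * ms d L)) (u * (q * ms d L))
  rw [sh_ed hσ] at h
  rw [add_mul]
  exact h

end per

theorem lap_numbers (d : ℕ) (hd : 3 ≤ d) (Cf z : ℝ) (hCf : 1 ≤ Cf)
    (hz1 : 1 ≤ z) (hz : 16 * d * Cf ≤ z) :
    ∃ (ℓ r0 s : ℕ), 2 * d * r0 ≤ ℓ ∧ d * s ≤ ℓ ∧ (ℓ : ℝ) ≤ z ^ 3 / (2 * Cf) ∧
      z ^ 3 / (16 * d * Cf) ≤ r0 ∧ z ^ 3 / (4 * d * Cf) ≤ ((s + 1 : ℕ) : ℝ) ∧ 1 ≤ r0 := by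
  have hd0 : (0 : ℝ) < d := by
    have : 0 < d := by omega
    exact_mod_cast this
  have hd1 : (3 : ℝ) ≤ d := by exact_mod_cast hd
  have hz3 : z ≤ z ^ 3 := by nlinarith [sq_nonneg (z - 1), mul_nonneg (by linarith : 0 ≤ z) (by linarith : 0 ≤ z - 1)]
  set ℓ : ℕ := ⌊z ^ 3 / (2 * Cf)⌋₊ with hℓ
  have hℓ1 : (ℓ : ℝ) ≤ z ^ 3 / (2 * Cf) := Nat.floor_le (by positivity)
  have hℓ2 : z ^ 3 / (2 * Cf) < ℓ + 1 := Nat.lt_floor_add_one _
  have h4 : z ^ 3 / (4 * Cf) ≤ ℓ := by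
    have h5 : 1 ≤ z ^ 3 / (4 * Cf) := by
      rw [le_div_iff₀ (by positivity)]
      nlinarith
    have h6 : z ^ 3 / (2 * Cf) = z ^ 3 / (4 * Cf) + z ^ 3 / (4 * Cf) := by
      field_simp
      ring
    linarith
  refine ⟨ℓ, ℓ / (2 * d), ℓ / d, Nat.mul_div_le _ _, Nat.mul_div_le _ _, hℓ1, ?_, ?_, ?_⟩
  · have h7 : (ℓ : ℝ) < (2 * d) * ((ℓ / (2 * d) : ℕ) + 1) := by
      have := Nat.lt_mul_div_succ ℓ (show 0 < 2 * d by omega)
      exact_mod_cast this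
    have h8 : z ^ 3 / (16 * d * Cf) * (2 * d) * 2 ≤ ℓ := by
      refine le_trans (le_of_eq ?_) h4
      field_simp
      ring
    have h9 : 2 * (d : ℝ) ≤ ℓ / 2 := by
      have h10 : 4 * (d : ℝ) ≤ z ^ 3 / (4 * Cf) := by
        rw [le_div_iff₀ (by positivity)]
        nlinarith
      linarith
    nlinarith
  · have h7 : (ℓ : ℝ) < d * ((ℓ / d : ℕ) + 1) := by
      have := Nat.lt_mul_div_succ ℓ (show 0 < d by omega)
      exact_mod_cast this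
    have h8 : z ^ 3 / (4 * d * Cf) * d ≤ ℓ := by
      refine le_trans (le_of_eq ?_) h4
      field_simp
    push_cast
    nlinarith
  · rw [Nat.one_le_div_iff (by omega)]
    have h10 : ((2 * d : ℕ) : ℝ) ≤ z ^ 3 / (4 * Cf) := by
      rw [le_div_iff₀ (by positivity)]
      push_cast
      nlinarith
    exact_mod_cast h10.trans h4

end Pool.Agent.Q257.LC
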