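import Pool.Agent.Q257.LC.KerA
import Pool.Agent.Q257.LC.LapB

/-!
# Project LC: Green function in a good environment, `S_KER`
-/

set_option autoImplicit false

namespace Pool.Agent.Q257.LC

open Finset Equiv Matrix Q292.LC

section abs

variable {V : Type} [Fintype V] [DecidableEq V]

theorem pow_zero_col (T : Matrix V V ℝ) (R R' U : Finset V) (hU : Disjoint U R)
    (h0 : ∀ a, a ∉ R → ∀ b ∈ R', T a b = 0) (k : ℕ) (a : V) (ha : a ∉ R) (b : V) (hb : b ∈ R') :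
    (T * (dg U * T) ^ k) a b = 0 := by
  cases k with
  | zero =>
    rw [pow_zero, Matrix.mul_one]
    exact h0 a ha b hb
  | succ k =>
    rw [pow_right]
    refine sum_eq_zero fun c _ => ?_
    by_cases hc : c ∈ U
    · rw [h0 c (disjoint_left.1 hU hc) b hb, mul_zero]
    · rw [if_neg hc, zero_mul]

theorem pow_eq_sdiff (T : Matrix V V ℝ) (R R' U : Finset V) (hU : Disjoint U R)
    (h0 : ∀ a, a ∉ R → ∀ b ∈ R', T a b = 0) (k : ℕ) (a : V) (ha : a ∉ R) (b : V) :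
    (T * (dg U * T) ^ k) a b = (T * (dg (U \ R') * T) ^ k) a b := by
  induction k generalizing b with
  | zero => simp
  | succ k ih =>
    rw [pow_right, pow_right]
    refine sum_congr rfl fun c _ => ?_
    by_cases hc : c ∈ U
    · by_cases hc' : c ∈ R'
      · rw [if_pos hc, if_neg (fun h => (mem_sdiff.1 h).2 hc'),
          pow_zero_col T R R' U hU h0 k a ha c hc', zero_mul]
      · rw [if_pos hc, if_pos (mem_sdiff.2 ⟨hc, hc'⟩), ih c]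
    · rw [if_neg hc, if_neg (fun h => hc (mem_sdiff.1 h).1)]

theorem max_bound (m0 c K x t d : ℝ) (hm0 : 0 ≤ m0) (hc : 0 < c) (hK : 0 < K) (ht : 0 < t)
    (hd : 0 < d) (htx : t ≤ 3 * x) :
    max m0 ((x * (c * K)) ^ (-(d / 2 : ℝ))) ≤ m0 + (c * K / 3 * t) ^ (-(d / 2 : ℝ)) := by
  have h1 : (x * (c * K)) ^ (-(d / 2 : ℝ)) ≤ (c * K / 3 * t) ^ (-(d / 2 : ℝ)) := by
    refine Real.rpow_le_rpow_of_nonpos (by positivity) ?_ (by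
      rw [neg_nonpos]
      positivity)
    have h2 : 0 < c * K := by positivity
    nlinarith
  have h2 : 0 ≤ (c * K / 3 * t) ^ (-(d / 2 : ℝ)) := Real.rpow_nonneg (by positivity) _
  exact max_le (by linarith) (by linarith)

/-- the bound for all powers -/
theorem pow_bound (T : Matrix V V ℝ) (hT0 : ∀ x y, 0 ≤ T x y) (hrow : ∀ x, ∑ y, T x y = 1)
    (hcol : ∀ y, ∑ x, T x y = 1) (R R' U : Finset V) (hUR : Disjoint U R) (hUR' : Disjoint U R')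
    (d : ℕ) (hd : 1 ≤ d) (m0 c K : ℝ) (hc : 0 < c) (hK : 0 < K) (hm0 : 0 ≤ m0)
    (hLap : ∀ f : V → ℝ, (∀ x, 0 ≤ f x) → (∀ x ∈ R, f x = 0) → ∑ x, f x ≤ 1 →
      ∑ x, (vecMul f T x) ^ 2 ≤
        max m0 (((∑ x, (f x) ^ 2) ^ (-(2 / d : ℝ)) + c * K) ^ (-(d / 2 : ℝ))))
    (hLap' : ∀ f : V → ℝ, (∀ x, 0 ≤ f x) → (∀ x ∈ R', f x = 0) → ∑ x, f x ≤ 1 →
      ∑ x, (vecMul f Tᵀ x) ^ 2 ≤
        max m0 (((∑ x, (f x) ^ 2) ^ (-(2 / d : ℝ)) + c * K) ^ (-(d / 2 : ℝ))))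
    (x y : V) (hx : x ∉ R) (hy : y ∉ R') (k : ℕ) (hk : 1 ≤ k) :
    (T * (dg U * T) ^ k) x y ≤ m0 + (c * K / 3 * ((k : ℝ) + 1)) ^ (-(d / 2 : ℝ)) := by
  obtain ⟨i, j, hij, hi, hj⟩ : ∃ i j : ℕ, i + j + 1 = k ∧ k + 1 ≤ 3 * (i + 1) ∧
      k + 1 ≤ 3 * (j + 1) := ⟨(k - 1) / 2, k - 1 - (k - 1) / 2, by omega, by omega, by omega⟩
  have hd0 : (0 : ℝ) < d := by exact_mod_cast hd
  rw [← hij, pow_split]
  have h1 := row_bound T hT0 (fun x => (hrow x).le) (fun y => (hcol y).le) R U hUR d hd m0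
    (c * K) (by positivity) hm0 hLap x hx i
  have h2 := row_bound Tᵀ (fun x y => hT0 y x) (fun x => (hcol x).le) (fun y => (hrow y).le)
    R' U hUR' d hd m0 (c * K) (by positivity) hm0 hLap' y hy j
  have h3 : ∀ z, (T * (dg U * T) ^ j) z y = (Tᵀ * (dg U * Tᵀ) ^ j) y z := by
    intro z
    rw [← pow_transpose]
    rfl
  simp only [h3]
  have hk0 : (0 : ℝ) < ((i + j + 1 : ℕ) : ℝ) + 1 := by positivity
  refine cs_half _ _ (max m0 ((((i : ℝ) + 1) * (c * K)) ^ (-(d / 2 : ℝ)))) _ ?_ h2.2.2 _ ?_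
    ?_ ?_
  · refine le_trans (sum_le_sum fun z _ => ?_) h1.2.2
    split_ifs
    · exact le_rfl
    · rw [zero_pow two_ne_zero]
      exact sq_nonneg _
  · exact add_nonneg hm0 (Real.rpow_nonneg (by positivity) _)
  · refine max_bound m0 c K _ _ d hm0 hc hK hk0 hd0 ?_
    rw [hij]
    exact_mod_cast hi
  · refine max_bound m0 c K _ _ d hm0 hc hK hk0 hd0 ?_
    rw [hij]
    exact_mod_cast hj

/-- one lap, split into two halves -/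
theorem one_bound (T1 T2 : Matrix V V ℝ) (hT1 : ∀ x y, 0 ≤ T1 x y) (hrow1 : ∀ x, ∑ y, T1 x y = 1)
    (hcol1 : ∀ y, ∑ x, T1 x y = 1) (hT2 : ∀ x y, 0 ≤ T2 x y) (hrow2 : ∀ x, ∑ y, T2 x y = 1)
    (hcol2 : ∀ y, ∑ x, T2 x y = 1) (R R' : Finset V)
    (d : ℕ) (hd : 1 ≤ d) (m0 c K K1 K2 : ℝ) (hc : 0 < c) (hK : 0 < K) (hK1 : K ≤ 3 * K1)
    (hK2 : K ≤ 3 * K2) (hm0 : 0 ≤ m0)
    (hLap : ∀ f : V → ℝ, (∀ x, 0 ≤ f x) → (∀ x ∈ R, f x = 0) → ∑ x, f x ≤ 1 →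
      ∑ x, (vecMul f T1 x) ^ 2 ≤
        max m0 (((∑ x, (f x) ^ 2) ^ (-(2 / d : ℝ)) + c * K1) ^ (-(d / 2 : ℝ))))
    (hLap' : ∀ f : V → ℝ, (∀ x, 0 ≤ f x) → (∀ x ∈ R', f x = 0) → ∑ x, f x ≤ 1 →
      ∑ x, (vecMul f T2ᵀ x) ^ 2 ≤
        max m0 (((∑ x, (f x) ^ 2) ^ (-(2 / d : ℝ)) + c * K2) ^ (-(d / 2 : ℝ))))
    (x y : V) (hx : x ∉ R) (hy : y ∉ R') :
    (T1 * T2) x y ≤ m0 + (c * K / 3 * (((0 : ℕ) : ℝ) + 1)) ^ (-(d / 2 : ℝ)) := by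
  have hd0 : (0 : ℝ) < d := by exact_mod_cast hd
  have hK1' : 0 < K1 := by linarith
  have hK2' : 0 < K2 := by linarith
  have h1 := (row_bound T1 hT1 (fun x => (hrow1 x).le) (fun y => (hcol1 y).le) R ∅
    (disjoint_empty_left R) d hd m0 (c * K1) (by positivity) hm0 hLap x hx 0).2.2
  have h2 := (row_bound T2ᵀ (fun x y => hT2 y x) (fun x => (hcol2 x).le) (fun y => (hrow2 y).le)
    R' ∅ (disjoint_empty_left R') d hd m0 (c * K2) (by positivity) hm0 hLap' y hy 0).2.2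
  rw [pow_zero, Matrix.mul_one] at h1 h2
  rw [Matrix.mul_apply]
  have hr : ∀ K' : ℝ, K ≤ 3 * K' → 0 < K' →
      max m0 (((((0 : ℕ) : ℝ) + 1) * (c * K')) ^ (-(d / 2 : ℝ))) ≤
      m0 + (c * K / 3 * (((0 : ℕ) : ℝ) + 1)) ^ (-(d / 2 : ℝ)) := by
    intro K' hKK hK'
    have h3 : ((((0 : ℕ) : ℝ) + 1) * (c * K')) ^ (-(d / 2 : ℝ)) ≤
        (c * K / 3 * (((0 : ℕ) : ℝ) + 1)) ^ (-(d / 2 : ℝ)) := by
      refine Real.rpow_le_rpow_of_nonpos (by positivity) ?_ (by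
        rw [neg_nonpos]
        positivity)
      push_cast
      nlinarith
    have h4 : 0 ≤ (c * K / 3 * (((0 : ℕ) : ℝ) + 1)) ^ (-(d / 2 : ℝ)) :=
      Real.rpow_nonneg (by positivity) _
    exact max_le (by linarith) (by linarith)
  exact cs_half _ _ _ _ h1 h2 _ (add_nonneg hm0 (Real.rpow_nonneg (by positivity) _))
    (hr K1 hK1 hK1') (hr K2 hK2 hK2')

theorem green_sum (a : ℕ → ℝ) (w m0 c K : ℝ) (d : ℕ) (hd : 3 ≤ d) (hw0 : 0 ≤ w) (hw1 : w < 1)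
    (hm0 : 0 ≤ m0) (hc : 0 < c) (hK : 0 < K)
    (ha : ∀ k, a k ≤ m0 + (c * K / 3 * ((k : ℝ) + 1)) ^ (-(d / 2 : ℝ))) (N : ℕ) :
    ∑ k ∈ range N, w ^ (k + 1) * a k ≤ m0 / (1 - w) +
      (c / 3) ^ (-(d / 2 : ℝ)) * (∑' k : ℕ, ((k : ℝ) + 1) ^ (-(d / 2 : ℝ))) *
        K ^ (-(d / 2 : ℝ)) := by
  have hd3 : (3 : ℝ) ≤ d := by exact_mod_cast hd
  have hs : Summable (fun k : ℕ => ((k : ℝ) + 1) ^ (-(d / 2 : ℝ))) := by
    have h1 : Summable (fun k : ℕ => (k : ℝ) ^ (-(d / 2 : ℝ))) :=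
      Real.summable_nat_rpow.2 (by linarith)
    have h2 := (summable_nat_add_iff 1).2 h1
    refine h2.congr fun k => ?_
    push_cast
    rfl
  have h3 : ∀ k ∈ range N, w ^ (k + 1) * a k ≤ m0 * w ^ k +
      (c / 3) ^ (-(d / 2 : ℝ)) * K ^ (-(d / 2 : ℝ)) * ((k : ℝ) + 1) ^ (-(d / 2 : ℝ)) := by
    intro k _
    have h4 : (c * K / 3 * ((k : ℝ) + 1)) ^ (-(d / 2 : ℝ)) =
        (c / 3) ^ (-(d / 2 : ℝ)) * K ^ (-(d / 2 : ℝ)) * ((k : ℝ) + 1) ^ (-(d / 2 : ℝ)) := by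
      rw [← Real.mul_rpow (by positivity) (by positivity),
        ← Real.mul_rpow (by positivity) (by positivity)]
      congr 1
      ring
    have h5 : w ^ (k + 1) ≤ w ^ k := pow_le_pow_of_le_one hw0 hw1.le (Nat.le_succ k)
    have h6 : w ^ (k + 1) ≤ 1 := pow_le_one₀ hw0 hw1.le
    have h7 : 0 ≤ w ^ (k + 1) := pow_nonneg hw0 _
    have h8 : 0 ≤ (c / 3) ^ (-(d / 2 : ℝ)) * K ^ (-(d / 2 : ℝ)) * ((k : ℝ) + 1) ^ (-(d / 2 : ℝ)) := by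
      positivity
    calc w ^ (k + 1) * a k ≤ w ^ (k + 1) * (m0 + (c / 3) ^ (-(d / 2 : ℝ)) * K ^ (-(d / 2 : ℝ)) *
          ((k : ℝ) + 1) ^ (-(d / 2 : ℝ))) := by
          rw [← h4]
          exact mul_le_mul_of_nonneg_left (ha k) h7
      _ = w ^ (k + 1) * m0 + w ^ (k + 1) * ((c / 3) ^ (-(d / 2 : ℝ)) * K ^ (-(d / 2 : ℝ)) *
          ((k : ℝ) + 1) ^ (-(d / 2 : ℝ))) := by ring
      _ ≤ w ^ k * m0 + 1 * ((c / 3) ^ (-(d / 2 : ℝ)) * K ^ (-(d / 2 : ℝ)) *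
          ((k : ℝ) + 1) ^ (-(d / 2 : ℝ))) :=
          add_le_add (mul_le_mul_of_nonneg_right h5 hm0) (mul_le_mul_of_nonneg_right h6 h8)
      _ = _ := by ring
  have h9 : ∑ k ∈ range N, w ^ k ≤ (1 - w)⁻¹ :=
    sum_le_hasSum _ (fun k _ => pow_nonneg hw0 k) (hasSum_geometric_of_lt_one hw0 hw1)
  have h10 : ∑ k ∈ range N, ((k : ℝ) + 1) ^ (-(d / 2 : ℝ)) ≤
      ∑' k : ℕ, ((k : ℝ) + 1) ^ (-(d / 2 : ℝ)) :=
    hs.sum_le_tsum _ (fun k _ => by positivity)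
  calc ∑ k ∈ range N, w ^ (k + 1) * a k ≤ ∑ k ∈ range N, (m0 * w ^ k +
      (c / 3) ^ (-(d / 2 : ℝ)) * K ^ (-(d / 2 : ℝ)) * ((k : ℝ) + 1) ^ (-(d / 2 : ℝ))) :=
        sum_le_sum h3
    _ = m0 * ∑ k ∈ range N, w ^ k + (c / 3) ^ (-(d / 2 : ℝ)) * K ^ (-(d / 2 : ℝ)) *
        ∑ k ∈ range N, ((k : ℝ) + 1) ^ (-(d / 2 : ℝ)) := by
        rw [sum_add_distrib, mul_sum, mul_sum]
    _ ≤ m0 * (1 - w)⁻¹ + (c / 3) ^ (-(d / 2 : ℝ)) * K ^ (-(d / 2 : ℝ)) *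
        ∑' k : ℕ, ((k : ℝ) + 1) ^ (-(d / 2 : ℝ)) :=
        add_le_add (mul_le_mul_of_nonneg_left h9 hm0) (mul_le_mul_of_nonneg_left h10 (by positivity))
    _ = _ := by
        rw [div_eq_mul_inv]
        ring

end abs

theorem ker_nat (Z ml r ρ K L : ℕ) (hZ3 : 3 ≤ Z) (hρ : ρ ≤ Z) (hr : Z ^ (ml + 2) ≤ r)
    (hL : 8 * Z ^ (ml + 2) ≤ L) (hK : Z ^ (ml + 2) ≤ K) :
    Z ^ ml ≤ r - ρ ∧ r - ρ + ρ = r ∧ 8 * Z ^ ml ≤ L ∧ Z ^ ml ≤ K ∧ Z ^ ml ≤ K / 2 ∧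
    Z ^ ml ≤ K - K / 2 ∧ 3 ≤ L ∧ K ≤ 3 * (K / 2) ∧ K ≤ 3 * (K - K / 2) ∧ 1 ≤ K := by
  have h1 : 1 ≤ Z ^ ml := Nat.one_le_pow _ _ (by omega)
  have h2 : Z ^ (ml + 2) = Z * Z * Z ^ ml := by ring
  have h3 : 3 * Z ≤ Z * Z := Nat.mul_le_mul_right _ hZ3
  have h4 : 3 * Z * Z ^ ml ≤ Z ^ (ml + 2) := by
    rw [h2]
    exact Nat.mul_le_mul_right _ h3
  have h5 : Z ≤ Z * Z ^ ml := Nat.le_mul_of_pos_right Z h1
  have h6 : 3 * Z ^ ml ≤ Z * Z ^ ml := Nat.mul_le_mul_right _ hZ3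
  have h7 : 3 * Z * Z ^ ml = 3 * (Z * Z ^ ml) := by ring
  rw [h7] at h4
  refine ⟨by omega, by omega, by omega, by omega, by omega, by omega, by omega, by omega,
    by omega, by omega⟩

theorem ker_of (hB1 : S_BAS1) (hB2 : S_BAS2) (hLAP : S_LAP) (hGE : S_GE) (hSUB : S_SUB)
    (hREV : S_REV) : S_KER := by
  intro d hd
  obtain ⟨Cl, ml, c, hCl, hc, hlap⟩ := hLAP d hd
  have hd1 : 1 ≤ d := by omega
  obtain ⟨S, hS⟩ : ∃ S : ℝ, S = (c / 3) ^ (-(d / 2 : ℝ)) *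
    (∑' k : ℕ, ((k : ℝ) + 1) ^ (-(d / 2 : ℝ))) := ⟨_, rfl⟩
  refine ⟨⌈S⌉₊ + Cl + 3, ml + 2, by omega, ?_⟩
  intro Z hZ L K lam r ρ κ₀ _ hlam hρ hκ hLd hr hL hK
  obtain ⟨n1, n2, n3, n4, n5, n6, hL3, n8, n9, n10⟩ :=
    ker_nat Z ml r ρ K L (by omega) hρ hr hL hK
  obtain ⟨q1, hq1⟩ := hlap Z (by omega) L K lam (r - ρ) ρ (κ₀ + 1) hlam hρ hκ hLd n1 n3 n4
  obtain ⟨q2, hq2⟩ := hlap Z (by omega) L (K / 2) lam (r - ρ) ρ (κ₀ + 1) hlam hρ hκ hLd n1 n3 n5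
  obtain ⟨q3, hq3⟩ := hlap Z (by omega) L (K - K / 2) lam (r - ρ) ρ (κ₀ + 1) hlam hρ hκ hLd n1
    n3 n6
  refine ⟨q1 + q2 + q3 + 2, ?_⟩
  intro q hq σ hσ δ h1 h2 ω R hGd w U x y hw0 hw1 hUR hxR hxU hyU N
  have hqr : (2 : ℝ) ≤ q := by
    have : 2 ≤ q := by omega
    exact_mod_cast this
  have hδ : 0 < δ := by
    by_contra h
    push Not at h
    nlinarith
  have hδ1 : δ ≤ 1 := by nlinarith
  have hEv : Ev σ q K lam (r - ρ) ρ (κ₀ + 1) ω R :=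
    hGE d L hL3 σ hσ q K lam (r - ρ) ρ κ₀ ω R (by omega) n10 (by rw [n2]; exact hGd)
  obtain ⟨hσr, hEvr, hTr⟩ := hREV d L hd1 hL3 σ hσ q K lam (r - ρ) ρ (κ₀ + 1) ω R δ
  have hB := hB2 _ (ed ∘ σ) ω R δ hδ.le hδ1
  obtain ⟨T, hT⟩ : ∃ T, T = TT (ed ∘ σ) ω R δ (K * (q * ms d L)) := ⟨_, rfl⟩
  obtain ⟨R', hR'⟩ : ∃ R', R' = R.image (gp (ed ∘ σ) ω (K * (q * ms d L))) := ⟨_, rfl⟩
  have hT0 : ∀ x y, 0 ≤ T x y := by
    rw [hT]
    exact hB.1 _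
  have hrow : ∀ x, ∑ y, T x y = 1 := by
    rw [hT]
    exact hB.2.1 _
  have hcol : ∀ y, ∑ x, T x y = 1 := by
    rw [hT]
    exact hB.2.2.1 _
  have hz : ∀ a, a ∉ R → ∀ b ∈ R', T a b = 0 := by
    rw [hT, hR']
    exact hB.2.2.2.2.1 _
  have hL0 : (0 : ℝ) < L := by
    have : 0 < L := by omega
    exact_mod_cast this
  have hK0 : (0 : ℝ) < K := by exact_mod_cast n10
  obtain ⟨m0, hm0⟩ : ∃ m0 : ℝ, m0 = Cl / (L : ℝ) ^ d := ⟨_, rfl⟩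
  have hm0n : 0 ≤ m0 := by
    rw [hm0]
    positivity
  have hS0 : 0 ≤ S := by
    rw [hS]
    refine mul_nonneg (Real.rpow_nonneg (by positivity) _) (tsum_nonneg fun k => ?_)
    positivity
  rw [← hT]
  have hCS : S ≤ ((⌈S⌉₊ + Cl + 3 : ℕ) : ℝ) := by
    push_cast
    have := Nat.le_ceil S
    have : (0 : ℝ) ≤ Cl := Nat.cast_nonneg _
    linarith
  have hCC : (Cl : ℝ) ≤ ((⌈S⌉₊ + Cl + 3 : ℕ) : ℝ) := by
    push_cast
    have : (0 : ℝ) ≤ (⌈S⌉₊ : ℝ) := Nat.cast_nonneg _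
    linarith
  have hw : 0 < 1 - w := by linarith
  by_cases hy : y ∈ R'
  · have h3 : ∀ k ∈ range N, w ^ (k + 1) * (T * (dg U * T) ^ k) x y = 0 := fun k _ => by
      rw [pow_zero_col T R R' U hUR hz k x hxR y hy, mul_zero]
    rw [sum_eq_zero h3]
    positivity
  · -- the kernel of all powers
    have hUR2 : Disjoint (U \ R') R := disjoint_of_subset_left sdiff_subset hUR
    have hUR3 : Disjoint (U \ R') R' := sdiff_disjoint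
    have hLap1 : ∀ f : (Fin d → ZMod L) → ℝ, (∀ x, 0 ≤ f x) → (∀ x ∈ R, f x = 0) →
        ∑ x, f x ≤ 1 → ∑ x, (vecMul f T x) ^ 2 ≤
        max m0 (((∑ x, (f x) ^ 2) ^ (-(2 / d : ℝ)) + c * K) ^ (-(d / 2 : ℝ))) := by
      rw [hT, hm0]
      exact hq1 q (by omega) σ hσ δ h1 h2 ω R hEv
    have hLap2 : ∀ f : (Fin d → ZMod L) → ℝ, (∀ x, 0 ≤ f x) → (∀ x ∈ R', f x = 0) →
        ∑ x, f x ≤ 1 → ∑ x, (vecMul f Tᵀ x) ^ 2 ≤
        max m0 (((∑ x, (f x) ^ 2) ^ (-(2 / d : ℝ)) + c * K) ^ (-(d / 2 : ℝ))) := by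
      rw [hT, hR', hm0, ← hTr]
      exact hq1 q (by omega) (rvs σ) hσr δ h1 h2 _ _ (hEvr hEv)
    have hpow : ∀ k : ℕ, (T * (dg U * T) ^ k) x y ≤
        m0 + (c * K / 3 * ((k : ℝ) + 1)) ^ (-(d / 2 : ℝ)) := by
      intro k
      rcases Nat.eq_zero_or_pos k with hk | hk
      · subst hk
        rw [pow_zero, Matrix.mul_one]
        -- two halves
        obtain ⟨K1, hK1⟩ : ∃ K1, K1 = K / 2 := ⟨_, rfl⟩
        obtain ⟨K2, hK2⟩ : ∃ K2, K2 = K - K / 2 := ⟨_, rfl⟩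
        have hKK : K = K1 + K2 := by omega
        obtain ⟨T1, hT1⟩ : ∃ T1, T1 = TT (ed ∘ σ) ω R δ (K1 * (q * ms d L)) := ⟨_, rfl⟩
        obtain ⟨ω1, hω1⟩ : ∃ ω1 : ℕ → Bool, ω1 = sh (K1 * (q * ms d L)) ω := ⟨_, rfl⟩
        obtain ⟨R1, hR1⟩ : ∃ R1, R1 = R.image (gp (ed ∘ σ) ω (K1 * (q * ms d L))) := ⟨_, rfl⟩
        obtain ⟨T2, hT2⟩ : ∃ T2, T2 = TT (ed ∘ σ) ω1 R1 δ (K2 * (q * ms d L)) := ⟨_, rfl⟩
        have hTT : T = T1 * T2 := by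
          rw [hT, hT1, hT2, hω1, hR1, hKK]
          exact TT_units hB2 hσ ω R hδ.le hδ1 q K1 K2
        have hE1 : Ev σ q K1 lam (r - ρ) ρ (κ₀ + 1) ω R := by
          have h4 := (hSUB d L hL3 σ hσ q K lam (r - ρ) ρ (κ₀ + 1) ω R hEv 0 K1 (by omega)).2
          have h5 : sh (0 * (q * ms d L)) ω = ω := by
            funext k
            simp [sh]
          have h6 : R.image (gp (ed ∘ σ) ω (0 * (q * ms d L))) = R := by
            rw [Nat.zero_mul]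
            simp [gp]
          rw [h5, h6] at h4
          exact h4
        have hE2 : Ev σ q K2 lam (r - ρ) ρ (κ₀ + 1) ω1 R1 := by
          rw [hω1, hR1]
          exact (hSUB d L hL3 σ hσ q K lam (r - ρ) ρ (κ₀ + 1) ω R hEv K1 K2 (by omega)).2
        obtain ⟨-, hEvr2, hTr2⟩ := hREV d L hd1 hL3 σ hσ q K2 lam (r - ρ) ρ (κ₀ + 1) ω1 R1 δ
        have hB1' := hB2 _ (ed ∘ σ) ω R δ hδ.le hδ1
        have hB2' := hB2 _ (ed ∘ σ) ω1 R1 δ hδ.le hδ1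
        have hy2 : y ∉ R1.image (gp (ed ∘ σ) ω1 (K2 * (q * ms d L))) := by
          intro h7
          apply hy
          rw [hR1, image_image] at h7
          rw [hR', hKK, add_mul, (hB1 _ (ed ∘ σ) ω).1, sh_ed hσ, ← hω1]
          obtain ⟨a, ha, hay⟩ := mem_image.1 h7
          exact mem_image.2 ⟨a, ha, hay⟩
        rw [hTT]
        refine one_bound T1 T2 ?_ ?_ ?_ ?_ ?_ ?_ R
          (R1.image (gp (ed ∘ σ) ω1 (K2 * (q * ms d L)))) d hd1 m0 c K K1 K2 hc hK0 ?_ ?_ hm0n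
          ?_ ?_ x y hxR hy2
        · rw [hT1]
          exact hB1'.1 _
        · rw [hT1]
          exact hB1'.2.1 _
        · rw [hT1]
          exact hB1'.2.2.1 _
        · rw [hT2]
          exact hB2'.1 _
        · rw [hT2]
          exact hB2'.2.1 _
        · rw [hT2]
          exact hB2'.2.2.1 _
        · rw [hK1]
          exact_mod_cast n8
        · rw [hK2]
          exact_mod_cast n9
        · rw [hT1, hm0, hK1]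
          rw [hK1] at hE1
          exact hq2 q (by omega) σ hσ δ h1 h2 ω R hE1
        · rw [hT2, hm0, ← hTr2]
          have hE3 := hEvr2 hE2
          subst hK2
          exact hq3 q (by omega) (rvs σ) hσr δ h1 h2 _ _ hE3
      · rw [pow_eq_sdiff T R R' U hUR hz k x hxR y]
        exact pow_bound T hT0 hrow hcol R R' (U \ R') hUR2 hUR3 d hd1 m0 c K hc hK0 hm0n
          hLap1 hLap2 x y hxR hy k hk
    refine (green_sum (fun k => (T * (dg U * T) ^ k) x y) w m0 c K d hd hw0 hw1 hm0n hc hK0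
      hpow N).trans ?_
    rw [← hS, mul_add, add_comm]
    refine add_le_add ?_ ?_
    · exact mul_le_mul_of_nonneg_right hCS (Real.rpow_nonneg hK0.le _)
    · rw [hm0, div_div, mul_one_div]
      exact div_le_div_of_nonneg_right hCC (by positivity)

end Pool.Agent.Q257.LC
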