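import Pool.Agent.Q257.LC.L1

/-!
# Project LC: one more arc costs a factor, `S_PEEL`
-/

set_option autoImplicit false

namespace Pool.Agent.Q257.LC

open Finset Equiv Matrix Q292.LC

section ee

theorem EE_mono (n : ℕ) (δ : ℝ) (h0 : 0 ≤ δ) (h1 : δ ≤ 1) {F G : (ℕ → Bool) → ℝ}
    (h : ∀ ω, F ω ≤ G ω) : EE n δ F ≤ EE n δ G := by
  unfold EE
  refine sum_le_sum fun S _ => mul_le_mul_of_nonneg_left (h _) ?_
  exact mul_nonneg (pow_nonneg h0 _) (pow_nonneg (by linarith) _)

theorem EE_sum {ι : Type*} (n : ℕ) (δ : ℝ) (s : Finset ι) (F : ι → (ℕ → Bool) → ℝ) :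
    EE n δ (fun ω => ∑ i ∈ s, F i ω) = ∑ i ∈ s, EE n δ (F i) := by
  unfold EE
  rw [sum_comm]
  exact sum_congr rfl fun S _ => by rw [mul_sum]

theorem EE_mul (n : ℕ) (δ c : ℝ) (F : (ℕ → Bool) → ℝ) :
    EE n δ (fun ω => c * F ω) = c * EE n δ F := by
  unfold EE
  rw [mul_sum]
  exact sum_congr rfl fun S _ => by ring

theorem EE_sub (n : ℕ) (δ : ℝ) (F G : (ℕ → Bool) → ℝ) :
    EE n δ (fun ω => F ω - G ω) = EE n δ F - EE n δ G := by
  unfold EE
  rw [← sum_sub_distrib]
  exact sum_congr rfl fun S _ => by ring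

end ee

section perm

variable {V : Type} [DecidableEq V]

theorem gp_touch (e : ℕ → V × V) (ω ω' : ℕ → Bool) (A : Finset V) (n : ℕ)
    (h : ∀ k < n, tch e ω A k → ω k = ω' k) :
    ∀ k ≤ n, ∀ a ∈ A, gp e ω k a = gp e ω' k a := by
  intro k
  induction k with
  | zero => intro _ a _; rfl
  | succ k ih =>
    intro hk a ha
    have ih' := ih (by omega) a ha
    simp only [gp]
    by_cases ht : tch e ω A k
    · rw [← h k (by omega) ht]
      by_cases hω : ω k
      · simp [hω, ih']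
      · simp [hω, ih']
    · have h1 : gp e ω k a ≠ (e k).1 := fun h => ht ⟨a, ha, Or.inl h⟩
      have h2 : gp e ω k a ≠ (e k).2 := fun h => ht ⟨a, ha, Or.inr h⟩
      have h3 : (swap (e k).1 (e k).2) (gp e ω k a) = gp e ω k a := swap_apply_of_ne_of_ne h1 h2
      have h4 : (swap (e k).1 (e k).2) (gp e ω' k a) = gp e ω' k a := by
        rw [← ih']
        exact h3
      have h5 : (if ω k = true then swap (e k).1 (e k).2 * gp e ω k else gp e ω k) a =
          gp e ω k a := by
        split_ifs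
        · exact h3
        · rfl
      have h6 : (if ω' k = true then swap (e k).1 (e k).2 * gp e ω' k else gp e ω' k) a =
          gp e ω' k a := by
        split_ifs
        · exact h4
        · rfl
      rw [h5, h6, ih']

theorem Sh_touch {X I : Finset V} {g g' : Perm V} {R : Finset V} (h : ∀ a ∈ R, g a = g' a)
    (hS : Sh X I g R) : Sh X I g' R := by
  obtain ⟨h1, h2, h3⟩ := hS
  refine ⟨h1, fun a ha => by rw [← h a ha]; exact h2 a ha, fun a ha haX => ?_⟩
  have h4 := h3 a ha haX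
  have h5 : g' (g⁻¹ a) = a := by
    rw [← h _ h4]
    simp
  have h6 : g'⁻¹ a = g⁻¹ a := by
    rw [Perm.inv_eq_iff_eq]
    exact h5.symm
  rw [h6]
  exact h4

end perm

section arc

variable {V : Type} [Fintype V] [DecidableEq V]

theorem exists_ret (g : Perm V) (X : Finset V) (x : V) (hx : x ∈ X) :
    ∃ m : ℕ, 0 < m ∧ (g ^ m) x ∈ X :=
  ⟨orderOf g, orderOf_pos g, by rw [pow_orderOf_eq_one]; exact hx⟩

/-- the first return to `X` -/
def ret (g : Perm V) (X : Finset V) (x : V) (hx : x ∈ X) : ℕ := Nat.find (exists_ret g X x hx)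

theorem ret_pos (g : Perm V) (X : Finset V) (x : V) (hx : x ∈ X) : 0 < ret g X x hx :=
  (Nat.find_spec (exists_ret g X x hx)).1

theorem ret_mem (g : Perm V) (X : Finset V) (x : V) (hx : x ∈ X) :
    (g ^ ret g X x hx) x ∈ X :=
  (Nat.find_spec (exists_ret g X x hx)).2

theorem ret_min (g : Perm V) (X : Finset V) (x : V) (hx : x ∈ X) {i : ℕ} (hi : 0 < i)
    (hir : i < ret g X x hx) : (g ^ i) x ∉ X := fun h =>
  Nat.find_min (exists_ret g X x hx) hir ⟨hi, h⟩

/-- the arc from `x` to the first return to `X` -/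
def arc (g : Perm V) (X : Finset V) (x : V) (hx : x ∈ X) : Finset V :=
  (range (ret g X x hx)).image fun i => (g ^ i) x

theorem mem_arc {g : Perm V} {X : Finset V} {x : V} {hx : x ∈ X} {a : V} :
    a ∈ arc g X x hx ↔ ∃ i < ret g X x hx, (g ^ i) x = a := by
  simp [arc]

theorem card_arc (g : Perm V) (X : Finset V) (x : V) (hx : x ∈ X) :
    (arc g X x hx).card = ret g X x hx := by
  unfold arc
  rw [card_image_of_injOn, card_range]
  intro i hi j hj hij
  simp only [coe_range, Set.mem_Iio] at hi hj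
  beta_reduce at hij
  have key : ∀ i j : ℕ, i < j → j < ret g X x hx → (g ^ i) x ≠ (g ^ j) x := by
    intro i j h1 h2 h3
    have h4 : (g ^ (j - i)) x = x := by
      have h5 : (g ^ i) ((g ^ (j - i)) x) = (g ^ i) x := by
        rw [← Perm.mul_apply, ← pow_add, h3]
        congr 2
        omega
      exact (g ^ i).injective h5
    exact ret_min g X x hx (i := j - i) (by omega) (by omega) (by rw [h4]; exact hx)
  rcases lt_trichotomy i j with h | h | h
  · exact absurd hij (key i j h hj)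
  · exact h
  · exact absurd hij.symm (key j i h hi)

theorem dS_sdiff (hP4 : S_P4) (g : Perm V) (w : ℝ) (h0 : 0 ≤ w) (h1 : w < 1) (S D : Finset V)
    (h : ∀ a ∈ D, ∃ i : ℕ, (g ^ i) a ∉ S) : dS w S (pm g) = dS w (S \ D) (pm g) := by
  classical
  induction D using Finset.induction_on with
  | empty => simp
  | insert a D ha ih =>
    rw [ih fun b hb => h b (mem_insert_of_mem hb)]
    have h2 : S \ insert a D = (S \ D).erase a := by
      ext b
      simp only [mem_sdiff, mem_insert, mem_erase, not_or]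
      tauto
    rw [h2]
    by_cases haS : a ∈ S \ D
    · obtain ⟨i, hi⟩ := h a (mem_insert_self a D)
      exact (hP4 V g 1 w (S \ D) h0 h1).2.2.1 a haS ⟨i, fun h => hi (mem_sdiff.1 h).1⟩
    · rw [erase_eq_of_notMem haS]

theorem arc_sub {g : Perm V} {X I R : Finset V} {x : V} (hx : x ∈ X)
    (hS : Sh X (insert x I) g R) : arc g X x hx ⊆ R := by
  obtain ⟨h1, h2, -⟩ := hS
  intro a ha
  obtain ⟨i, hi, rfl⟩ := mem_arc.1 ha
  clear ha
  induction i with
  | zero =>
    have : x ∈ R ∩ X := by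
      rw [h1]
      exact mem_insert_self x I
    exact (mem_inter.1 this).1
  | succ i ih =>
    have h3 := h2 _ (ih (by omega))
    have h4 : g ((g ^ i) x) = (g ^ (i + 1)) x := by
      rw [pow_succ', Perm.mul_apply]
    rw [h4, mem_union] at h3
    exact h3.resolve_right (ret_min g X x hx (by omega) hi)

theorem Sh_peel {g : Perm V} {X I R : Finset V} {x : V} (hx : x ∈ X) (hI : I ⊆ X) (hxI : x ∉ I)
    (hS : Sh X (insert x I) g R) : Sh X I g (R \ arc g X x hx) := by
  have hsub := arc_sub hx hS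
  obtain ⟨h1, h2, h3⟩ := hS
  have hx0 : x ∈ arc g X x hx := mem_arc.2 ⟨0, ret_pos g X x hx, rfl⟩
  have harcX : ∀ a ∈ arc g X x hx, a ∈ X → a = x := by
    intro a ha haX
    obtain ⟨i, hi, rfl⟩ := mem_arc.1 ha
    rcases Nat.eq_zero_or_pos i with h | h
    · subst h
      rfl
    · exact absurd haX (ret_min g X x hx h hi)
  refine ⟨?_, ?_, ?_⟩
  · ext a
    simp only [mem_inter, mem_sdiff]
    constructor
    · rintro ⟨⟨haR, haA⟩, haX⟩
      have h4 : a ∈ insert x I := by
        rw [← h1]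
        exact mem_inter.2 ⟨haR, haX⟩
      rcases mem_insert.1 h4 with h5 | h5
      · subst h5
        exact absurd hx0 haA
      · exact h5
    · intro haI
      have h4 : a ∈ R ∩ X := by
        rw [h1]
        exact mem_insert_of_mem haI
      refine ⟨⟨(mem_inter.1 h4).1, fun h5 => ?_⟩, hI haI⟩
      have h6 := harcX a h5 (hI haI)
      subst h6
      exact hxI haI
  · intro a ha
    obtain ⟨haR, haA⟩ := mem_sdiff.1 ha
    have h4 := h2 a haR
    rw [mem_union] at h4 ⊢
    by_cases h5 : g a ∈ X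
    · exact Or.inr h5
    · refine Or.inl (mem_sdiff.2 ⟨h4.resolve_right h5, fun h6 => ?_⟩)
      obtain ⟨i, hi, hia⟩ := mem_arc.1 h6
      rcases Nat.eq_zero_or_pos i with h | h
      · subst h
        apply h5
        rw [← hia]
        exact hx
      · apply haA
        refine mem_arc.2 ⟨i - 1, by omega, ?_⟩
        apply g.injective
        rw [← hia, ← Perm.mul_apply, ← pow_succ']
        congr 2
        omega
  · intro a ha haX
    obtain ⟨haR, haA⟩ := mem_sdiff.1 ha
    refine mem_sdiff.2 ⟨h3 a haR haX, fun h6 => ?_⟩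
    obtain ⟨i, hi, hia⟩ := mem_arc.1 h6
    have h7 : (g ^ (i + 1)) x = a := by
      rw [pow_succ', Perm.mul_apply, hia]
      simp
    rcases Nat.lt_or_ge (i + 1) (ret g X x hx) with h | h
    · exact haA (mem_arc.2 ⟨i + 1, h, h7⟩)
    · have h8 : i + 1 = ret g X x hx := by omega
      apply haX
      rw [← h7, h8]
      exact ret_mem g X x hx

theorem bd_nonneg (hP3 : S_P3) (hP4 : S_P4) (g : Perm V) (w : ℝ) (h0 : 0 ≤ w) (h1 : w < 1)
    (U : Finset V) (x y : V) (hy : y ∉ U) : 0 ≤ bd w U (pm g) x y - dS w U (pm g) := by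
  have h2 := hP3 V g w U x y h0 h1 hy
  by_cases h : ∃ m : ℕ, 0 < m ∧ (∀ i, 0 < i → i < m → (g ^ i) x ∈ U) ∧ (g ^ m) x = y
  · obtain ⟨m, hm, ha, hb⟩ := h
    rw [h2.1 m hm ha hb]
    exact mul_nonneg (pow_nonneg h0 m) (hP4 V g 1 w U h0 h1).1.1.le
  · rw [h2.2 h]

/-- the term of `R` is a term of `R \ arc` -/
theorem term_peel (hP3 : S_P3) (hP4 : S_P4) {g : Perm V} {w : ℝ} (h0 : 0 ≤ w) (h1 : w < 1)
    {X I R : Finset V} {x : V} (hx : x ∈ X) (hI : I ⊆ X) (hxI : x ∉ I)
    (hS : Sh X (insert x I) g R) :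
    w ^ R.card * dS w (univ \ (R ∪ X)) (pm g) ≤ w ^ (R \ arc g X x hx).card *
      ∑ y ∈ X, (bd w (univ \ ((R \ arc g X x hx) ∪ X)) (pm g) x y -
        dS w (univ \ ((R \ arc g X x hx) ∪ X)) (pm g)) := by
  have hsub := arc_sub hx hS
  set R' := R \ arc g X x hx with hR'
  set U := univ \ (R' ∪ X) with hU
  set m := ret g X x hx with hm
  have hcard : R.card = R'.card + m := by
    rw [hR', hm, ← card_arc g X x hx, card_sdiff_add_card_eq_card hsub]
  have hUi : ∀ i, 0 < i → i < m → (g ^ i) x ∈ U := by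
    intro i hi him
    rw [hU]
    simp only [mem_sdiff, mem_univ, true_and, mem_union, not_or]
    refine ⟨fun h => ?_, ret_min g X x hx hi him⟩
    exact (mem_sdiff.1 h).2 (mem_arc.2 ⟨i, him, rfl⟩)
  have hyX : (g ^ m) x ∈ X := ret_mem g X x hx
  have hyU : ∀ y ∈ X, y ∉ U := by
    intro y hy h
    rw [hU] at h
    exact (mem_sdiff.1 h).2 (mem_union_right _ hy)
  have hdS : dS w (univ \ (R ∪ X)) (pm g) = dS w U (pm g) := by
    have h2 : univ \ (R ∪ X) = U \ arc g X x hx := by
      ext b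
      simp only [hU, hR', mem_sdiff, mem_univ, true_and, mem_union, not_or]
      constructor
      · rintro ⟨hb1, hb2⟩
        exact ⟨⟨fun h => hb1 h.1, hb2⟩, fun h => hb1 (hsub h)⟩
      · rintro ⟨⟨hb1, hb2⟩, hb3⟩
        exact ⟨fun h => hb1 ⟨h, hb3⟩, hb2⟩
    rw [h2]
    symm
    apply dS_sdiff hP4 g w h0 h1
    intro a ha
    obtain ⟨i, hi, rfl⟩ := mem_arc.1 ha
    refine ⟨m - i, ?_⟩
    rw [← Perm.mul_apply, ← pow_add, Nat.sub_add_cancel hi.le]
    exact hyU _ hyX
  have h3 := (hP3 V g w U x ((g ^ m) x) h0 h1 (hyU _ hyX)).1 m (ret_pos g X x hx) hUi rfl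
  rw [hdS, hcard, pow_add, mul_assoc, ← h3]
  refine mul_le_mul_of_nonneg_left ?_ (pow_nonneg h0 _)
  exact Finset.single_le_sum (f := fun y => bd w U (pm g) x y - dS w U (pm g))
    (fun y hy => bd_nonneg hP3 hP4 g w h0 h1 U x y (hyU y hy)) hyX

open Classical in
theorem sum_peel (hP3 : S_P3) (hP4 : S_P4) {g : Perm V} {w : ℝ} (h0 : 0 ≤ w) (h1 : w < 1)
    {X I : Finset V} {x : V} (hx : x ∈ X) (hI : I ⊆ X) (hxI : x ∉ I) (Gd : Finset V → Prop)
    (hGd : ∀ R R', R' ⊆ R → Gd R → Gd R') :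
    (∑ R : Finset V, if Sh X (insert x I) g R ∧ Gd R then
      w ^ R.card * dS w (univ \ (R ∪ X)) (pm g) else 0) ≤
    ∑ R : Finset V, ∑ y ∈ X, (if Sh X I g R ∧ Gd R then w ^ R.card else 0) *
      (bd w (univ \ (R ∪ X)) (pm g) x y - dS w (univ \ (R ∪ X)) (pm g)) := by
  set f' : Finset V → ℝ := fun R => ∑ y ∈ X, (if Sh X I g R ∧ Gd R then w ^ R.card else 0) *
      (bd w (univ \ (R ∪ X)) (pm g) x y - dS w (univ \ (R ∪ X)) (pm g)) with hf'
  have hyU : ∀ R : Finset V, ∀ y ∈ X, y ∉ univ \ (R ∪ X) := fun R y hy h =>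
    (mem_sdiff.1 h).2 (mem_union_right _ hy)
  have hnn : ∀ R, 0 ≤ f' R := by
    intro R
    refine sum_nonneg fun y hy => mul_nonneg ?_ (bd_nonneg hP3 hP4 g w h0 h1 _ x y (hyU R y hy))
    split_ifs
    · exact pow_nonneg h0 _
    · exact le_rfl
  rw [← Finset.sum_filter]
  calc ∑ R ∈ univ.filter (fun R => Sh X (insert x I) g R ∧ Gd R),
        w ^ R.card * dS w (univ \ (R ∪ X)) (pm g)
      ≤ ∑ R ∈ univ.filter (fun R => Sh X (insert x I) g R ∧ Gd R), f' (R \ arc g X x hx) := by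
        refine sum_le_sum fun R hR => ?_
        obtain ⟨hS, hG⟩ := (mem_filter.1 hR).2
        have h2 := term_peel hP3 hP4 h0 h1 hx hI hxI hS
        refine h2.trans (le_of_eq ?_)
        rw [hf']
        beta_reduce
        rw [if_pos ⟨Sh_peel hx hI hxI hS, hGd _ _ sdiff_subset hG⟩, mul_sum]
    _ = ∑ R ∈ (univ.filter (fun R => Sh X (insert x I) g R ∧ Gd R)).image
          (fun R => R \ arc g X x hx), f' R := by
        rw [sum_image]
        intro R hR R2 hR2 hE
        have h3 := arc_sub hx (mem_filter.1 (Finset.mem_coe.1 hR)).2.1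
        have h4 := arc_sub hx (mem_filter.1 (Finset.mem_coe.1 hR2)).2.1
        beta_reduce at hE
        rw [← sdiff_union_of_subset h3, hE, sdiff_union_of_subset h4]
    _ ≤ ∑ R : Finset V, f' R :=
        sum_le_sum_of_subset_of_nonneg (subset_univ _) fun R _ _ => hnn R

theorem bd_eq (w : ℝ) (U : Finset V) (P : Matrix V V ℝ) (x y : V) :
    bd w U P x y = (1 + (-(w • dg U) + w • Matrix.single y x 1) * P).det := by
  unfold bd
  congr 1
  ext a b
  simp only [Matrix.add_apply, Matrix.sub_apply, Matrix.smul_apply, Matrix.add_mul,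
    Matrix.neg_mul, Matrix.smul_mul, Matrix.neg_apply, Matrix.of_apply, smul_eq_mul]
  have h1 : (Matrix.single y x (1 : ℝ) * P) a b = if a = y then P x b else 0 := by
    by_cases h : a = y
    · subst h
      simp [Matrix.single_mul_apply_same]
    · rw [if_neg h, Matrix.single_mul_apply_of_ne _ _ _ _ _ h]
  rw [h1]
  ring

theorem dS_eq (w : ℝ) (U : Finset V) (P : Matrix V V ℝ) :
    dS w U P = (1 + (-(w • dg U)) * P).det := by
  unfold dS
  rw [Matrix.neg_mul, Matrix.smul_mul, sub_eq_add_neg]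

open Classical in
theorem peel_of (hP3 : S_P3) (hP4 : S_P4) : S_PEEL := by
  intro V _ _ e n δ w κ Gd hδ0 hδ1 h0 h1 hκ hRm hGd hbd X I hI x hx hxI
  have hyU : ∀ R : Finset V, ∀ y ∈ X, y ∉ univ \ (R ∪ X) := fun R y hy h =>
    (mem_sdiff.1 h).2 (mem_union_right _ hy)
  -- the factor of a revealed set
  set Θ : Finset V → (ℕ → Bool) → ℝ := fun R ω =>
    if Sh X I (gp e ω n) R ∧ Gd ω R then w ^ R.card else 0 with hΘ
  have hΘ0 : ∀ R ω, 0 ≤ Θ R ω := by
    intro R ω
    rw [hΘ]
    beta_reduce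
    split_ifs
    · exact pow_nonneg h0 _
    · exact le_rfl
  have hΘm : ∀ R, Rmeas e n R (Θ R) := by
    intro R ω ω' h
    have h2 : Gd ω R = Gd ω' R := hRm R ω ω' h
    have h3 := gp_touch e ω ω' R n h n le_rfl
    have h4 : Sh X I (gp e ω n) R ↔ Sh X I (gp e ω' n) R :=
      ⟨Sh_touch h3, Sh_touch fun a ha => (h3 a ha).symm⟩
    rw [hΘ]
    beta_reduce
    rw [h2, if_congr (and_congr_left' h4) rfl rfl]
  have hWW : WW e n δ w Gd X I = EE n δ fun ω => ∑ R : Finset V,
      Θ R ω * dS w (univ \ (R ∪ X)) (pm (gp e ω n)) := by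
    unfold WW
    congr 1
    funext ω
    refine sum_congr rfl fun R _ => ?_
    rw [hΘ]
    beta_reduce
    by_cases h : Sh X I (gp e ω n) R ∧ Gd ω R
    · rw [if_pos h, if_pos h]
    · rw [if_neg h, if_neg h, zero_mul]
  have hstep1 : WW e n δ w Gd X (insert x I) ≤ EE n δ fun ω => ∑ R : Finset V, ∑ y ∈ X,
      Θ R ω * (bd w (univ \ (R ∪ X)) (pm (gp e ω n)) x y -
        dS w (univ \ (R ∪ X)) (pm (gp e ω n))) := by
    unfold WW
    refine EE_mono n δ hδ0 hδ1 fun ω => ?_
    have h2 := sum_peel hP3 hP4 (g := gp e ω n) h0 h1 hx hI hxI (Gd ω) (hGd ω)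
    convert h2 using 1
  have hkey : ∀ R : Finset V, ∀ y ∈ X, EE n δ (fun ω => Θ R ω *
      (bd w (univ \ (R ∪ X)) (pm (gp e ω n)) x y - dS w (univ \ (R ∪ X)) (pm (gp e ω n)))) ≤
      κ * EE n δ fun ω => Θ R ω * dS w (univ \ (R ∪ X)) (pm (gp e ω n)) := by
    intro R y hy
    set U := univ \ (R ∪ X) with hU
    have hconst : ∀ M : Matrix V V ℝ, Rmeas e n R fun _ => M := fun M ω ω' _ => rfl
    have e1 : EE n δ (fun ω => Θ R ω * bd w U (pm (gp e ω n)) x y) =
        EE n δ (fun ω => Θ R ω * bd w U (TT e ω R δ n) x y) := by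
      simp only [bd_eq]
      exact l1 V e n δ R (Θ R) (fun _ => 1) (fun _ => -(w • dg U) + w • Matrix.single y x 1)
        hδ0 hδ1 (hΘm R) (hconst _) (hconst _)
    have e2 : EE n δ (fun ω => Θ R ω * dS w U (pm (gp e ω n))) =
        EE n δ (fun ω => Θ R ω * dS w U (TT e ω R δ n)) := by
      simp only [dS_eq]
      exact l1 V e n δ R (Θ R) (fun _ => 1) (fun _ => -(w • dg U))
        hδ0 hδ1 (hΘm R) (hconst _) (hconst _)
    calc EE n δ (fun ω => Θ R ω * (bd w U (pm (gp e ω n)) x y - dS w U (pm (gp e ω n))))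
        = EE n δ (fun ω => Θ R ω * bd w U (pm (gp e ω n)) x y) -
          EE n δ (fun ω => Θ R ω * dS w U (pm (gp e ω n))) := by
          rw [← EE_sub]
          congr 1
          funext ω
          ring
      _ = EE n δ (fun ω => Θ R ω * (bd w U (TT e ω R δ n) x y - dS w U (TT e ω R δ n))) := by
          rw [e1, e2, ← EE_sub]
          congr 1
          funext ω
          ring
      _ ≤ EE n δ (fun ω => κ * (Θ R ω * dS w U (TT e ω R δ n))) := by
          refine EE_mono n δ hδ0 hδ1 fun ω => ?_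
          by_cases h : Sh X I (gp e ω n) R ∧ Gd ω R
          · have hxR : x ∉ R := by
              intro hxR
              apply hxI
              rw [← h.1.1]
              exact mem_inter.2 ⟨hxR, hx⟩
            have h5 := hbd ω R h.2 U (by
              rw [hU]
              exact disjoint_left.2 fun a ha haR => (mem_sdiff.1 ha).2 (mem_union_left _ haR))
              x hxR (hyU R x hx) y (hyU R y hy)
            have h6 := mul_le_mul_of_nonneg_left h5 (hΘ0 R ω)
            linarith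
          · have h7 : Θ R ω = 0 := by
              rw [hΘ]
              beta_reduce
              rw [if_neg h]
            rw [h7]
            simp
      _ = κ * EE n δ (fun ω => Θ R ω * dS w U (pm (gp e ω n))) := by
          rw [EE_mul, e2]
  refine hstep1.trans ?_
  rw [EE_sum]
  simp only [EE_sum]
  calc ∑ R : Finset V, ∑ y ∈ X, EE n δ (fun ω => Θ R ω *
      (bd w (univ \ (R ∪ X)) (pm (gp e ω n)) x y - dS w (univ \ (R ∪ X)) (pm (gp e ω n))))
      ≤ ∑ R : Finset V, ∑ _y ∈ X,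
        κ * EE n δ fun ω => Θ R ω * dS w (univ \ (R ∪ X)) (pm (gp e ω n)) :=
        sum_le_sum fun R _ => sum_le_sum fun y hy => hkey R y hy
    _ = (X.card * κ) * WW e n δ w Gd X I := by
        rw [hWW, EE_sum, mul_sum]
        refine sum_congr rfl fun R _ => ?_
        rw [sum_const, nsmul_eq_mul]
        ring

end arc

end Pool.Agent.Q257.LC
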