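import Pool.Agent.Q257.LC.PeelU
import Pool.Agent.Q153.LC.Rus
import Pool.Agent.Q176.LC.First

/-!
# Project LC: violations have small probability, `S_BADP`
-/

set_option autoImplicit false
set_option linter.unusedSectionVars false

namespace Pool.Agent.Q257.LC

open Finset Equiv Matrix Q292.LC
open Pool.Agent.Q153.LC (inv_pow inv_same cyc_sub cyc_disj inv_cyc mem_cyc inv_union)

section core

variable {V : Type} [Fintype V] [DecidableEq V]

theorem pow_inj (g : Perm V) (y : V) : Set.InjOn (fun l : ℕ => (g ^ l) y)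
    (Finset.range (cyc g y).card : Set ℕ) := by
  rw [← Finset.card_image_iff, Pool.Agent.Q176.LC.cyc_eq, card_range]

theorem pow_mem_cyc (g : Perm V) (y : V) (i : ℕ) : (g ^ i) y ∈ cyc g y := by
  rw [mem_cyc]
  exact ⟨(i : ℤ), by rw [zpow_natCast]⟩

theorem inv_symm {g : Perm V} {A : Finset V} (h : Inv g A) {a : V} (ha : a ∈ A) : g⁻¹ a ∈ A :=
  inv_same g A h a _ ha ⟨-1, by simp⟩

theorem self_mem_cyc (g : Perm V) (y : V) : y ∈ cyc g y := pow_mem_cyc g y 0

/-- the revealed set at the first violation -/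
def rev (g : Perm V) (A : Finset V) (y : V) (m : ℕ) : Finset V :=
  A ∪ (Finset.range m).image fun i => (g ^ i) y

section tip

variable {g : Perm V} {A : Finset V} {y : V} {m : ℕ}

theorem mem_rev {a : V} : a ∈ rev g A y m ↔ a ∈ A ∨ ∃ i < m, (g ^ i) y = a := by
  simp [rev]

theorem tip_notMem (hA : Inv g A) (hy : y ∉ A) (hm : m < (cyc g y).card) :
    (g ^ m) y ∉ rev g A y m := by
  intro h
  rcases mem_rev.1 h with h1 | ⟨i, hi, h1⟩
  · exact disjoint_left.1 (cyc_disj g A hA y hy) h1 (pow_mem_cyc g y m)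
  · have h2 := pow_inj g y (x₁ := i) (x₂ := m) (by simp; omega) (by simpa using hm) h1
    omega

theorem card_rev (hA : Inv g A) (hy : y ∉ A) (hm : m < (cyc g y).card) :
    (rev g A y m).card = A.card + m := by
  unfold rev
  rw [card_union_of_disjoint]
  · rw [card_image_of_injOn, card_range]
    intro i hi j hj hij
    exact pow_inj g y (by simp at hi ⊢; omega) (by simp at hj ⊢; omega) hij
  · rw [disjoint_left]
    intro a ha h1
    obtain ⟨i, -, rfl⟩ := mem_image.1 h1
    exact disjoint_left.1 (cyc_disj g A hA y hy) ha (pow_mem_cyc g y i)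

theorem rev_sub (hm : m < (cyc g y).card) : rev g A y m ⊆ A ∪ cyc g y := by
  intro a ha
  rcases mem_rev.1 ha with h1 | ⟨i, -, rfl⟩
  · exact mem_union_left _ h1
  · exact mem_union_right _ (pow_mem_cyc g y i)

theorem rev_inv (hA : Inv g A) (hy : y ∉ A) (hm : m < (cyc g y).card) :
    (rev g A y m).filter (fun a => cyc g a ⊆ rev g A y m) = A := by
  ext a
  rw [mem_filter]
  constructor
  · rintro ⟨h1, h2⟩
    rcases mem_rev.1 h1 with h3 | ⟨i, -, rfl⟩
    · exact h3
    · exfalso
      apply tip_notMem hA hy hm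
      apply h2
      rw [mem_cyc]
      exact Perm.SameCycle.trans (Perm.SameCycle.symm ((mem_cyc g y _).1 (pow_mem_cyc g y i)))
        ((mem_cyc g y _).1 (pow_mem_cyc g y m))
  · intro ha
    refine ⟨mem_rev.2 (Or.inl ha), fun b hb => mem_rev.2 (Or.inl ?_)⟩
    exact cyc_sub g A hA a ha hb

theorem Sh_rev (hA : Inv g A) (hy : y ∉ A) (hm : m < (cyc g y).card) {X : Finset V}
    (hX : X ⊆ insert ((g ^ m) y) (rev g A y m)) (ht : (g ^ m) y ∈ X) :
    Sh (insert y X) ((insert y X).erase ((g ^ m) y)) g (rev g A y m) := by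
  have htip := tip_notMem hA hy hm
  refine ⟨?_, ?_, ?_⟩
  · ext a
    rw [mem_inter, mem_erase]
    constructor
    · rintro ⟨h1, h2⟩
      refine ⟨?_, h2⟩
      rintro rfl
      exact htip h1
    · rintro ⟨h1, h2⟩
      refine ⟨?_, h2⟩
      rcases mem_insert.1 h2 with h3 | h3
      · subst h3
        have hm0 : 0 < m := by
          rcases Nat.eq_zero_or_pos m with h | h
          · subst h
            exact absurd rfl h1
          · exact h
        exact mem_rev.2 (Or.inr ⟨0, hm0, rfl⟩)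
      · rcases mem_insert.1 (hX h3) with h4 | h4
        · exact absurd h4 h1
        · exact h4
  · intro a ha
    rw [mem_union]
    rcases mem_rev.1 ha with h1 | ⟨i, hi, rfl⟩
    · exact Or.inl (mem_rev.2 (Or.inl (hA a h1)))
    · have h2 : g ((g ^ i) y) = (g ^ (i + 1)) y := by
        rw [pow_succ', Perm.mul_apply]
      rw [h2]
      rcases Nat.lt_or_ge (i + 1) m with h | h
      · exact Or.inl (mem_rev.2 (Or.inr ⟨i + 1, h, rfl⟩))
      · have h3 : i + 1 = m := by omega
        rw [h3]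
        exact Or.inr (mem_insert_of_mem ht)
  · intro a ha haX
    rcases mem_rev.1 ha with h1 | ⟨i, hi, rfl⟩
    · exact mem_rev.2 (Or.inl (inv_symm hA h1))
    · rcases Nat.eq_zero_or_pos i with h | h
      · subst h
        exact absurd (mem_insert_self y X) haX
      · refine mem_rev.2 (Or.inr ⟨i - 1, by omega, ?_⟩)
        rw [Perm.eq_inv_iff_eq, ← Perm.mul_apply, ← pow_succ']
        congr 2
        omega

theorem dS_rev (hP4 : S_P4) {w : ℝ} (h0 : 0 ≤ w) (h1 : w < 1) (hm : m < (cyc g y).card)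
    {X : Finset V}
    (hX : X ⊆ insert ((g ^ m) y) (rev g A y m)) (ht : (g ^ m) y ∈ X) :
    dS w (univ \ (rev g A y m ∪ insert y X)) (pm g) = dS w (univ \ (A ∪ cyc g y)) (pm g) := by
  rw [dS_sdiff hP4 g w h0 h1 (univ \ (rev g A y m ∪ insert y X)) (A ∪ cyc g y)]
  · congr 1
    have h2 : rev g A y m ∪ insert y X ⊆ A ∪ cyc g y := by
      intro a ha
      rcases mem_union.1 ha with h3 | h3
      · exact rev_sub hm h3
      · rcases mem_insert.1 h3 with h4 | h4
        · rw [h4]
          exact mem_union_right _ (self_mem_cyc g y)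
        · rcases mem_insert.1 (hX h4) with h5 | h5
          · rw [h5]
            exact mem_union_right _ (pow_mem_cyc g y m)
          · exact rev_sub hm h5
    ext a
    simp only [mem_sdiff, mem_univ, true_and]
    exact ⟨fun h => h.2, fun h => ⟨fun h3 => h (h2 h3), h⟩⟩
  · intro a ha
    rcases mem_union.1 ha with h3 | h3
    · exact ⟨0, fun h => (mem_sdiff.1 h).2 (mem_union_left _ (mem_rev.2 (Or.inl h3)))⟩
    · rw [mem_cyc] at h3
      have h4 := h3.symm.trans ((mem_cyc g y _).1 (pow_mem_cyc g y m))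
      obtain ⟨i, -, hi⟩ := h4.exists_pow_eq'
      refine ⟨i, fun h => ?_⟩
      rw [hi] at h
      exact (mem_sdiff.1 h).2 (mem_union_right _ (mem_insert_of_mem ht))

end tip

theorem inv_conj {g h : Perm V} {A : Finset V} (hA : Inv g A) :
    Inv (h * g * h⁻¹) (A.image h) := by
  intro a ha
  obtain ⟨b, hb, rfl⟩ := mem_image.1 ha
  refine mem_image.2 ⟨g b, hA b hb, ?_⟩
  simp

theorem cyc_conj (g h : Perm V) (x : V) : cyc (h * g * h⁻¹) (h x) = (cyc g x).image h := by
  ext a
  rw [mem_cyc, mem_image]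
  constructor
  · intro h1
    refine ⟨h⁻¹ a, ?_, by simp⟩
    rw [mem_cyc]
    have h2 := (Perm.sameCycle_conj (f := g) (g := h) (x := h x) (y := a)).1 h1
    simpa using h2
  · rintro ⟨b, hb, rfl⟩
    rw [mem_cyc] at hb
    rw [Perm.sameCycle_conj]
    simpa using hb

theorem rev_conj (g h : Perm V) (A : Finset V) (x : V) (m : ℕ) :
    A.image h ∪ (Finset.range m).image (fun i => ((h * g * h⁻¹) ^ i) (h x)) =
      rev (h * g * h⁻¹) (A.image h) (h x) m := rfl

end core

section first

variable {V : Type} [Fintype V] [DecidableEq V]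

/-- the sites at time `j u` -/
def hh (e : ℕ → V × V) (u : ℕ) (ω : ℕ → Bool) (j : ℕ) : Perm V := gp e ω (j * u)

/-- the rotated circuit -/
def gg (e : ℕ → V × V) (u K : ℕ) (ω : ℕ → Bool) (j : ℕ) : Perm V :=
  gp e (rot (K * u) (j * u) ω) (K * u)

open Classical in
/-- one term of the index sum -/
noncomputable def tm (e : ℕ → V × V) (u K lam : ℕ) (w : ℝ) (B : V → Finset V)
    (Gd : (ℕ → Bool) → Finset V → Prop) (ω : ℕ → Bool)
    (q : ℕ × V × Finset V × V × V × Finset V) : ℝ :=
  if (q.2.2.1 ∈ powersetCard (lam + 1) (B q.2.1) ∧ q.2.2.2.2.1 ∈ q.2.2.1) ∧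
     (Sh (insert q.2.2.2.1 q.2.2.1) ((insert q.2.2.2.1 q.2.2.1).erase q.2.2.2.2.1)
      (gg e u K ω q.1) q.2.2.2.2.2 ∧ Gd (rot (K * u) (q.1 * u) ω) q.2.2.2.2.2) then
    w ^ q.2.2.2.2.2.card * dS w (univ \ (q.2.2.2.2.2 ∪ insert q.2.2.2.1 q.2.2.1))
      (pm (gg e u K ω q.1)) else 0

theorem tm_nonneg (hP4 : S_P4) (e : ℕ → V × V) (u K lam : ℕ) {w : ℝ} (h0 : 0 ≤ w) (h1 : w < 1)
    (B : V → Finset V) (Gd : (ℕ → Bool) → Finset V → Prop) (ω : ℕ → Bool)
    (q : ℕ × V × Finset V × V × V × Finset V) : 0 ≤ tm e u K lam w B Gd ω q := by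
  unfold tm
  split_ifs
  · exact mul_nonneg (pow_nonneg h0 _) (hP4 V _ 1 w _ h0 h1).1.1.le
  · exact le_rfl

open Classical in
theorem core_le (hP4 : S_P4) (hF : S_FIRST) (hRot : S_ROT) (e : ℕ → V × V) (u K lam : ℕ) {w : ℝ}
    (B : V → Finset V) (Om : (ℕ → Bool) → Prop) (Gd : (ℕ → Bool) → Finset V → Prop)
    (h0 : 0 ≤ w) (h1 : w < 1) (hu : 0 < u) (hK : 0 < K) (he : ∀ k, e (k + u) = e k)
    (hG : ∀ ω, Om ω → ∀ j < K, ∀ R, ¬ viol e u K B lam (rot (K * u) (j * u) ω) R →
      Gd (rot (K * u) (j * u) ω) R) (ω : ℕ → Bool) :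
    (∑ x : V, ∑ A : Finset V, if Inv (gp e ω (K * u)) A ∧ x ∉ A then
      w ^ (A.card + (cyc (gp e ω (K * u)) x).card - 1) *
        dS w (univ \ (A ∪ cyc (gp e ω (K * u)) x)) (pm (gp e ω (K * u))) *
        max 0 ((if Om ω ∧ viol e u K B lam ω (A ∪ cyc (gp e ω (K * u)) x) then (1 : ℝ) else 0) -
          if Om ω ∧ viol e u K B lam ω A then (1 : ℝ) else 0) else 0) ≤
    ∑ q ∈ range K ×ˢ (univ : Finset (V × Finset V × V × V × Finset V)),
      tm e u K lam w B Gd ω q := by
  set g : Perm V := gp e ω (K * u) with hg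
  set P : Finset (V × Finset V) := univ.filter (fun p => Inv g p.2 ∧ p.1 ∉ p.2 ∧ Om ω ∧
    ¬ viol e u K B lam ω p.2 ∧ viol e u K B lam ω (p.2 ∪ cyc g p.1)) with hPd
  set t : V × Finset V → ℝ := fun p => w ^ (p.2.card + (cyc g p.1).card - 1) *
    dS w (univ \ (p.2 ∪ cyc g p.1)) (pm g) with ht
  have ht0 : ∀ p, 0 ≤ t p := fun p =>
    mul_nonneg (pow_nonneg h0 _) (hP4 V _ 1 w _ h0 h1).1.1.le
  -- step 1
  have step1 : (∑ x : V, ∑ A : Finset V, if Inv g A ∧ x ∉ A then
      w ^ (A.card + (cyc g x).card - 1) * dS w (univ \ (A ∪ cyc g x)) (pm g) *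
        max 0 ((if Om ω ∧ viol e u K B lam ω (A ∪ cyc g x) then (1 : ℝ) else 0) -
          if Om ω ∧ viol e u K B lam ω A then (1 : ℝ) else 0) else 0) ≤ ∑ p ∈ P, t p := by
    rw [hPd, sum_filter, ← Fintype.sum_prod_type' (f := fun (x : V) (A : Finset V) =>
      if Inv g A ∧ x ∉ A then
      w ^ (A.card + (cyc g x).card - 1) * dS w (univ \ (A ∪ cyc g x)) (pm g) *
        max 0 ((if Om ω ∧ viol e u K B lam ω (A ∪ cyc g x) then (1 : ℝ) else 0) -
          if Om ω ∧ viol e u K B lam ω A then (1 : ℝ) else 0) else 0)]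
    refine sum_le_sum fun p _ => ?_
    by_cases hA : Inv g p.2 ∧ p.1 ∉ p.2
    · rw [if_pos hA]
      by_cases hb : Om ω ∧ viol e u K B lam ω (p.2 ∪ cyc g p.1)
      · by_cases hc : viol e u K B lam ω p.2
        · rw [if_pos hb, if_pos ⟨hb.1, hc⟩, if_neg (fun h => h.2.2.2.1 hc)]
          simp
        · rw [if_pos hb, if_neg (fun h => hc h.2), if_pos ⟨hA.1, hA.2, hb.1, hc, hb.2⟩]
          simp [ht]
      · have hnc : ¬ (Inv g p.2 ∧ p.1 ∉ p.2 ∧ Om ω ∧
            ¬ viol e u K B lam ω p.2 ∧ viol e u K B lam ω (p.2 ∪ cyc g p.1)) :=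
          fun h => hb ⟨h.2.2.1, h.2.2.2.2⟩
        rw [if_neg hb, if_neg hnc]
        have h3 : max (0 : ℝ) (0 - if Om ω ∧ viol e u K B lam ω p.2 then (1 : ℝ) else 0) = 0 := by
          apply max_eq_left
          split_ifs <;> norm_num
        rw [h3, mul_zero]
    · rw [if_neg hA, if_neg (fun h => hA ⟨h.1, h.2.1⟩)]
  refine step1.trans ?_
  -- step 2: the choice of the first violation
  have hch : ∀ p : V × Finset V, ∃ q : ℕ × V × ℕ, p ∈ P →
      (q.1 < K ∧ q.2.2 < (cyc g p.1).card ∧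
      ¬ viol e u K B lam (rot (K * u) (q.1 * u) ω)
        (rev (gg e u K ω q.1) (p.2.image (hh e u ω q.1)) (hh e u ω q.1 p.1) q.2.2) ∧
      lam < ((insert ((gg e u K ω q.1 ^ q.2.2) (hh e u ω q.1 p.1))
        (rev (gg e u K ω q.1) (p.2.image (hh e u ω q.1)) (hh e u ω q.1 p.1) q.2.2)) ∩
          B q.2.1).card) := by
    intro p
    by_cases hp : p ∈ P
    · obtain ⟨-, hA, hx, hOm, hnv, hv⟩ := mem_filter.1 hp
      obtain ⟨j, hj, v, m, hm, ha, hb⟩ := hF V e u K lam B ω p.2 p.1 hu he hA hx hnv hv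
      exact ⟨(j, v, m), fun _ => ⟨hj, hm, ha, hb⟩⟩
    · exact ⟨(0, p.1, 0), fun h => absurd h hp⟩
  choose Q hQ using hch
  set R : V × Finset V → Finset V := fun p => rev (gg e u K ω (Q p).1)
    (p.2.image (hh e u ω (Q p).1)) (hh e u ω (Q p).1 p.1) (Q p).2.2 with hR
  set tip : V × Finset V → V := fun p => (gg e u K ω (Q p).1 ^ (Q p).2.2)
    (hh e u ω (Q p).1 p.1) with htip
  set X : V × Finset V → Finset V := fun p => insert (tip p) (R p) ∩ B (Q p).2.1 with hX
  set ψ : V × Finset V → ℕ × V × Finset V × V × V × Finset V := fun p =>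
    ((Q p).1, (Q p).2.1, X p, hh e u ω (Q p).1 p.1, tip p, R p) with hψ
  have hconj : ∀ p ∈ P, gg e u K ω (Q p).1 =
      hh e u ω (Q p).1 * g * (hh e u ω (Q p).1)⁻¹ := fun p hp =>
    (hRot V e u K (Q p).1 hu (hQ p hp).1.le he ω).2.2
  have hInv : ∀ p ∈ P, Inv (gg e u K ω (Q p).1) (p.2.image (hh e u ω (Q p).1)) := by
    intro p hp
    rw [hconj p hp]
    exact inv_conj (mem_filter.1 hp).2.1
  have hcyc : ∀ p ∈ P, cyc (gg e u K ω (Q p).1) (hh e u ω (Q p).1 p.1) =
      (cyc g p.1).image (hh e u ω (Q p).1) := by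
    intro p hp
    rw [hconj p hp]
    exact cyc_conj g _ p.1
  have hM : ∀ p ∈ P, (Q p).2.2 < (cyc (gg e u K ω (Q p).1) (hh e u ω (Q p).1 p.1)).card := by
    intro p hp
    rw [hcyc p hp, card_image_of_injective _ (hh e u ω (Q p).1).injective]
    exact (hQ p hp).2.1
  have hyA : ∀ p ∈ P, hh e u ω (Q p).1 p.1 ∉ p.2.image (hh e u ω (Q p).1) := by
    intro p hp h
    obtain ⟨b, hb, hbx⟩ := mem_image.1 h
    have h2 := (hh e u ω (Q p).1).injective hbx
    subst h2
    exact (mem_filter.1 hp).2.2.1 hb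
  have hinj : Set.InjOn ψ (P : Set (V × Finset V)) := by
    intro p hp q hq hE
    rw [Finset.mem_coe] at hp hq
    simp only [hψ, Prod.mk.injEq] at hE
    obtain ⟨hj, -, -, hy, -, hRR⟩ := hE
    have hx : p.1 = q.1 := by
      rw [hj] at hy
      exact (hh e u ω (Q q).1).injective hy
    have hAA : p.2.image (hh e u ω (Q p).1) = q.2.image (hh e u ω (Q q).1) := by
      have e1 := rev_inv (hInv p hp) (hyA p hp) (hM p hp)
      have e2 := rev_inv (hInv q hq) (hyA q hq) (hM q hq)
      have e3 : R p = rev (gg e u K ω (Q p).1)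
        (p.2.image (hh e u ω (Q p).1)) (hh e u ω (Q p).1 p.1) (Q p).2.2 := rfl
      have e4 : R q = rev (gg e u K ω (Q q).1)
        (q.2.image (hh e u ω (Q q).1)) (hh e u ω (Q q).1 q.1) (Q q).2.2 := rfl
      rw [← e3] at e1
      rw [← e4] at e2
      rw [← e1, ← e2, hRR, hj]
    rw [hj] at hAA
    have hA2 := Finset.image_injective (hh e u ω (Q q).1).injective hAA
    exact Prod.ext hx hA2
  -- the terms
  have hterm : ∀ p ∈ P, t p ≤ tm e u K lam w B Gd ω (ψ p) := by
    intro p hp
    obtain ⟨hj, hm, hnv, hlt⟩ := hQ p hp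
    have hOm : Om ω := (mem_filter.1 hp).2.2.2.1
    have htR : tip p ∉ R p := tip_notMem (hInv p hp) (hyA p hp) (hM p hp)
    have hRB : (R p ∩ B (Q p).2.1).card ≤ lam := by
      by_contra hcon
      apply hnv
      refine ⟨0, hK, (Q p).2.1, ?_⟩
      have e5 : (R p).image (gp e (rot (K * u) ((Q p).1 * u) ω) (0 * u)) = R p := by
        rw [Nat.zero_mul]
        simp [gp]
      change lam < ((R p).image (gp e (rot (K * u) ((Q p).1 * u) ω) (0 * u)) ∩
        B (Q p).2.1).card
      rw [e5]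
      omega
    have htB : tip p ∈ B (Q p).2.1 := by
      by_contra hcon
      have e6 : insert (tip p) (R p) ∩ B (Q p).2.1 = R p ∩ B (Q p).2.1 := by
        rw [insert_inter_of_notMem hcon]
      have e7 : lam < (insert (tip p) (R p) ∩ B (Q p).2.1).card := hlt
      rw [e6] at e7
      omega
    have htX : tip p ∈ X p := mem_inter.2 ⟨mem_insert_self _ _, htB⟩
    have hXc : (X p).card = lam + 1 := by
      have e7 : lam < (X p).card := hlt
      have e8 : X p = insert (tip p) (R p ∩ B (Q p).2.1) := by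
        rw [hX]
        beta_reduce
        rw [insert_inter_of_mem htB]
      have e9 : (X p).card ≤ (R p ∩ B (Q p).2.1).card + 1 := by
        rw [e8]
        exact card_insert_le _ _
      omega
    have hXs : X p ⊆ insert (tip p) (R p) := inter_subset_left
    have hcond : (((ψ p).2.2.1 ∈ powersetCard (lam + 1) (B (ψ p).2.1) ∧
        (ψ p).2.2.2.2.1 ∈ (ψ p).2.2.1) ∧
        (Sh (insert (ψ p).2.2.2.1 (ψ p).2.2.1)
        ((insert (ψ p).2.2.2.1 (ψ p).2.2.1).erase (ψ p).2.2.2.2.1)
        (gg e u K ω (ψ p).1) (ψ p).2.2.2.2.2 ∧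
        Gd (rot (K * u) ((ψ p).1 * u) ω) (ψ p).2.2.2.2.2)) := by
      refine ⟨⟨mem_powersetCard.2 ⟨inter_subset_right, hXc⟩, htX⟩, ?_, hG ω hOm _ hj _ hnv⟩
      exact Sh_rev (hInv p hp) (hyA p hp) (hM p hp) hXs htX
    unfold tm
    rw [if_pos hcond]
    have e10 : dS w (univ \ (R p ∪ insert (hh e u ω (Q p).1 p.1) (X p)))
        (pm (gg e u K ω (Q p).1)) = dS w (univ \ (p.2 ∪ cyc g p.1)) (pm g) := by
      have e11 := dS_rev (A := p.2.image (hh e u ω (Q p).1)) hP4 h0 h1 (hM p hp) hXs htX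
      have e12 : univ \ (p.2.image (hh e u ω (Q p).1) ∪
          cyc (gg e u K ω (Q p).1) (hh e u ω (Q p).1 p.1)) =
          (univ \ (p.2 ∪ cyc g p.1)).image (hh e u ω (Q p).1) := by
        rw [hcyc p hp, image_sdiff _ _ (hh e u ω (Q p).1).injective, image_union,
          image_univ_of_surjective (hh e u ω (Q p).1).surjective]
      rw [e12] at e11
      refine e11.trans ?_
      rw [hconj p hp]
      exact (hP4 V g (hh e u ω (Q p).1) w _ h0 h1).2.1
    have e13 : (R p).card ≤ p.2.card + (cyc g p.1).card - 1 := by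
      have e14 : (R p).card = _ := card_rev (hInv p hp) (hyA p hp) (hM p hp)
      rw [card_image_of_injective _ (hh e u ω (Q p).1).injective] at e14
      omega
    change w ^ (p.2.card + (cyc g p.1).card - 1) * dS w (univ \ (p.2 ∪ cyc g p.1)) (pm g) ≤
      w ^ (R p).card * dS w (univ \ (R p ∪ insert (hh e u ω (Q p).1 p.1) (X p)))
        (pm (gg e u K ω (Q p).1))
    rw [e10]
    exact mul_le_mul_of_nonneg_right (pow_le_pow_of_le_one h0 h1.le e13)
      (hP4 V _ 1 w _ h0 h1).1.1.le
  calc ∑ p ∈ P, t p ≤ ∑ p ∈ P, tm e u K lam w B Gd ω (ψ p) := sum_le_sum hterm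
    _ = ∑ q ∈ P.image ψ, tm e u K lam w B Gd ω q := (sum_image hinj).symm
    _ ≤ _ := by
      refine sum_le_sum_of_subset_of_nonneg ?_ fun q _ _ => tm_nonneg hP4 e u K lam h0 h1 B Gd ω q
      intro q hq
      obtain ⟨p, hp, rfl⟩ := mem_image.1 hq
      rw [mem_product]
      exact ⟨mem_range.2 (hQ p hp).1, mem_univ _⟩

/-- one term of the index sum, not rotated -/
noncomputable def tn (e : ℕ → V × V) (n lam : ℕ) (w : ℝ) (B : V → Finset V)
    (Gd : (ℕ → Bool) → Finset V → Prop) (ω : ℕ → Bool)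
    (q : V × Finset V × V × V × Finset V) : ℝ :=
  open Classical in
  if (q.2.1 ∈ powersetCard (lam + 1) (B q.1) ∧ q.2.2.2.1 ∈ q.2.1) ∧
     (Sh (insert q.2.2.1 q.2.1) ((insert q.2.2.1 q.2.1).erase q.2.2.2.1)
      (gp e ω n) q.2.2.2.2 ∧ Gd ω q.2.2.2.2) then
    w ^ q.2.2.2.2.card * dS w (univ \ (q.2.2.2.2 ∪ insert q.2.2.1 q.2.1))
      (pm (gp e ω n)) else 0

theorem tm_tn (e : ℕ → V × V) (u K lam : ℕ) (w : ℝ)
    (B : V → Finset V) (Gd : (ℕ → Bool) → Finset V → Prop) (ω : ℕ → Bool) (j : ℕ)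
    (q : V × Finset V × V × V × Finset V) :
    tm e u K lam w B Gd ω (j, q) = tn e (K * u) lam w B Gd (rot (K * u) (j * u) ω) q := rfl

theorem EE_zero (n : ℕ) (δ : ℝ) : EE n δ (fun _ => (0 : ℝ)) = 0 := by
  unfold EE
  simp

open Classical in
theorem EE_tn (e : ℕ → V × V) (n lam : ℕ) (δ w : ℝ) (B : V → Finset V)
    (Gd : (ℕ → Bool) → Finset V → Prop) :
    EE n δ (fun ω => ∑ q : V × Finset V × V × V × Finset V, tn e n lam w B Gd ω q) =
    ∑ v : V, ∑ X : Finset V, ∑ y : V, ∑ t : V,
      if X ∈ powersetCard (lam + 1) (B v) ∧ t ∈ X then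
        WW e n δ w Gd (insert y X) ((insert y X).erase t) else 0 := by
  simp only [Fintype.sum_prod_type]
  rw [EE_sum]
  refine sum_congr rfl fun v _ => ?_
  rw [EE_sum]
  refine sum_congr rfl fun X _ => ?_
  rw [EE_sum]
  refine sum_congr rfl fun y _ => ?_
  rw [EE_sum]
  refine sum_congr rfl fun t _ => ?_
  by_cases h : X ∈ powersetCard (lam + 1) (B v) ∧ t ∈ X
  · rw [if_pos h]
    unfold WW
    congr 1
    funext ω
    refine sum_congr rfl fun R _ => ?_
    unfold tn
    by_cases h2 : Sh (insert y X) ((insert y X).erase t) (gp e ω n) R ∧ Gd ω R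
    · rw [if_pos ⟨h, h2⟩, if_pos h2]
    · rw [if_neg (fun h3 => h2 h3.2), if_neg h2]
  · rw [if_neg h, ← EE_zero n δ]
    congr 1
    funext ω
    refine sum_eq_zero fun R _ => ?_
    unfold tn
    rw [if_neg (fun h3 => h h3.1)]

theorem count_bound (lam b : ℕ) (B : V → Finset V) (hb : ∀ v, (B v).card ≤ b) (c : ℝ)
    (hc : 0 ≤ c) (f : V → Finset V → V → V → ℝ)
    (hf : ∀ v X y t, X ∈ powersetCard (lam + 1) (B v) → t ∈ X → f v X y t ≤ c) :
    (open Classical in ∑ v : V, ∑ X : Finset V, ∑ y : V, ∑ t : V,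
      if X ∈ powersetCard (lam + 1) (B v) ∧ t ∈ X then f v X y t else 0) ≤
    (Fintype.card V : ℝ) ^ 2 * (b.choose (lam + 1) : ℝ) * (lam + 1) * c := by
  classical
  have h1 : ∀ v : V, (∑ X : Finset V, ∑ y : V, ∑ t : V,
      if X ∈ powersetCard (lam + 1) (B v) ∧ t ∈ X then f v X y t else 0) ≤
      (Fintype.card V : ℝ) * (b.choose (lam + 1) : ℝ) * (lam + 1) * c := by
    intro v
    calc (∑ X : Finset V, ∑ y : V, ∑ t : V,
          if X ∈ powersetCard (lam + 1) (B v) ∧ t ∈ X then f v X y t else 0)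
        ≤ ∑ X : Finset V, if X ∈ powersetCard (lam + 1) (B v) then
          (Fintype.card V : ℝ) * ((lam + 1) * c) else 0 := by
          refine sum_le_sum fun X _ => ?_
          by_cases hX : X ∈ powersetCard (lam + 1) (B v)
          · rw [if_pos hX]
            calc (∑ y : V, ∑ t : V,
                if X ∈ powersetCard (lam + 1) (B v) ∧ t ∈ X then f v X y t else 0)
                ≤ ∑ _y : V, (((lam + 1 : ℕ) : ℝ) * c) := by
                  refine sum_le_sum fun y _ => ?_
                  calc (∑ t : V, if X ∈ powersetCard (lam + 1) (B v) ∧ t ∈ X then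
                        f v X y t else 0)
                      ≤ ∑ t : V, if t ∈ X then c else 0 := by
                        refine sum_le_sum fun t _ => ?_
                        by_cases ht : t ∈ X
                        · rw [if_pos ⟨hX, ht⟩, if_pos ht]
                          exact hf v X y t hX ht
                        · rw [if_neg (fun h => ht h.2), if_neg ht]
                    _ = ((lam + 1 : ℕ) : ℝ) * c := by
                        rw [← sum_filter, sum_const, nsmul_eq_mul, filter_mem_eq_inter,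
                          univ_inter, (mem_powersetCard.1 hX).2]
              _ = (Fintype.card V : ℝ) * ((lam + 1) * c) := by
                  rw [sum_const, nsmul_eq_mul, card_univ]
                  push_cast
                  ring
          · rw [if_neg hX]
            exact le_of_eq (sum_eq_zero fun y _ => sum_eq_zero fun t _ =>
              if_neg (fun h => hX h.1))
      _ = ((B v).card.choose (lam + 1) : ℝ) * ((Fintype.card V : ℝ) * ((lam + 1) * c)) := by
          rw [← sum_filter, sum_const, nsmul_eq_mul, filter_mem_eq_inter, univ_inter,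
            card_powersetCard]
      _ ≤ (b.choose (lam + 1) : ℝ) * ((Fintype.card V : ℝ) * ((lam + 1) * c)) := by
          refine mul_le_mul_of_nonneg_right ?_ (by positivity)
          exact_mod_cast Nat.choose_le_choose _ (hb v)
      _ = (Fintype.card V : ℝ) * (b.choose (lam + 1) : ℝ) * (lam + 1) * c := by ring
  calc _ ≤ ∑ _v : V, (Fintype.card V : ℝ) * (b.choose (lam + 1) : ℝ) * (lam + 1) * c :=
        sum_le_sum fun v _ => h1 v
    _ = _ := by
        rw [sum_const, nsmul_eq_mul, card_univ]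
        ring

theorem badp_of (hP4 : S_P4) (hF : S_FIRST) (hRot : S_ROT) (hA : S_ARC) (hB3 : S_BAS3)
    (hRUS : S_RUS) : S_BADP := by
  classical
  intro V _ _ e u K lam b δ w κ B Om Gd hδ0 hδ1 h0 h1 hκ hκ1 hu hK he hb hRm hGd hbd hG
  set n := K * u with hn
  have hn0 : 0 < n := Nat.mul_pos hK hu
  set c : ℝ := ((lam + 2) * κ) ^ lam with hc
  have hc0 : 0 ≤ c := by positivity
  set M : ℝ := K * ((Fintype.card V : ℝ) ^ 2 * (b.choose (lam + 1) : ℝ) * (lam + 1) * c) with hM
  have hM0 : 0 ≤ M := by positivity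
  -- the mean of the index sum
  have hmean : ∀ w', 0 ≤ w' → w' ≤ w → EE n δ (fun ω =>
      ∑ q ∈ range K ×ˢ (univ : Finset (V × Finset V × V × V × Finset V)),
        tm e u K lam w' B Gd ω q) ≤ M := by
    intro w' hw0 hw1
    have e1 : ∀ ω, (∑ q ∈ range K ×ˢ (univ : Finset (V × Finset V × V × V × Finset V)),
        tm e u K lam w' B Gd ω q) = ∑ j ∈ range K,
        ∑ q : V × Finset V × V × V × Finset V, tn e n lam w' B Gd (rot n (j * u) ω) q := by
      intro ω
      rw [sum_product]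
      rfl
    simp only [e1]
    rw [EE_sum]
    have e2 : ∀ j ∈ range K, EE n δ (fun ω => ∑ q : V × Finset V × V × V × Finset V,
        tn e n lam w' B Gd (rot n (j * u) ω) q) ≤
        (Fintype.card V : ℝ) ^ 2 * (b.choose (lam + 1) : ℝ) * (lam + 1) * c := by
      intro j _
      have e3 := (hB3 n δ hδ0 hδ1).2.2.2.2.2.1 (j * u)
        (fun ω => ∑ q : V × Finset V × V × V × Finset V, tn e n lam w' B Gd ω q) hn0
      rw [e3, EE_tn]
      refine count_bound lam b B hb c hc0 _ fun v X y t hX ht => ?_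
      have hXc := (mem_powersetCard.1 hX).2
      have htX : t ∈ insert y X := mem_insert_of_mem ht
      have e4 := hA V e n δ w' κ Gd hδ0 hδ1 hw0 (lt_of_le_of_lt hw1 h1) hκ hRm hGd
        (fun ω R hGR U hU x hx hxU y hy => hbd ω R hGR w' hw0 hw1 U hU x hx hxU y hy)
        (insert y X) ((insert y X).erase t) (erase_subset _ _)
      refine e4.trans ?_
      have h5 : ((insert y X).card : ℝ) ≤ lam + 2 := by
        have h6 : (insert y X).card ≤ lam + 2 := by
          have := card_insert_le y X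
          omega
        exact_mod_cast h6
      have h7 : lam ≤ ((insert y X).erase t).card := by
        rw [card_erase_of_mem htX]
        have : X.card ≤ (insert y X).card := card_le_card (subset_insert _ _)
        omega
      calc ((insert y X).card * κ) ^ ((insert y X).erase t).card
          ≤ ((lam + 2) * κ) ^ ((insert y X).erase t).card := by
            refine pow_le_pow_left₀ (by positivity) ?_ _
            exact mul_le_mul_of_nonneg_right h5 hκ
        _ ≤ c := pow_le_pow_of_le_one (by positivity) hκ1 h7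
    calc _ ≤ ∑ _j ∈ range K,
          (Fintype.card V : ℝ) ^ 2 * (b.choose (lam + 1) : ℝ) * (lam + 1) * c := sum_le_sum e2
      _ = M := by
          rw [sum_const, nsmul_eq_mul, card_range]
  -- the derivative
  set bb : (ℕ → Bool) → Finset V → ℝ := fun ω A =>
    if Om ω ∧ viol e u K B lam ω A then (1 : ℝ) else 0 with hbb
  set F : ℝ → ℝ := fun w' => PW e n δ w' (fun ω A => Om ω ∧ viol e u K B lam ω A) with hFd
  have hFe : ∀ w', F w' = EE n δ (fun ω => ∑ A : Finset V, if Inv (gp e ω n) A then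
      w' ^ A.card * dS w' (univ \ A) (pm (gp e ω n)) * bb ω A else 0) := by
    intro w'
    rw [hFd]
    beta_reduce
    unfold PW
    congr 1
    funext ω
    refine sum_congr rfl fun A _ => ?_
    by_cases hI : Inv (gp e ω n) A
    · by_cases hV : Om ω ∧ viol e u K B lam ω A
      · rw [if_pos ⟨hI, hV⟩, if_pos hI, hbb]
        beta_reduce
        rw [if_pos hV, mul_one]
      · rw [if_neg (fun h => hV h.2), if_pos hI, hbb]
        beta_reduce
        rw [if_neg hV, mul_zero]
    · rw [if_neg (fun h => hI h.1), if_neg hI]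
  have hder : ∀ w', 0 ≤ w' → w' ≤ w → ∃ D, HasDerivAt F D w' ∧ D ≤ M := by
    intro w' hw0 hw1
    have hw2 : w' < 1 := lt_of_le_of_lt hw1 h1
    have h2 := fun ω : ℕ → Bool => hRUS V (gp e ω n) (bb ω) w' hw0 hw2
    choose D hD1 hD2 using h2
    refine ⟨EE n δ D, ?_, ?_⟩
    · have h3 : F = fun w' => EE n δ (fun ω => ∑ A : Finset V, if Inv (gp e ω n) A then
          w' ^ A.card * dS w' (univ \ A) (pm (gp e ω n)) * bb ω A else 0) := funext hFe
      rw [h3]
      unfold EE
      exact HasDerivAt.fun_sum fun S _ => (hD1 _).const_mul _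
    · refine le_trans ?_ (hmean w' hw0 hw1)
      refine EE_mono n δ hδ0 hδ1 fun ω => (hD2 ω).trans ?_
      have h4 := core_le hP4 hF hRot e u K lam B Om Gd hw0 hw2 hu hK he hG ω
      exact h4
  -- the value at zero
  have hF0 : F 0 = 0 := by
    rw [hFe]
    refine Eq.trans ?_ (EE_zero n δ)
    congr 1
    funext ω
    refine sum_eq_zero fun A _ => ?_
    split_ifs with hI
    · rcases A.eq_empty_or_nonempty with hA0 | hA0
      · have h5 : bb ω A = 0 := by
          rw [hbb]
          beta_reduce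
          rw [if_neg]
          rintro ⟨-, j, -, v, hv⟩
          rw [hA0] at hv
          simp at hv
        rw [h5, mul_zero]
      · rw [zero_pow (card_pos.2 hA0).ne']
        ring
    · rfl
  have hmvt := Convex.image_sub_le_mul_sub_of_deriv_le (convex_Icc (0 : ℝ) w) (f := F)
    (fun x hx => (hder x hx.1 hx.2).choose_spec.1.continuousAt.continuousWithinAt)
    (fun x hx => by
      have hx' := interior_subset hx
      exact (hder x hx'.1 hx'.2).choose_spec.1.differentiableAt.differentiableWithinAt)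
    (C := M) (fun x hx => by
      have hx' := interior_subset hx
      rw [(hder x hx'.1 hx'.2).choose_spec.1.deriv]
      exact (hder x hx'.1 hx'.2).choose_spec.2)
    0 (Set.left_mem_Icc.2 h0) w (Set.right_mem_Icc.2 h0) h0
  rw [hF0] at hmvt
  have h6 : M * (w - 0) ≤ M := by
    rw [sub_zero]
    exact mul_le_of_le_one_right hM0 h1.le
  have h7 : F w ≤ M := by linarith
  refine h7.trans (le_of_eq ?_)
  rw [hM, hc]
  ring

end first

end Pool.Agent.Q257.LC
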