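import Pool.Agent.Q257.LC.Geo

/-!
# Project LC: Green function, abstract part of `S_KER`
-/

set_option autoImplicit false

namespace Pool.Agent.Q257.LC

open Finset Equiv Matrix Q292.LC

section abs

variable {V : Type} [Fintype V] [DecidableEq V]

theorem mul_dg_apply (M N : Matrix V V ℝ) (U : Finset V) (x y : V) :
    (M * (dg U * N)) x y = ∑ c, (if c ∈ U then M x c else 0) * N c y := by
  rw [Matrix.mul_apply]
  refine sum_congr rfl fun c _ => ?_
  unfold dg
  rw [Matrix.diagonal_mul]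
  split_ifs <;> ring

theorem pow_right (T : Matrix V V ℝ) (U : Finset V) (i : ℕ) (x y : V) :
    (T * (dg U * T) ^ (i + 1)) x y =
      ∑ c, (if c ∈ U then (T * (dg U * T) ^ i) x c else 0) * T c y := by
  rw [pow_succ, ← Matrix.mul_assoc, mul_dg_apply]

theorem pow_split (T : Matrix V V ℝ) (U : Finset V) (i j : ℕ) (x y : V) :
    (T * (dg U * T) ^ (i + j + 1)) x y =
      ∑ c, (if c ∈ U then (T * (dg U * T) ^ i) x c else 0) * (T * (dg U * T) ^ j) c y := by
  have h : T * (dg U * T) ^ (i + j + 1) =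
      (T * (dg U * T) ^ i) * (dg U * (T * (dg U * T) ^ j)) := by
    have e1 : i + j + 1 = i + (1 + j) := by ring
    rw [e1, pow_add, pow_add, pow_one, Matrix.mul_assoc, Matrix.mul_assoc]
  rw [h, mul_dg_apply]

theorem dg_transpose (U : Finset V) : (dg U)ᵀ = dg U := by
  unfold dg
  rw [Matrix.diagonal_transpose]

theorem pow_transpose (T : Matrix V V ℝ) (U : Finset V) (j : ℕ) :
    (T * (dg U * T) ^ j)ᵀ = Tᵀ * (dg U * Tᵀ) ^ j := by
  induction j with
  | zero => simp
  | succ j ih =>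
    have e1 : T * (dg U * T) ^ (j + 1) = (T * (dg U * T) ^ j) * (dg U * T) := by
      rw [pow_succ, ← Matrix.mul_assoc]
    have e2 : Tᵀ * (dg U * Tᵀ) ^ (j + 1) = (Tᵀ * dg U) * (Tᵀ * (dg U * Tᵀ) ^ j) := by
      rw [pow_succ']
      simp only [Matrix.mul_assoc]
    rw [e1, Matrix.transpose_mul, ih, Matrix.transpose_mul, dg_transpose, e2]

/-- the abstract row bound -/
theorem row_bound (T : Matrix V V ℝ) (hT0 : ∀ x y, 0 ≤ T x y) (hrow : ∀ x, ∑ y, T x y ≤ 1)
    (hcol : ∀ y, ∑ x, T x y ≤ 1) (A U : Finset V) (hUA : Disjoint U A) (d : ℕ) (hd : 1 ≤ d)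
    (m0 κ : ℝ) (hκ : 0 < κ) (hm0 : 0 ≤ m0)
    (hLap : ∀ f : V → ℝ, (∀ x, 0 ≤ f x) → (∀ x ∈ A, f x = 0) → ∑ x, f x ≤ 1 →
      ∑ x, (vecMul f T x) ^ 2 ≤
        max m0 (((∑ x, (f x) ^ 2) ^ (-(2 / d : ℝ)) + κ) ^ (-(d / 2 : ℝ))))
    (x : V) (hx : x ∉ A) (i : ℕ) :
    (∀ z, 0 ≤ (T * (dg U * T) ^ i) x z) ∧ ∑ z, (T * (dg U * T) ^ i) x z ≤ 1 ∧
      ∑ z, ((T * (dg U * T) ^ i) x z) ^ 2 ≤
        max m0 ((((i : ℝ) + 1) * κ) ^ (-(d / 2 : ℝ))) := by
  have hd0 : (0 : ℝ) < d := by exact_mod_cast hd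
  induction i with
  | zero =>
    rw [pow_zero, Matrix.mul_one]
    refine ⟨hT0 x, hrow x, ?_⟩
    have h1 := hLap (Pi.single x 1) (fun y => by
        by_cases h : y = x
        · subst h; simp
        · simp [Pi.single_eq_of_ne h])
      (fun y hy => Pi.single_eq_of_ne (by rintro rfl; exact hx hy) _)
      (by simp)
    have h2 : vecMul (Pi.single x 1) T = T x := Matrix.single_one_vecMul x T
    have h3 : ∑ y, ((Pi.single x (1 : ℝ) : V → ℝ) y) ^ 2 = 1 := by
      rw [Finset.sum_eq_single x]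
      · simp
      · intro b _ hb
        simp [Pi.single_eq_of_ne hb]
      · simp
    rw [h2, h3, Real.one_rpow] at h1
    refine h1.trans (max_le_max le_rfl ?_)
    refine Real.rpow_le_rpow_of_nonpos (by positivity) (by push_cast; linarith) ?_
    rw [neg_nonpos]
    positivity
  | succ i ih =>
    obtain ⟨ih1, ih2, ih3⟩ := ih
    set f : V → ℝ := fun c => if c ∈ U then (T * (dg U * T) ^ i) x c else 0 with hf
    have hf0 : ∀ c, 0 ≤ f c := by
      intro c
      rw [hf]
      beta_reduce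
      split_ifs
      · exact ih1 c
      · exact le_rfl
    have hfle : ∀ c, f c ≤ (T * (dg U * T) ^ i) x c := by
      intro c
      rw [hf]
      beta_reduce
      split_ifs
      · exact le_rfl
      · exact ih1 c
    have hfA : ∀ c ∈ A, f c = 0 := by
      intro c hc
      rw [hf]
      beta_reduce
      rw [if_neg (fun h => disjoint_left.1 hUA h hc)]
    have hf1 : ∑ c, f c ≤ 1 := (sum_le_sum fun c _ => hfle c).trans ih2
    have hf2 : ∑ c, f c ^ 2 ≤ ∑ z, ((T * (dg U * T) ^ i) x z) ^ 2 :=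
      sum_le_sum fun c _ => pow_le_pow_left₀ (hf0 c) (hfle c) 2
    have hv : ∀ z, (T * (dg U * T) ^ (i + 1)) x z = vecMul f T z := fun z => pow_right T U i x z
    simp only [hv]
    refine ⟨vecMul_nonneg T f hT0 hf0, ?_, ?_⟩
    · have h1 : ∑ z, vecMul f T z = ∑ c, f c * ∑ z, T c z := by
        have h2 : ∀ z, vecMul f T z = ∑ c, f c * T c z := fun z => rfl
        simp only [h2]
        rw [sum_comm]
        exact sum_congr rfl fun c _ => by rw [mul_sum]
      rw [h1]
      exact (sum_le_sum fun c _ => mul_le_of_le_one_right (hf0 c) (hrow c)).trans hf1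
    · set b := ∑ c, f c ^ 2 with hb
      have hb0 : 0 ≤ b := sum_nonneg fun c _ => sq_nonneg _
      have hcontr : ∑ z, (vecMul f T z) ^ 2 ≤ b := sum_vecMul_sq_le T f hT0 hcol hrow
      have hi0 : (0 : ℝ) ≤ i := Nat.cast_nonneg i
      rcases hb0.eq_or_lt with hb00 | hbpos
      · rw [← hb00] at hcontr
        exact hcontr.trans (hm0.trans (le_max_left _ _))
      · rcases le_or_gt b m0 with hbm | hbm
        · exact hcontr.trans (hbm.trans (le_max_left _ _))
        · have h4 : b ≤ (((i : ℝ) + 1) * κ) ^ (-(d / 2 : ℝ)) := by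
            rcases le_max_iff.1 (hf2.trans ih3) with h5 | h5
            · exact absurd h5 (not_le.2 hbm)
            · exact h5
          have h6 : ((i : ℝ) + 1) * κ ≤ b ^ (-(2 / d : ℝ)) := by
            have h7 := Real.rpow_le_rpow_of_nonpos hbpos h4
              (show (-(2 / d : ℝ)) ≤ 0 by
                rw [neg_nonpos]
                positivity)
            rw [← Real.rpow_mul (by positivity)] at h7
            have h8 : (-(d / 2 : ℝ)) * (-(2 / d : ℝ)) = 1 := by
              field_simp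
            rw [h8, Real.rpow_one] at h7
            exact h7
          refine (hLap f hf0 hfA hf1).trans (max_le_max le_rfl ?_)
          refine Real.rpow_le_rpow_of_nonpos (by positivity) ?_ (by
            rw [neg_nonpos]
            positivity)
          push_cast
          linarith

/-- Cauchy-Schwarz for two halves -/
theorem cs_half (a b : V → ℝ) (X Y : ℝ) (hX : ∑ z, a z ^ 2 ≤ X) (hY : ∑ z, b z ^ 2 ≤ Y)
    (W : ℝ) (hW0 : 0 ≤ W) (hXW : X ≤ W) (hYW : Y ≤ W) : ∑ z, a z * b z ≤ W := by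
  have h1 : (∑ z, a z * b z) ^ 2 ≤ (∑ z, a z ^ 2) * ∑ z, b z ^ 2 :=
    Finset.sum_mul_sq_le_sq_mul_sq _ _ _
  have h2 : (∑ z, a z ^ 2) * ∑ z, b z ^ 2 ≤ W * W :=
    mul_le_mul (hX.trans hXW) (hY.trans hYW) (sum_nonneg fun z _ => sq_nonneg _) hW0
  have h3 : (∑ z, a z * b z) ^ 2 ≤ W ^ 2 := by
    rw [sq W]
    exact h1.trans h2
  by_contra hcon
  push Not at hcon
  exact absurd h3 (not_le.2 (pow_lt_pow_left₀ hcon hW0 two_ne_zero))

end abs

end Pool.Agent.Q257.LC
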