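import Pool.Agent.Q257.LC.LapD
import Pool.Agent.Q257.LC.KerB
import Pool.Agent.Q68.LC.Bas1
import Pool.Agent.Q68.LC.Bas2
import Pool.Agent.Q229.LC.Fre
import Pool.Agent.Q297.LC.Tro
import Pool.Agent.Q151.LC.Smo
import Pool.Agent.Q53.LC.Kil
import Pool.Agent.Q53.LC.Swd
import Pool.Agent.Q229.LC.NA1
import Pool.Agent.Q277.LC.Sub
import Pool.Agent.Q151.LC.Con2
import Pool.Agent.Q187.LC.Tch
import Pool.Agent.Q151.LC.Nea
import Pool.Agent.Q187.LC.Nas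
import Pool.Agent.Q53.LC.Poi
import Pool.Agent.Q229.LC.Seq
import Pool.Agent.Q187.LC.Rev

/-!
# Project LC: `S_LAP` and `S_KER`, unconditional
-/

set_option autoImplicit false

namespace Pool.Agent.Q257.LC

open Q292.LC

theorem fre : S_FRE := Pool.Agent.Q229.LC.Fre.fre Pool.Agent.Q297.LC.tro

theorem smo : S_SMO :=
  Pool.Agent.Q151.LC.smo Pool.Agent.Q53.LC.kil Pool.Agent.Q53.LC.swd Pool.Agent.Q229.LC.NA1.na1

theorem lap : S_LAP :=
  lap_of Pool.Agent.Q68.LC.bas2 fre smo Pool.Agent.Q277.LC.sub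
    (Pool.Agent.Q151.LC.con2 Pool.Agent.Q187.LC.Tch.tch) Pool.Agent.Q151.LC.nea
    (Pool.Agent.Q187.LC.Nas.nas Pool.Agent.Q53.LC.poi) Pool.Agent.Q229.LC.Seq.seq

theorem ker : S_KER :=
  ker_of Pool.Agent.Q68.LC.bas1 Pool.Agent.Q68.LC.bas2 lap Pool.Agent.Q277.LC.ge
    Pool.Agent.Q277.LC.sub Pool.Agent.Q187.LC.Rev.rev

end Pool.Agent.Q257.LC
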