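import Pool.Agent.Q257.LC.Geo

/-!
# Project LC: pieces of `S_LAP`
-/

set_option autoImplicit false

namespace Pool.Agent.Q257.LC

open Finset Equiv Matrix Q292.LC

section pieces

variable {d L : ℕ} [NeZero L]

theorem PP_nonneg (hB2 : S_BAS2) {V : Type} [Fintype V] [DecidableEq V] (e : ℕ → V × V) {δ : ℝ}
    (h0 : 0 ≤ δ) (h1 : δ ≤ 1) (k : ℕ) (x y : V) : 0 ≤ PP e δ k x y :=
  (hB2 V e (fun _ => false) ∅ δ h0 h1).1 k x y

theorem cc_nonneg (hB2 : S_BAS2) {V : Type} [Fintype V] [DecidableEq V] (e : ℕ → V × V)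
    (ω : ℕ → Bool) (A : Finset V) {δ : ℝ} (h0 : 0 ≤ δ) (h1 : δ ≤ 1) (n : ℕ) (x : V) :
    0 ≤ cc e ω A δ n x := by
  unfold cc
  refine mul_nonneg (by norm_num) (sum_nonneg fun k _ => ?_)
  split_ifs
  · exact mul_nonneg (by norm_num) (add_nonneg (PP_nonneg hB2 e h0 h1 _ _ _)
      (PP_nonneg hB2 e h0 h1 _ _ _))
  · exact mul_nonneg h0 (add_nonneg (PP_nonneg hB2 e h0 h1 _ _ _)
      (PP_nonneg hB2 e h0 h1 _ _ _))
  · exact le_rfl

/-- the damaged set -/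
noncomputable def Dmg (σ : ℕ → (Fin d → ZMod L) × Fin d) (ω : ℕ → Bool)
    (A : Finset (Fin d → ZMod L)) (δ ε : ℝ) (n : ℕ) : Finset (Fin d → ZMod L) :=
  open Classical in
  A ∪ univ.filter (fun x => ε < cc (ed ∘ σ) ω A δ n x)

theorem Dmg_compl (σ : ℕ → (Fin d → ZMod L) × Fin d) (ω : ℕ → Bool)
    (A : Finset (Fin d → ZMod L)) (δ ε : ℝ) (n : ℕ) (x : Fin d → ZMod L)
    (hx : x ∉ Dmg σ ω A δ ε n) : x ∉ A ∧ cc (ed ∘ σ) ω A δ n x ≤ ε := by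
  classical
  unfold Dmg at hx
  rw [mem_union, not_or, mem_filter] at hx
  exact ⟨hx.1, not_lt.1 fun h => hx.2 ⟨mem_univ _, h⟩⟩

theorem dm_card (hB2 : S_BAS2) (hCON2 : S_CON2) (hd : 1 ≤ d) (hL : 3 ≤ L)
    (σ : ℕ → (Fin d → ZMod L) × Fin d) (hσ : Per σ) (ω : ℕ → Bool)
    (A : Finset (Fin d → ZMod L)) {δ τ ε : ℝ} {q u ρ lam r κ₀ B D : ℕ} (z : Fin d → ZMod L)
    (hδ : 0 < δ) (h2 : 2 * d * δ ≤ 1) (h3 : δ * q ≤ 2) (hτ : 0 ≤ τ) (hε : 0 < ε)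
    (hE : Ev σ q u lam r ρ κ₀ ω A)
    (htail : ∀ k ≤ u * (q * ms d L), ∀ y, ∑ x ∈ univ.filter (fun x => D < td x y),
      PP (ed ∘ σ) δ k x y ≤ τ)
    (hτA : τ * A.card ≤ 1) (hr : B + D + ρ + 1 ≤ r) :
    ((Dmg σ ω A δ ε (u * (q * ms d L)) ∩ bal z B).card : ℝ) ≤
      lam + (8 * ρ + 16 * d) * (u * (lam + 1)) / ε := by
  classical
  have hδ1 : δ ≤ 1 := by
    have hd' : (1 : ℝ) ≤ d := by exact_mod_cast hd
    nlinarith
  obtain ⟨hE1, hE2, -⟩ := hE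
  set n := u * (q * ms d L) with hn
  set G := univ.filter (fun x => ε < cc (ed ∘ σ) ω A δ n x) ∩ bal z B with hG
  have hsub : Dmg σ ω A δ ε n ∩ bal z B ⊆ (A ∩ bal z B) ∪ G := by
    intro x hx
    unfold Dmg at hx
    rw [mem_inter, mem_union] at hx
    rw [mem_union, mem_inter, hG, mem_inter]
    tauto
  have hc1 : ((A ∩ bal z B).card : ℝ) ≤ lam := by
    have h4 := hE1 0 (Nat.zero_le _) z
    rw [Nat.zero_mul] at h4
    have h5 : A.image (gp (ed ∘ σ) ω 0) = A := by simp [gp]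
    rw [h5] at h4
    have h6 : (A ∩ bal z B).card ≤ (A ∩ bal z r).card :=
      card_le_card (inter_subset_inter_left (bal_mono z (by omega)))
    exact_mod_cast h6.trans h4
  have hc2 : (G.card : ℝ) ≤ (8 * ρ + 16 * d) * (u * (lam + 1)) / ε := by
    rw [le_div_iff₀ hε]
    calc (G.card : ℝ) * ε = ∑ _x ∈ G, ε := by rw [sum_const, nsmul_eq_mul]
      _ ≤ ∑ x ∈ G, cc (ed ∘ σ) ω A δ n x := by
          refine sum_le_sum fun x hx => ?_
          rw [hG, mem_inter, mem_filter] at hx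
          exact hx.1.2.le
      _ ≤ ∑ x ∈ bal z B, cc (ed ∘ σ) ω A δ n x :=
          sum_le_sum_of_subset_of_nonneg inter_subset_right
            fun x _ _ => cc_nonneg hB2 _ ω A hδ.le hδ1 n x
      _ ≤ (8 * ρ + 16 * d) * ∑ j ∈ Finset.range u,
            (((A.image (gp (ed ∘ σ) ω (j * (q * ms d L)))) ∩ bal z (B + D + ρ + 1)).card +
              τ * A.card) :=
          hCON2 d L hd hL σ hσ ω A δ τ q u ρ B D z hδ h2 h3 hτ hE2 htail
      _ ≤ (8 * ρ + 16 * d) * ∑ _j ∈ Finset.range u, ((lam : ℝ) + 1) := by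
          refine mul_le_mul_of_nonneg_left (sum_le_sum fun j hj => ?_) (by positivity)
          refine add_le_add ?_ hτA
          have h6 : ((A.image (gp (ed ∘ σ) ω (j * (q * ms d L)))) ∩
              bal z (B + D + ρ + 1)).card ≤ ((A.image (gp (ed ∘ σ) ω (j * (q * ms d L)))) ∩
              bal z r).card := card_le_card (inter_subset_inter_left (bal_mono z hr))
          exact_mod_cast h6.trans (hE1 j (mem_range.1 hj).le z)
      _ = (8 * ρ + 16 * d) * (u * (lam + 1)) := by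
          rw [sum_const, card_range, nsmul_eq_mul]
  calc ((Dmg σ ω A δ ε n ∩ bal z B).card : ℝ) ≤ (((A ∩ bal z B) ∪ G).card : ℝ) := by
        exact_mod_cast card_le_card hsub
    _ ≤ ((A ∩ bal z B).card : ℝ) + G.card := by exact_mod_cast card_union_le _ _
    _ ≤ _ := add_le_add hc1 hc2

/-- body of `S_SMO` -/
def SMOb (d C : ℕ) : Prop := ∀ (L : ℕ) [NeZero L], 3 ≤ L →
  ∀ σ : ℕ → (Fin d → ZMod L) × Fin d, Per σ → ∀ (ω : ℕ → Bool) (A : Finset (Fin d → ZMod L))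
  (δ : ℝ) (q u R lam ρ κ₀ : ℕ) (z : Fin d → ZMod L), 0 < δ → C * δ ≤ 1 → 1 ≤ δ * q → δ * q ≤ 2 →
  z ∉ A → 1 ≤ u → (A ∩ bal z (R + ρ * u + 4)).card ≤ lam →
  (∀ j < u, ∀ a ∈ A, jumps (ed ∘ σ) ω (j * (q * ms d L)) ((j + 1) * (q * ms d L)) a ≤ ρ) →
  (∀ a ∈ A, ∀ b ∈ A, a ≠ b → ((Finset.range (u * q)).filter fun s =>
    td (gp (ed ∘ σ) ω (s * ms d L) a) (gp (ed ∘ σ) ω (s * ms d L) b) ≤ 3).card ≤ κ₀ * q) →
  4 * lam ^ 2 * κ₀ ≤ u → 4 * lam * ρ ≤ q → C * (lam * ρ + 1) * u ≤ R → 4 * R + 8 ≤ L →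
  ∃ g : (Fin d → ZMod L) → ℝ, (∀ y, 0 ≤ g y ∧ g y ≤ TT (ed ∘ σ) ω A δ (u * (q * ms d L)) z y ∧
    (g y ≠ 0 → td z y ≤ R)) ∧ ∑ y, (g y) ^ 2 ≤ 20 / Real.sqrt u ∧ 1 - ∑ y, g y ≤ Real.exp (-(u : ℝ))

theorem smooth (hB2 : S_BAS2) {C : ℕ} (hS : SMOb d C) (hL : 3 ≤ L)
    (σ : ℕ → (Fin d → ZMod L) × Fin d) (hσ : Per σ) (ω : ℕ → Bool)
    (A : Finset (Fin d → ZMod L)) {δ : ℝ} {q u R lam r ρ κ₀ : ℕ} (z : Fin d → ZMod L)
    (hδ : 0 < δ) (hδ1 : δ ≤ 1) (hC : C * δ ≤ 1) (h1 : 1 ≤ δ * q) (h2 : δ * q ≤ 2) (hz : z ∉ A)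
    (hu : 1 ≤ u) (hE : Ev σ q u lam r ρ κ₀ ω A) (hr : R + ρ * u + 4 ≤ r)
    (h4 : 4 * lam ^ 2 * κ₀ ≤ u) (h5 : 4 * lam * ρ ≤ q) (h6 : C * (lam * ρ + 1) * u ≤ R)
    (h7 : 4 * R + 8 ≤ L) (S : Finset (Fin d → ZMod L)) (N : ℝ)
    (hN : ((S ∩ bal z R).card : ℝ) ≤ N) :
    ∑ x ∈ S, TT (ed ∘ σ) ω A δ (u * (q * ms d L)) z x ≤
      Real.sqrt (N * (20 / Real.sqrt u)) + Real.exp (-(u : ℝ)) := by
  obtain ⟨hE1, hE2, hE3⟩ := hE
  have hcard : (A ∩ bal z (R + ρ * u + 4)).card ≤ lam := by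
    have h8 := hE1 0 (Nat.zero_le _) z
    rw [Nat.zero_mul] at h8
    have h9 : A.image (gp (ed ∘ σ) ω 0) = A := by simp [gp]
    rw [h9] at h8
    exact (card_le_card (inter_subset_inter_left (bal_mono z hr))).trans h8
  obtain ⟨g, hg1, hg2, hg3⟩ := hS L hL σ hσ ω A δ q u R lam ρ κ₀ z hδ hC h1 h2 hz hu hcard hE2
    (fun a ha b hb hab => (card_le_card (filter_subset_filter _
      (range_subset_range.2 (Nat.le_succ _)))).trans (hE3 a ha b hb hab)) h4 h5 h6 h7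
  set T := TT (ed ∘ σ) ω A δ (u * (q * ms d L)) with hT
  have hB := hB2 (Fin d → ZMod L) (ed ∘ σ) ω A δ hδ.le hδ1
  have hrow : ∑ y, T z y = 1 := hB.2.1 _ z
  have e1 : ∑ x ∈ S, T z x = ∑ x ∈ S, g x + ∑ x ∈ S, (T z x - g x) := by
    rw [← sum_add_distrib]
    exact sum_congr rfl fun x _ => by ring
  have e2 : ∑ x ∈ S, (T z x - g x) ≤ Real.exp (-(u : ℝ)) := by
    calc ∑ x ∈ S, (T z x - g x) ≤ ∑ x, (T z x - g x) :=
          sum_le_sum_of_subset_of_nonneg (subset_univ _) fun x _ _ => by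
            have := (hg1 x).2.1
            linarith
      _ = 1 - ∑ y, g y := by rw [sum_sub_distrib, hrow]
      _ ≤ _ := hg3
  have e3 : ∑ x ∈ S, g x = ∑ x ∈ S ∩ bal z R, g x := by
    rw [inter_comm, ← filter_mem_eq_inter, sum_filter]
    rw [← sum_filter, filter_mem_eq_inter, inter_comm]
    symm
    refine sum_subset inter_subset_left fun x hx hx2 => ?_
    by_contra hgx
    exact hx2 (mem_inter.2 ⟨hx, (mem_bal _ _ _).2 ((hg1 x).2.2 hgx)⟩)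
  have e4 : ∑ x ∈ S ∩ bal z R, g x ≤ Real.sqrt (N * (20 / Real.sqrt u)) := by
    apply Real.le_sqrt_of_sq_le
    calc (∑ x ∈ S ∩ bal z R, g x) ^ 2 ≤ ((S ∩ bal z R).card : ℝ) * ∑ x ∈ S ∩ bal z R, g x ^ 2 :=
          sq_sum_le_card_mul_sum_sq
      _ ≤ N * (20 / Real.sqrt u) := by
          have h10 : ∑ x ∈ S ∩ bal z R, g x ^ 2 ≤ 20 / Real.sqrt u :=
            (sum_le_sum_of_subset_of_nonneg (subset_univ _) fun x _ _ => sq_nonneg _).trans hg2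
          exact mul_le_mul hN h10 (sum_nonneg fun x _ => sq_nonneg _)
            (le_trans (Nat.cast_nonneg _) hN)
  rw [e1, e3]
  exact add_le_add e4 e2

/-- body of `S_NAS` -/
def NASb (d : ℕ) (C : ℝ) : Prop := ∀ (L : ℕ) [NeZero L] (r M : ℕ),
  1 ≤ r → 1 ≤ M → M * r ≤ L → ∀ Dm : Finset (Fin d → ZMod L),
  (∀ v, 2 * (Dm ∩ Q292.LC.box v r).card ≤ r ^ d) → ∀ f : (Fin d → ZMod L) → ℝ, (∀ x, 0 ≤ f x) →
  ∑ x ∈ univ \ Dm, (f x) ^ 2 ≤
    C * M ^ 2 / r ^ d * ∑ x, ∑ y, (if x ∉ Dm ∧ y ∉ Dm ∧ td x y ≤ 2 * d * r then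
      (f x - f y) ^ 2 else 0) + C / ((M * r : ℕ) : ℝ) ^ d * (∑ x, f x) ^ 2

theorem window (hNEA : S_NEA) {Cn : ℝ} (hCn : 1 ≤ Cn) (hNAS : NASb d Cn) (hd : 2 ≤ d)
    (hL : 3 ≤ L) (σ : ℕ → (Fin d → ZMod L) × Fin d) (hσ : Per σ) (ω : ℕ → Bool)
    (A Dm : Finset (Fin d → ZMod L)) {δ ε p c6 c7 u0 : ℝ} {n ℓ r0 : ℕ} (hδ0 : 0 ≤ δ) (hδ1 : δ ≤ 1)
    (hp : 0 < p) (hε : 0 ≤ ε) (hpp : ∀ x y, td x y ≤ 2 * ℓ → p ≤ PP (ed ∘ σ) δ n x y)
    (hDm : ∀ x, x ∉ Dm → x ∉ A ∧ cc (ed ∘ σ) ω A δ n x ≤ ε)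
    (h8 : 8 * ε ≤ p * (bal (0 : Fin d → ZMod L) ℓ).card)
    (hbox : ∀ v, 2 * (Dm ∩ Q292.LC.box v r0).card ≤ r0 ^ d) (hr0 : 1 ≤ r0)
    (hrl : 2 * d * r0 ≤ ℓ) (hrL : 2 * r0 ≤ L) (hc6 : 0 < c6) (hc7 : 0 < c7) (hu0 : 0 ≤ u0)
    (hX : c6 ≤ (r0 : ℝ) ^ d * (p ^ 2 * (bal (0 : Fin d → ZMod L) ℓ).card))
    (hr7 : c7 * u0 ≤ (r0 : ℝ) ^ 2)
    (f : (Fin d → ZMod L) → ℝ) (hf0 : ∀ x, 0 ≤ f x) (hf1 : ∑ x, f x ≤ 1)
    (hfD : ∑ x ∈ Dm, f x ^ 2 ≤ (∑ x, f x ^ 2) / 2) :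
    ∑ x, f x ^ 2 ≤ 4 * Cn * 2 ^ d / (L : ℝ) ^ d ∨
    (c6 / (256 * Cn) * min 1 (c7 / (4 * Cn))) * min (∑ x, f x ^ 2)
      (u0 * (∑ x, f x ^ 2) ^ (1 + 2 / d : ℝ)) ≤
      ∑ x, f x ^ 2 - ∑ x, (vecMul f (TT (ed ∘ σ) ω A δ n) x) ^ 2 := by
  set F := ∑ x, f x ^ 2 with hF
  set F1 := ∑ x, (vecMul f (TT (ed ∘ σ) ω A δ n) x) ^ 2 with hF1
  have hF0 : 0 ≤ F := sum_nonneg fun x _ => sq_nonneg _
  have hL0 : (0 : ℝ) < L := by
    have : 0 < L := by omega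
    exact_mod_cast this
  have hd0 : d ≠ 0 := by omega
  have hdr : (2 : ℝ) ≤ d := by exact_mod_cast hd
  rcases hF0.eq_or_lt with hF00 | hFpos
  · left
    rw [← hF00]
    positivity
  have hr0' : (0 : ℝ) < r0 := by exact_mod_cast hr0
  set θ : ℝ := (4 * Cn / F) ^ ((d : ℝ)⁻¹) with hθ
  have hθpos : 0 < θ := Real.rpow_pos_of_pos (by positivity) _
  have hθd : θ ^ d = 4 * Cn / F := Real.rpow_inv_natCast_pow (by positivity) hd0
  set t : ℝ := θ / r0 with ht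
  have htpos : 0 < t := by positivity
  set M : ℕ := ⌈t⌉₊ with hM
  have hM1 : 1 ≤ M := Nat.one_le_iff_ne_zero.2 (Nat.ceil_pos.2 htpos).ne'
  have hMt : t ≤ M := Nat.le_ceil t
  have hMt1 : (M : ℝ) < t + 1 := Nat.ceil_lt_add_one htpos.le
  by_cases hML : M * r0 ≤ L
  · right
    have hbal : (0 : ℝ) < (bal (0 : Fin d → ZMod L) ℓ).card := by
      have h9 : (0 : Fin d → ZMod L) ∈ bal (0 : Fin d → ZMod L) ℓ := by
        rw [mem_bal, td_self]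
        exact Nat.zero_le _
      exact_mod_cast card_pos.2 ⟨_, h9⟩
    have hN := hNAS L r0 M hr0 hM1 hML Dm hbox f hf0
    have hE := (hNEA d L (by omega) hL σ hσ ω A Dm δ ε p n ℓ hδ0 hδ1 hp hε hpp hDm h8 f).1
    set E : ℝ := ∑ x, ∑ y, (if x ∉ Dm ∧ y ∉ Dm ∧ td x y ≤ ℓ then (f x - f y) ^ 2 else 0) with hEd
    set E' : ℝ := ∑ x, ∑ y, (if x ∉ Dm ∧ y ∉ Dm ∧ td x y ≤ 2 * d * r0 then
      (f x - f y) ^ 2 else 0) with hEd'
    have hEE : E' ≤ E := by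
      refine sum_le_sum fun x _ => sum_le_sum fun y _ => ?_
      by_cases h9 : x ∉ Dm ∧ y ∉ Dm ∧ td x y ≤ 2 * d * r0
      · rw [if_pos h9, if_pos ⟨h9.1, h9.2.1, h9.2.2.trans hrl⟩]
      · rw [if_neg h9]
        split_ifs
        · exact sq_nonneg _
        · exact le_rfl
    have hE0 : 0 ≤ E := sum_nonneg fun x _ => sum_nonneg fun y _ => by
      split_ifs
      · exact sq_nonneg _
      · exact le_rfl
    have hsplit : F = ∑ x ∈ Dm, f x ^ 2 + ∑ x ∈ univ \ Dm, f x ^ 2 := by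
      rw [hF, ← sum_sdiff (subset_univ Dm), add_comm]
    have hMr : θ ≤ ((M * r0 : ℕ) : ℝ) := by
      push_cast
      have : t * r0 = θ := by
        rw [ht]
        field_simp
      rw [← this]
      exact mul_le_mul_of_nonneg_right hMt hr0'.le
    have htail : Cn / ((M * r0 : ℕ) : ℝ) ^ d * (∑ x, f x) ^ 2 ≤ F / 4 := by
      have h10 : (∑ x, f x) ^ 2 ≤ 1 := by
        have := sum_nonneg fun x (_ : x ∈ univ) => hf0 x
        nlinarith
      have h11 : Cn / ((M * r0 : ℕ) : ℝ) ^ d ≤ F / 4 := by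
        have h12 : θ ^ d ≤ ((M * r0 : ℕ) : ℝ) ^ d := pow_le_pow_left₀ hθpos.le hMr d
        rw [hθd] at h12
        rw [div_le_div_iff₀ (lt_of_lt_of_le (by positivity) h12) (by norm_num)]
        rw [div_le_iff₀ hFpos] at h12
        linarith
      calc Cn / ((M * r0 : ℕ) : ℝ) ^ d * (∑ x, f x) ^ 2 ≤ Cn / ((M * r0 : ℕ) : ℝ) ^ d * 1 :=
            mul_le_mul_of_nonneg_left h10 (by positivity)
        _ ≤ F / 4 := by rw [mul_one]; exact h11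
    have hmain : F / 4 ≤ Cn * M ^ 2 / (r0 : ℝ) ^ d * E := by
      have h13 : Cn * M ^ 2 / (r0 : ℝ) ^ d * E' ≤ Cn * M ^ 2 / (r0 : ℝ) ^ d * E :=
        mul_le_mul_of_nonneg_left hEE (by positivity)
      linarith
    -- E from the decrease
    have hEdec : p ^ 2 * (bal (0 : Fin d → ZMod L) ℓ).card * E ≤ 16 * (F - F1) := by
      linarith
    have hdec0 : 0 ≤ F - F1 := by
      have h14 : 0 ≤ p ^ 2 * (bal (0 : Fin d → ZMod L) ℓ).card * E := by positivity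
      linarith
    have hcomb : c6 * F ≤ 64 * Cn * M ^ 2 * (F - F1) := by
      have h15 : (r0 : ℝ) ^ d * F ≤ 4 * (Cn * M ^ 2) * E := by
        have h16 : (0 : ℝ) < (r0 : ℝ) ^ d := by positivity
        have h17 : Cn * M ^ 2 / (r0 : ℝ) ^ d * E = (Cn * M ^ 2 * E) / (r0 : ℝ) ^ d := by ring
        rw [h17, le_div_iff₀ h16] at hmain
        linarith
      calc c6 * F ≤ ((r0 : ℝ) ^ d * (p ^ 2 * (bal (0 : Fin d → ZMod L) ℓ).card)) * F :=
            mul_le_mul_of_nonneg_right hX hF0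
        _ = (p ^ 2 * (bal (0 : Fin d → ZMod L) ℓ).card) * ((r0 : ℝ) ^ d * F) := by ring
        _ ≤ (p ^ 2 * (bal (0 : Fin d → ZMod L) ℓ).card) * (4 * (Cn * M ^ 2) * E) :=
            mul_le_mul_of_nonneg_left h15 (by positivity)
        _ = 4 * (Cn * M ^ 2) * (p ^ 2 * (bal (0 : Fin d → ZMod L) ℓ).card * E) := by ring
        _ ≤ 4 * (Cn * M ^ 2) * (16 * (F - F1)) :=
            mul_le_mul_of_nonneg_left hEdec (by positivity)
        _ = 64 * Cn * M ^ 2 * (F - F1) := by ring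
    have hM0 : (0 : ℝ) ≤ M := Nat.cast_nonneg _
    have hmin1 : min 1 (c7 / (4 * Cn)) ≤ 1 := min_le_left _ _
    have hmin0 : 0 ≤ min 1 (c7 / (4 * Cn)) := le_min (by norm_num) (by positivity)
    rcases le_or_gt t 1 with ht1 | ht1
    · have hM4 : (M : ℝ) ^ 2 ≤ 4 := by nlinarith
      have h18 : c6 * F ≤ 256 * Cn * (F - F1) := by
        have h19 : 64 * Cn * (M : ℝ) ^ 2 * (F - F1) ≤ 64 * Cn * 4 * (F - F1) :=
          mul_le_mul_of_nonneg_right (mul_le_mul_of_nonneg_left hM4 (by positivity)) hdec0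
        linarith
      have h20 : c6 / (256 * Cn) * F ≤ F - F1 := by
        rw [div_mul_eq_mul_div, div_le_iff₀ (by positivity)]
        linarith
      calc (c6 / (256 * Cn) * min 1 (c7 / (4 * Cn))) * min F (u0 * F ^ (1 + 2 / d : ℝ))
          ≤ (c6 / (256 * Cn) * min 1 (c7 / (4 * Cn))) * F :=
            mul_le_mul_of_nonneg_left (min_le_left _ _) (by positivity)
        _ ≤ (c6 / (256 * Cn) * 1) * F :=
            mul_le_mul_of_nonneg_right (mul_le_mul_of_nonneg_left hmin1 (by positivity)) hF0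
        _ ≤ F - F1 := by rw [mul_one]; exact h20
    · have hM4 : (M : ℝ) ^ 2 ≤ 4 * t ^ 2 := by nlinarith
      have h18 : c6 * F ≤ 256 * Cn * t ^ 2 * (F - F1) := by
        have h19 : 64 * Cn * (M : ℝ) ^ 2 * (F - F1) ≤ 64 * Cn * (4 * t ^ 2) * (F - F1) :=
          mul_le_mul_of_nonneg_right (mul_le_mul_of_nonneg_left hM4 (by positivity)) hdec0
        linarith
      -- `θ ^ 2 F ^ (2/d) ≤ 4 Cn`
      have h21 : θ ^ 2 * F ^ (2 / d : ℝ) ≤ 4 * Cn := by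
        have h22 : θ ^ 2 = (4 * Cn) ^ (2 / d : ℝ) / F ^ (2 / d : ℝ) := by
          rw [hθ, ← Real.rpow_natCast, ← Real.rpow_mul (by positivity),
            Real.div_rpow (by positivity) hF0]
          congr 2 <;> (push_cast; ring)
        have h23 : (0 : ℝ) < F ^ (2 / d : ℝ) := Real.rpow_pos_of_pos hFpos _
        rw [h22, div_mul_cancel₀ _ h23.ne']
        calc (4 * Cn) ^ (2 / d : ℝ) ≤ (4 * Cn) ^ (1 : ℝ) :=
              Real.rpow_le_rpow_of_exponent_le (by linarith) (by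
                rw [div_le_one (by linarith)]
                exact hdr)
          _ = 4 * Cn := Real.rpow_one _
      have h24 : u0 * F ^ (1 + 2 / d : ℝ) * (c7 / (4 * Cn)) * t ^ 2 ≤ F := by
        have h25 : F ^ (1 + 2 / d : ℝ) = F * F ^ (2 / d : ℝ) := by
          rw [Real.rpow_add hFpos, Real.rpow_one]
        have h26 : t ^ 2 = θ ^ 2 / (r0 : ℝ) ^ 2 := by rw [ht, div_pow]
        rw [h25, h26]
        have h27 : u0 * (F * F ^ (2 / d : ℝ)) * (c7 / (4 * Cn)) * (θ ^ 2 / (r0 : ℝ) ^ 2) =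
            F * ((c7 * u0) / (r0 : ℝ) ^ 2) * ((θ ^ 2 * F ^ (2 / d : ℝ)) / (4 * Cn)) := by
          field_simp
        rw [h27]
        have h28 : (c7 * u0) / (r0 : ℝ) ^ 2 ≤ 1 := by
          rw [div_le_one (by positivity)]
          exact hr7
        have h29 : (θ ^ 2 * F ^ (2 / d : ℝ)) / (4 * Cn) ≤ 1 := by
          rw [div_le_one (by positivity)]
          exact h21
        have h30 : 0 ≤ (θ ^ 2 * F ^ (2 / d : ℝ)) / (4 * Cn) := by
          have := Real.rpow_nonneg hF0 (2 / d : ℝ)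
          positivity
        have h31 : 0 ≤ (c7 * u0) / (r0 : ℝ) ^ 2 := by positivity
        calc F * ((c7 * u0) / (r0 : ℝ) ^ 2) * ((θ ^ 2 * F ^ (2 / d : ℝ)) / (4 * Cn))
            ≤ F * 1 * 1 := by
              refine mul_le_mul ?_ h29 h30 (by linarith)
              exact mul_le_mul_of_nonneg_left h28 hF0
          _ = F := by ring
      have h32 : 0 ≤ u0 * F ^ (1 + 2 / d : ℝ) := mul_nonneg hu0 (Real.rpow_nonneg hF0 _)
      -- conclude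
      have h33 : (c6 / (256 * Cn) * min 1 (c7 / (4 * Cn))) * min F (u0 * F ^ (1 + 2 / d : ℝ)) ≤
          c6 / (256 * Cn) * (u0 * F ^ (1 + 2 / d : ℝ) * (c7 / (4 * Cn))) := by
        calc (c6 / (256 * Cn) * min 1 (c7 / (4 * Cn))) * min F (u0 * F ^ (1 + 2 / d : ℝ))
            ≤ (c6 / (256 * Cn) * (c7 / (4 * Cn))) * (u0 * F ^ (1 + 2 / d : ℝ)) :=
              mul_le_mul (mul_le_mul_of_nonneg_left (min_le_right _ _) (by positivity))
                (min_le_right _ _) (le_min hF0 h32) (by positivity)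
          _ = _ := by ring
      refine h33.trans ?_
      have ht2 : (0 : ℝ) < t ^ 2 := by positivity
      have h34 : c6 * (u0 * F ^ (1 + 2 / d : ℝ) * (c7 / (4 * Cn))) ≤ 256 * Cn * (F - F1) := by
        have h35 : c6 * (u0 * F ^ (1 + 2 / d : ℝ) * (c7 / (4 * Cn))) * t ^ 2 ≤
            256 * Cn * (F - F1) * t ^ 2 := by
          have h36 := mul_le_mul_of_nonneg_left h24 hc6.le
          linarith
        exact le_of_mul_le_mul_right h35 ht2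
      rw [div_mul_eq_mul_div, div_le_iff₀ (by positivity)]
      linarith
  · left
    push Not at hML
    have h9 : (L : ℝ) < M * r0 := by exact_mod_cast hML
    have h10 : (L : ℝ) < θ + r0 := by
      calc (L : ℝ) < M * r0 := h9
        _ ≤ (t + 1) * r0 := mul_le_mul_of_nonneg_right hMt1.le hr0'.le
        _ = θ + r0 := by
            rw [ht]
            field_simp
    have h11 : (2 : ℝ) * r0 ≤ L := by exact_mod_cast hrL
    have h12 : (L : ℝ) / 2 ≤ θ := by linarith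
    have h13 : ((L : ℝ) / 2) ^ d ≤ 4 * Cn / F := by
      rw [← hθd]
      exact pow_le_pow_left₀ (by positivity) h12 d
    rw [div_pow, div_le_div_iff₀ (by positivity) hFpos] at h13
    rw [le_div_iff₀ (by positivity)]
    linarith

end pieces

end Pool.Agent.Q257.LC
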