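import Pool.Agent.Q257.LC.LapB

/-!
# Project LC: decay in a sparse environment, `S_LAP`, main part
-/

set_option autoImplicit false

namespace Pool.Agent.Q257.LC

open Finset Equiv Matrix Q292.LC

section core

variable {d L : ℕ} [NeZero L]

/-- particles after `j` units -/
def Aj (σ : ℕ → (Fin d → ZMod L) × Fin d) (q : ℕ) (ω : ℕ → Bool)
    (A : Finset (Fin d → ZMod L)) (j : ℕ) : Finset (Fin d → ZMod L) :=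
  A.image (gp (ed ∘ σ) ω (j * (q * ms d L)))

/-- the distribution after `j` units -/
noncomputable def fj (σ : ℕ → (Fin d → ZMod L) × Fin d) (q : ℕ) (ω : ℕ → Bool)
    (A : Finset (Fin d → ZMod L)) (δ : ℝ) (f : (Fin d → ZMod L) → ℝ) (j : ℕ) :
    (Fin d → ZMod L) → ℝ :=
  vecMul f (TT (ed ∘ σ) ω A δ (j * (q * ms d L)))

theorem fj_nonneg (hB2 : S_BAS2) (σ : ℕ → (Fin d → ZMod L) × Fin d) (q : ℕ) (ω : ℕ → Bool)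
    (A : Finset (Fin d → ZMod L)) {δ : ℝ} (h0 : 0 ≤ δ) (h1 : δ ≤ 1)
    {f : (Fin d → ZMod L) → ℝ} (hf : ∀ x, 0 ≤ f x) (j : ℕ) (x : Fin d → ZMod L) :
    0 ≤ fj σ q ω A δ f j x :=
  vecMul_nonneg _ _ ((hB2 _ (ed ∘ σ) ω A δ h0 h1).1 _) hf x

theorem fj_sum (hB2 : S_BAS2) (σ : ℕ → (Fin d → ZMod L) × Fin d) (q : ℕ) (ω : ℕ → Bool)
    (A : Finset (Fin d → ZMod L)) {δ : ℝ} (h0 : 0 ≤ δ) (h1 : δ ≤ 1)
    (f : (Fin d → ZMod L) → ℝ) (j : ℕ) :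
    ∑ x, fj σ q ω A δ f j x = ∑ x, f x :=
  sum_vecMul _ _ ((hB2 _ (ed ∘ σ) ω A δ h0 h1).2.1 _)

theorem fj_zero (hB2 : S_BAS2) (σ : ℕ → (Fin d → ZMod L) × Fin d) (q : ℕ) (ω : ℕ → Bool)
    (A : Finset (Fin d → ZMod L)) {δ : ℝ} (h0 : 0 ≤ δ) (h1 : δ ≤ 1)
    {f : (Fin d → ZMod L) → ℝ} (hf : ∀ x ∈ A, f x = 0) (j : ℕ) (x : Fin d → ZMod L)
    (hx : x ∈ Aj σ q ω A j) : fj σ q ω A δ f j x = 0 := by
  refine sum_eq_zero fun y _ => ?_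
  by_cases hy : y ∈ A
  · rw [hf y hy, zero_mul]
  · beta_reduce
    rw [(hB2 _ (ed ∘ σ) ω A δ h0 h1).2.2.2.2.1 _ y hy x hx, mul_zero]

theorem fj_add (hB2 : S_BAS2) {σ : ℕ → (Fin d → ZMod L) × Fin d} (hσ : Per σ) (q : ℕ)
    (ω : ℕ → Bool) (A : Finset (Fin d → ZMod L)) {δ : ℝ} (h0 : 0 ≤ δ) (h1 : δ ≤ 1)
    (f : (Fin d → ZMod L) → ℝ) (j u : ℕ) :
    fj σ q ω A δ f (j + u) = vecMul (fj σ q ω A δ f j)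
      (TT (ed ∘ σ) (sh (j * (q * ms d L)) ω) (Aj σ q ω A j) δ (u * (q * ms d L))) := by
  unfold fj
  rw [TT_units hB2 hσ ω A h0 h1 q j u, Matrix.vecMul_vecMul]
  rfl

theorem fj_mono (hB2 : S_BAS2) {σ : ℕ → (Fin d → ZMod L) × Fin d} (hσ : Per σ) (q : ℕ)
    (ω : ℕ → Bool) (A : Finset (Fin d → ZMod L)) {δ : ℝ} (h0 : 0 ≤ δ) (h1 : δ ≤ 1)
    (f : (Fin d → ZMod L) → ℝ) (j : ℕ) :
    ∑ x, fj σ q ω A δ f (j + 1) x ^ 2 ≤ ∑ x, fj σ q ω A δ f j x ^ 2 := by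
  rw [fj_add hB2 hσ q ω A h0 h1 f j 1]
  have h := hB2 _ (ed ∘ σ) (sh (j * (q * ms d L)) ω) (Aj σ q ω A j) δ h0 h1
  exact sum_vecMul_sq_le _ _ (h.1 _) (fun y => (h.2.2.1 _ y).le) (fun x => (h.2.1 _ x).le)

/-- the damaged set after `j` units -/
noncomputable def Dj (σ : ℕ → (Fin d → ZMod L) × Fin d) (q u0 : ℕ) (ω : ℕ → Bool)
    (A : Finset (Fin d → ZMod L)) (δ ε : ℝ) (j : ℕ) : Finset (Fin d → ZMod L) :=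
  Dmg σ (sh (j * (q * ms d L)) ω) (Aj σ q ω A j) δ ε (u0 * (q * ms d L))

theorem card_V : (Fintype.card (Fin d → ZMod L)) = L ^ d := by
  rw [Fintype.card_fun, Fintype.card_fin, ZMod.card]

theorem Dj_card (hB2 : S_BAS2) (hCON2 : S_CON2) (hSUB : S_SUB) (hd : 1 ≤ d) (hL : 3 ≤ L)
    {σ : ℕ → (Fin d → ZMod L) × Fin d} (hσ : Per σ) {ω : ℕ → Bool}
    {A : Finset (Fin d → ZMod L)} {δ τ ε N : ℝ} {q K u0 ρ lam r κ₀ D : ℕ}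
    (hδ : 0 < δ) (h2 : 2 * d * δ ≤ 1) (h3 : δ * q ≤ 2) (hτ : 0 ≤ τ) (hε : 0 < ε)
    (hE : Ev σ q K lam r ρ κ₀ ω A)
    (htail : ∀ k ≤ u0 * (q * ms d L), ∀ y, ∑ x ∈ univ.filter (fun x => D < td x y),
      PP (ed ∘ σ) δ k x y ≤ τ)
    (hτL : τ * (L : ℝ) ^ d ≤ 1)
    (hN : lam + (8 * ρ + 16 * d) * (u0 * (lam + 1)) / ε ≤ N)
    (j : ℕ) (hj : j + u0 ≤ K) (B : ℕ) (hr : B + D + ρ + 1 ≤ r) (z : Fin d → ZMod L) :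
    ((Dj σ q u0 ω A δ ε j ∩ bal z B).card : ℝ) ≤ N := by
  have hE2 := (hSUB d L hL σ hσ q K lam r ρ κ₀ ω A hE j u0 hj).2
  refine le_trans ?_ hN
  refine dm_card hB2 hCON2 hd hL σ hσ _ _ z hδ h2 h3 hτ hε hE2 htail ?_ hr
  refine le_trans (mul_le_mul_of_nonneg_left ?_ hτ) hτL
  have h4 : (A.image (gp (ed ∘ σ) ω (j * (q * ms d L)))).card ≤ L ^ d := by
    rw [← card_V (d := d) (L := L)]
    exact card_le_univ _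
  exact_mod_cast h4

theorem lap_S (hB2 : S_BAS2) (hSUB : S_SUB) {Cs : ℕ} (hSMO : SMOb d Cs) (hL : 3 ≤ L)
    {σ : ℕ → (Fin d → ZMod L) × Fin d} (hσ : Per σ) {ω : ℕ → Bool}
    {A : Finset (Fin d → ZMod L)} {δ ε N : ℝ} {q K u0 u2 ρ lam r κ₀ R : ℕ}
    (hδ : 0 < δ) (hδ1 : δ ≤ 1) (hC : Cs * δ ≤ 1) (h1 : 1 ≤ δ * q) (h3 : δ * q ≤ 2)
    (hE : Ev σ q K lam r ρ κ₀ ω A) (hu2 : 1 ≤ u2) (hr : R + ρ * u2 + 4 ≤ r)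
    (h4 : 4 * lam ^ 2 * κ₀ ≤ u2) (h5 : 4 * lam * ρ ≤ q) (h6 : Cs * (lam * ρ + 1) * u2 ≤ R)
    (h7 : 4 * R + 8 ≤ L)
    (hN : ∀ j, j + u0 ≤ K → ∀ z, ((Dj σ q u0 ω A δ ε j ∩ bal z R).card : ℝ) ≤ N)
    (hsm : Real.sqrt (N * (20 / Real.sqrt u2)) + Real.exp (-(u2 : ℝ)) ≤ 1 / 8)
    {f : (Fin d → ZMod L) → ℝ} (hf : ∀ x ∈ A, f x = 0) (j : ℕ)
    (hj : u2 ≤ j) (hjK : j + u0 ≤ K) :
    ∑ x ∈ Dj σ q u0 ω A δ ε j, fj σ q ω A δ f j x ^ 2 ≤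
      (∑ x, fj σ q ω A δ f (j - u2) x ^ 2) / 8 := by
  obtain ⟨i, rfl⟩ : ∃ i, j = i + u2 := ⟨j - u2, by omega⟩
  rw [Nat.add_sub_cancel]
  have hE1 := (hSUB d L hL σ hσ q K lam r ρ κ₀ ω A hE i u2 (by omega)).2
  have hB := hB2 _ (ed ∘ σ) (sh (i * (q * ms d L)) ω) (Aj σ q ω A i) δ hδ.le hδ1
  set T := TT (ed ∘ σ) (sh (i * (q * ms d L)) ω) (Aj σ q ω A i) δ (u2 * (q * ms d L)) with hT
  set S := Dj σ q u0 ω A δ ε (i + u2) with hS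
  rw [fj_add hB2 hσ q ω A hδ.le hδ1 f i u2]
  calc ∑ x ∈ S, vecMul (fj σ q ω A δ f i) T x ^ 2
      ≤ ∑ x ∈ S, ∑ z, fj σ q ω A δ f i z ^ 2 * T z x :=
        sum_le_sum fun x _ => vecMul_sq_le T _ (hB.1 _) (fun y => (hB.2.2.1 _ y).le) x
    _ = ∑ z, fj σ q ω A δ f i z ^ 2 * ∑ x ∈ S, T z x := by
        rw [sum_comm]
        exact sum_congr rfl fun z _ => by rw [mul_sum]
    _ ≤ ∑ z, fj σ q ω A δ f i z ^ 2 * (1 / 8) := by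
        refine sum_le_sum fun z _ => ?_
        by_cases hz : z ∈ Aj σ q ω A i
        · rw [fj_zero hB2 σ q ω A hδ.le hδ1 hf i z hz]
          simp
        · refine mul_le_mul_of_nonneg_left ?_ (sq_nonneg _)
          refine le_trans ?_ hsm
          exact smooth hB2 hSMO hL σ hσ _ _ z hδ hδ1 hC h1 h3 hz hu2 hE1 hr h4 h5 h6 h7 S N
            (hN _ hjK z)
    _ = (∑ x, fj σ q ω A δ f i x ^ 2) / 8 := by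
        rw [← sum_mul]
        ring

theorem lap_W (hB2 : S_BAS2) (hNEA : S_NEA) {Cn : ℝ} (hCn : 1 ≤ Cn)
    (hNAS : NASb d Cn) (hd : 2 ≤ d) (hL : 3 ≤ L)
    {σ : ℕ → (Fin d → ZMod L) × Fin d} (hσ : Per σ) {ω : ℕ → Bool}
    {A : Finset (Fin d → ZMod L)} {δ ε p c6 c7 N : ℝ} {q K u0 ℓ r0 : ℕ}
    (hδ : 0 < δ) (hδ1 : δ ≤ 1) (hp : 0 < p) (hε : 0 ≤ ε)
    (hpp : ∀ x y, td x y ≤ 2 * ℓ → p ≤ PP (ed ∘ σ) δ (u0 * (q * ms d L)) x y)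
    (h8 : 8 * ε ≤ p * (bal (0 : Fin d → ZMod L) ℓ).card)
    (hN : ∀ j, j + u0 ≤ K → ∀ z, ((Dj σ q u0 ω A δ ε j ∩ bal z (d * r0)).card : ℝ) ≤ N)
    (hNr : 2 * N ≤ (r0 : ℝ) ^ d) (hr0 : 1 ≤ r0)
    (hrl : 2 * d * r0 ≤ ℓ) (hrL : 2 * r0 ≤ L) (hc6 : 0 < c6) (hc7 : 0 < c7)
    (hX : c6 ≤ (r0 : ℝ) ^ d * (p ^ 2 * (bal (0 : Fin d → ZMod L) ℓ).card))
    (hr7 : c7 * u0 ≤ (r0 : ℝ) ^ 2)
    {f : (Fin d → ZMod L) → ℝ} (hf0 : ∀ x, 0 ≤ f x) (hf1 : ∑ x, f x ≤ 1)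
    (j : ℕ) (hjK : j + u0 ≤ K)
    (hG : ∑ x ∈ Dj σ q u0 ω A δ ε j, fj σ q ω A δ f j x ^ 2 ≤
      (∑ x, fj σ q ω A δ f j x ^ 2) / 2) :
    ∑ x, fj σ q ω A δ f j x ^ 2 ≤ 4 * Cn * 2 ^ d / (L : ℝ) ^ d ∨
    (c6 / (256 * Cn) * min 1 (c7 / (4 * Cn))) * min (∑ x, fj σ q ω A δ f j x ^ 2)
      (u0 * (∑ x, fj σ q ω A δ f j x ^ 2) ^ (1 + 2 / d : ℝ)) ≤
      ∑ x, fj σ q ω A δ f j x ^ 2 - ∑ x, fj σ q ω A δ f (j + u0) x ^ 2 := by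
  rw [fj_add hB2 hσ q ω A hδ.le hδ1 f j u0]
  refine window hNEA hCn hNAS hd hL σ hσ (sh (j * (q * ms d L)) ω) (Aj σ q ω A j)
    (Dj σ q u0 ω A δ ε j) hδ.le hδ1 hp hε hpp
    (fun x hx => Dmg_compl σ _ _ δ ε _ x hx) h8 ?_ hr0 hrl hrL hc6 hc7 (Nat.cast_nonneg _) hX hr7
    _ (fj_nonneg hB2 σ q ω A hδ.le hδ1 hf0 j) ?_ hG
  · intro v
    have h9 := hN j hjK v
    have h10 : ((Dj σ q u0 ω A δ ε j ∩ Q292.LC.box v r0).card : ℝ) ≤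
        ((Dj σ q u0 ω A δ ε j ∩ bal v (d * r0)).card : ℝ) := by
      exact_mod_cast card_le_card (inter_subset_inter_left (box_sub v r0))
    have h11 : 2 * ((Dj σ q u0 ω A δ ε j ∩ Q292.LC.box v r0).card : ℝ) ≤ (r0 : ℝ) ^ d := by
      linarith
    exact_mod_cast h11
  · rw [fj_sum hB2 σ q ω A hδ.le hδ1 f j]
    exact hf1

end core

end Pool.Agent.Q257.LC
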