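import Pool.Agent.Q257.LC.LapC

/-!
# Project LC: `S_LAP`
-/

set_option autoImplicit false

namespace Pool.Agent.Q257.LC

open Finset Equiv Matrix Q292.LC

theorem rpow_u0 (z : ℝ) (hz : 0 < z) (d : ℕ) :
    ((z ^ 3) ^ 2 : ℝ) ^ (-(d / 2 : ℝ)) = 1 / z ^ (3 * d) := by
  rw [Real.rpow_neg (by positivity), one_div]
  congr 1
  have h1 : ((z ^ 3) ^ 2 : ℝ) = (z ^ 3) ^ (2 : ℝ) := by
    rw [← Real.rpow_natCast]
    norm_num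
  rw [h1, ← Real.rpow_mul (by positivity)]
  have h2 : (2 : ℝ) * (d / 2) = d := by ring
  rw [h2, Real.rpow_natCast, ← pow_mul]

theorem num_pow (z : ℝ) (hz : 0 < z) (a1 a2 Cf : ℝ) (h1 : 0 < a1) (h2 : 0 < a2) (h3 : 0 < Cf)
    (d : ℕ) : (z ^ 3 / a2) ^ d * ((1 / (Cf * z ^ (3 * d))) ^ 2 * (z ^ 3 / a1) ^ d) =
      1 / (Cf ^ 2 * (a2 ^ d * a1 ^ d)) := by
  rw [div_pow (z ^ 3) a2, div_pow (z ^ 3) a1, ← pow_mul]
  have h4 : z ^ (3 * d) ≠ 0 := by positivity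
  generalize z ^ (3 * d) = w at h4
  field_simp

theorem num_pow1 (z : ℝ) (hz : 0 < z) (a1 Cf : ℝ) (h1 : 0 < a1) (h3 : 0 < Cf)
    (d : ℕ) : (1 / (Cf * z ^ (3 * d))) * (z ^ 3 / a1) ^ d = 1 / (Cf * a1 ^ d) := by
  rw [div_pow, ← pow_mul]
  have h4 : z ^ (3 * d) ≠ 0 := by positivity
  generalize z ^ (3 * d) = w at h4
  field_simp

theorem num_del (δ q Cs d : ℝ) (h1 : 1 ≤ δ * q) (h2 : δ * q ≤ 2) (hq3 : 2 * Cs ≤ q)
    (hq4 : 4 * d ≤ q) (hq5 : 2 ≤ q) : 0 < δ ∧ δ ≤ 1 ∧ Cs * δ ≤ 1 ∧ 2 * d * δ ≤ 1 := by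
  have hδ : 0 < δ := by
    by_contra h
    push Not at h
    nlinarith
  refine ⟨hδ, by nlinarith, by nlinarith, by nlinarith⟩

theorem num_tau (Cf z Ld : ℝ) (hCf1 : 1 ≤ Cf) (b8 : 2 * Cf ≤ z)
    (hLd0 : 0 ≤ Ld) (hLd : Ld ≤ Real.exp z) :
    Cf * Real.exp (-(z ^ 2 / Cf)) * Ld ≤ 1 := by
  have hCf0 : 0 < Cf := by linarith
  have g2 : Cf ≤ Real.exp Cf := by
    have := Real.add_one_le_exp Cf
    linarith
  have g3 : 2 * z ≤ z ^ 2 / Cf := by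
    rw [le_div_iff₀ hCf0]
    nlinarith
  calc Cf * Real.exp (-(z ^ 2 / Cf)) * Ld
      ≤ Real.exp Cf * Real.exp (-(z ^ 2 / Cf)) * Real.exp z := by
        refine mul_le_mul (mul_le_mul_of_nonneg_right g2 (Real.exp_pos _).le) hLd
          hLd0 (by positivity)
    _ = Real.exp (Cf - z ^ 2 / Cf + z) := by
        rw [← Real.exp_add, ← Real.exp_add]
        congr 1
    _ ≤ Real.exp 0 := Real.exp_le_exp.2 (by linarith)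
    _ = 1 := Real.exp_zero

theorem num_N (z lam ρ d ε c1 C2 : ℝ) (hz1 : 1 ≤ z) (hlam0 : 0 ≤ lam) (hd : 0 ≤ d)
    (hlamz : lam ≤ z) (hρz : ρ ≤ z) (hc1 : 0 < c1)
    (hεc : c1 / 8 ≤ ε) (hC2 : C2 = 1 + (8 + 16 * d) * 16 / c1) :
    lam + (8 * ρ + 16 * d) * ((z ^ 3) ^ 2 * (lam + 1)) / ε ≤ C2 * z ^ 8 := by
  have g1 : (8 * ρ + 16 * d) ≤ (8 + 16 * d) * z := by nlinarith
  have g2 : (lam + 1) ≤ 2 * z := by linarith
  have g3 : (8 * ρ + 16 * d) * ((z ^ 3) ^ 2 * (lam + 1)) ≤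
      ((8 + 16 * d) * z) * ((z ^ 3) ^ 2 * (2 * z)) := by
    refine mul_le_mul g1 ?_ (by positivity) (by positivity)
    exact mul_le_mul_of_nonneg_left g2 (by positivity)
  have g4 : (8 * ρ + 16 * d) * ((z ^ 3) ^ 2 * (lam + 1)) / ε ≤
      ((8 + 16 * d) * z) * ((z ^ 3) ^ 2 * (2 * z)) / (c1 / 8) :=
    div_le_div₀ (by positivity) g3 (by positivity) hεc
  have g5 : ((8 + 16 * d) * z) * ((z ^ 3) ^ 2 * (2 * z)) / (c1 / 8) =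
      ((8 + 16 * d) * 16 / c1) * z ^ 8 := by
    field_simp
    ring
  have g6 : z ≤ z ^ 8 := le_self_pow₀ hz1 (by norm_num)
  rw [g5] at g4
  calc lam + (8 * ρ + 16 * d) * ((z ^ 3) ^ 2 * (lam + 1)) / ε ≤
        z ^ 8 + ((8 + 16 * d) * 16 / c1) * z ^ 8 := add_le_add (hlamz.trans g6) g4
    _ = C2 * z ^ 8 := by
        rw [hC2]
        ring

theorem num_Nr (z C2 a2 : ℝ) (hz1 : 1 ≤ z) (ha2 : 1 ≤ a2) (b2 : 2 * C2 * a2 ^ 3 ≤ z) (b4 : a2 ≤ z)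
    (d : ℕ) (hd : 3 ≤ d) : 2 * (C2 * z ^ 8) ≤ (z ^ 3 / a2) ^ d := by
  have g1 : 1 ≤ z ^ 3 / a2 := by
    rw [le_div_iff₀ (by linarith), one_mul]
    exact b4.trans (le_self_pow₀ hz1 (by norm_num))
  calc 2 * (C2 * z ^ 8) = (2 * C2 * a2 ^ 3) * (z ^ 8 / a2 ^ 3) := by
        field_simp
    _ ≤ z * (z ^ 8 / a2 ^ 3) := mul_le_mul_of_nonneg_right b2 (by positivity)
    _ = (z ^ 3 / a2) ^ 3 := by
        rw [div_pow]
        ring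
    _ ≤ (z ^ 3 / a2) ^ d := pow_le_pow_right₀ g1 hd

theorem num_sm (z C2 x : ℝ) (hz0 : 0 < z) (b3 : 5120 * C2 ≤ z) (hx : 15 ≤ x) :
    Real.sqrt (C2 * z ^ 8 * (20 / z ^ 9)) + Real.exp (-x) ≤ 1 / 8 := by
  have g1 : C2 * z ^ 8 * (20 / z ^ 9) ≤ (1 / 16) ^ 2 := by
    have g2 : C2 * z ^ 8 * (20 / z ^ 9) = 20 * C2 / z := by
      field_simp
    rw [g2, div_le_iff₀ hz0]
    linarith
  have g3 : Real.sqrt (C2 * z ^ 8 * (20 / z ^ 9)) ≤ 1 / 16 :=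
    Real.sqrt_le_iff.2 ⟨by norm_num, g1⟩
  have g5 : Real.exp (-x) ≤ 1 / 16 := by
    rw [Real.exp_neg, ← one_div]
    have g6 := Real.add_one_le_exp x
    exact one_div_le_one_div_of_le (by norm_num) (by linarith)
  linarith

theorem num_log (z C1 n : ℝ) (hz1 : 1 ≤ z) (hC1 : 1 ≤ C1) (b5 : 37 * C1 ≤ z) (hn : z ^ 4 ≤ n) :
    C1 * (1 + Real.log (z ^ 18 + 1)) ≤ n := by
  have hz0 : 0 < z := by linarith
  have g1 : Real.log (z ^ 18 + 1) ≤ 36 * z := by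
    have g2 : z ^ 18 + 1 ≤ (2 * z) ^ 18 := by
      rw [mul_pow]
      have g4 : 1 ≤ z ^ 18 := one_le_pow₀ hz1
      have g5 : (2 : ℝ) ≤ 2 ^ 18 := by norm_num
      calc z ^ 18 + 1 ≤ 2 * z ^ 18 := by linarith
        _ ≤ 2 ^ 18 * z ^ 18 := mul_le_mul_of_nonneg_right g5 (by positivity)
    calc Real.log (z ^ 18 + 1) ≤ Real.log ((2 * z) ^ 18) :=
          Real.log_le_log (by positivity) g2
      _ = 18 * Real.log (2 * z) := by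
          rw [Real.log_pow]
          norm_num
      _ ≤ 18 * (2 * z) := by
          have := Real.log_le_sub_one_of_pos (show 0 < 2 * z by positivity)
          linarith
      _ = 36 * z := by ring
  calc C1 * (1 + Real.log (z ^ 18 + 1)) ≤ C1 * (37 * z) :=
        mul_le_mul_of_nonneg_left (by linarith) (by linarith)
    _ = (37 * C1) * z := by ring
    _ ≤ z * z := mul_le_mul_of_nonneg_right b5 hz0.le
    _ ≤ z ^ 4 := by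
        have g6 : z * z = z ^ 2 := by ring
        rw [g6]
        exact pow_le_pow_right₀ hz1 (by norm_num)
    _ ≤ n := hn

theorem num_nat (Z Cs lam ρ κ₀ L K r ℓ d r0 s : ℕ) (hZ100 : 100 ≤ Z) (hZCs : 2 * Cs ≤ Z)
    (hlam : lam ≤ Z) (hρ : ρ ≤ Z) (hκ : κ₀ ≤ Z) (hr : Z ^ 22 ≤ r) (hL : 8 * Z ^ 22 ≤ L)
    (hK : Z ^ 22 ≤ K) (hℓZ : ℓ ≤ Z ^ 3) (hd : 3 ≤ d) (e1 : 2 * d * r0 ≤ ℓ) (e2 : d * s ≤ ℓ) :
    s < L ∧ 2 * r0 ≤ L ∧ d * r0 + Z ^ 5 + ρ + 1 ≤ r ∧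
    Cs * (lam * ρ + 1) * Z ^ 18 + Z ^ 5 + ρ + 1 ≤ r ∧
    Cs * (lam * ρ + 1) * Z ^ 18 + ρ * Z ^ 18 + 4 ≤ r ∧
    4 * (Cs * (lam * ρ + 1) * Z ^ 18) + 8 ≤ L ∧ Z ^ 6 ≤ K ∧ Z ^ 6 ≤ L ^ 2 ∧
    4 * lam ^ 2 * κ₀ ≤ Z ^ 18 ∧ 4 * lam * ρ ≤ 4 * Z ^ 2 ∧ 3 ≤ L := by
  have hZ0 : 0 < Z := by omega
  have hpow : ∀ {i j : ℕ}, i ≤ j → Z ^ i ≤ Z ^ j := fun h => Nat.pow_le_pow_right hZ0 h
  have hp22 : 100 * Z ^ 21 ≤ Z ^ 22 := by
    rw [pow_succ' Z 21]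
    exact Nat.mul_le_mul_right _ hZ100
  have hp21 : 1 ≤ Z ^ 21 := Nat.one_le_pow _ _ hZ0
  have hZ3 : Z ^ 3 ≤ Z ^ 21 := hpow (by norm_num)
  have hZ5 : Z ^ 5 ≤ Z ^ 21 := hpow (by norm_num)
  have hZ1 : Z ≤ Z ^ 21 := by
    calc Z = Z ^ 1 := (pow_one Z).symm
      _ ≤ Z ^ 21 := hpow (by norm_num)
  have hr0ℓ : d * r0 ≤ ℓ := by
    have : d * r0 ≤ 2 * d * r0 := by nlinarith
    omega
  have hr0ℓ2 : 2 * r0 ≤ ℓ := by
    have : 2 * r0 ≤ 2 * d * r0 := by nlinarith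
    omega
  have hsL : s < L := by
    have h3 : s ≤ d * s := Nat.le_mul_of_pos_left s (by omega)
    omega
  obtain ⟨R, hR⟩ : ∃ R, R = Cs * (lam * ρ + 1) * Z ^ 18 := ⟨_, rfl⟩
  rw [← hR]
  have hR21 : R ≤ Z ^ 21 := by
    have h3 : lam * ρ + 1 ≤ 2 * Z ^ 2 := by
      have h4 : lam * ρ ≤ Z * Z := Nat.mul_le_mul hlam hρ
      have h5 : 1 ≤ Z ^ 2 := Nat.one_le_pow _ _ hZ0
      nlinarith
    calc R ≤ Cs * (2 * Z ^ 2) * Z ^ 18 := by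
          rw [hR]
          exact Nat.mul_le_mul_right _ (Nat.mul_le_mul_left _ h3)
      _ = (2 * Cs) * Z ^ 20 := by ring
      _ ≤ Z * Z ^ 20 := Nat.mul_le_mul_right _ hZCs
      _ = Z ^ 21 := by ring
  have hρ19 : ρ * Z ^ 18 ≤ Z ^ 21 := by
    calc ρ * Z ^ 18 ≤ Z * Z ^ 18 := Nat.mul_le_mul_right _ hρ
      _ = Z ^ 19 := by ring
      _ ≤ Z ^ 21 := hpow (by norm_num)
  have hZL : Z ^ 6 ≤ L := by
    have : Z ^ 6 ≤ Z ^ 22 := hpow (by norm_num)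
    omega
  refine ⟨hsL, by omega, by omega, by omega, by omega, by omega,
    (hpow (by norm_num)).trans hK, ?_, ?_, ?_, by omega⟩
  · calc Z ^ 6 ≤ L := hZL
      _ ≤ L ^ 2 := Nat.le_self_pow (by norm_num) L
  · calc 4 * lam ^ 2 * κ₀ ≤ 4 * Z ^ 2 * Z :=
          Nat.mul_le_mul (Nat.mul_le_mul_left _ (Nat.pow_le_pow_left hlam 2)) hκ
      _ = 4 * Z ^ 3 := by ring
      _ ≤ Z * Z ^ 3 := Nat.mul_le_mul_right _ (by omega)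
      _ = Z ^ 4 := by ring
      _ ≤ Z ^ 18 := hpow (by norm_num)
  · calc 4 * lam * ρ ≤ 4 * Z * Z := Nat.mul_le_mul (Nat.mul_le_mul_left _ hlam) hρ
      _ = 4 * Z ^ 2 := by ring

theorem lap_of (hB2 : S_BAS2) (hFRE : S_FRE) (hSMO : S_SMO) (hSUB : S_SUB) (hCON2 : S_CON2)
    (hNEA : S_NEA) (hNAS : S_NAS) (hSEQ : S_SEQ) : S_LAP := by
  intro d hd
  obtain ⟨Cf, hCf1, hf⟩ := hFRE d (by omega)
  obtain ⟨Cs, hCs1, hs⟩ := hSMO d (by omega)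
  obtain ⟨Cn, hCn1, hn⟩ := hNAS d (by omega)
  have hFb : FREb d Cf := hf
  have hSb : SMOb d Cs := hs
  have hNb : NASb d Cn := hn
  have hd3 : (3 : ℝ) ≤ d := by exact_mod_cast hd
  have hd0 : (0 : ℝ) < d := by linarith
  have hCf0 : 0 < Cf := by linarith
  have hCn0 : 0 < Cn := by linarith
  obtain ⟨a1, ha1⟩ : ∃ a1 : ℝ, a1 = 4 * d * Cf := ⟨_, rfl⟩
  obtain ⟨a2, ha2⟩ : ∃ a2 : ℝ, a2 = 16 * d * Cf := ⟨_, rfl⟩
  have ha1p : 1 ≤ a1 := by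
    rw [ha1]
    nlinarith
  have ha2p : 1 ≤ a2 := by
    rw [ha2]
    nlinarith
  obtain ⟨c1, hc1⟩ : ∃ c1 : ℝ, c1 = 1 / (Cf * a1 ^ d) := ⟨_, rfl⟩
  have hc1p : 0 < c1 := by
    rw [hc1]
    positivity
  obtain ⟨C2, hC2⟩ : ∃ C2 : ℝ, C2 = 1 + (8 + 16 * d) * 16 / c1 := ⟨_, rfl⟩
  have hC2p : 1 ≤ C2 := by
    rw [hC2]
    have : 0 ≤ (8 + 16 * (d : ℝ)) * 16 / c1 := by positivity
    linarith
  obtain ⟨c6, hc6⟩ : ∃ c6 : ℝ, c6 = 1 / (Cf ^ 2 * (a2 ^ d * a1 ^ d)) := ⟨_, rfl⟩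
  have hc6p : 0 < c6 := by
    rw [hc6]
    positivity
  have hc61 : c6 ≤ 1 := by
    rw [hc6, div_le_one (by positivity)]
    have h1 : 1 ≤ Cf ^ 2 := one_le_pow₀ hCf1
    have h2 : 1 ≤ a2 ^ d := one_le_pow₀ ha2p
    have h3 : 1 ≤ a1 ^ d := one_le_pow₀ ha1p
    have h4 : 1 ≤ a2 ^ d * a1 ^ d := one_le_mul_of_one_le_of_one_le h2 h3
    exact one_le_mul_of_one_le_of_one_le h1 h4
  obtain ⟨c7, hc7⟩ : ∃ c7 : ℝ, c7 = 1 / a2 ^ 2 := ⟨_, rfl⟩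
  have hc7p : 0 < c7 := by
    rw [hc7]
    positivity
  obtain ⟨c5, hc5⟩ : ∃ c5 : ℝ, c5 = c6 / (256 * Cn) * min 1 (c7 / (4 * Cn)) := ⟨_, rfl⟩
  have hc5p : 0 < c5 := by
    rw [hc5]
    have : 0 < min 1 (c7 / (4 * Cn)) := lt_min one_pos (by positivity)
    positivity
  have hc51 : c5 ≤ 1 := by
    rw [hc5]
    have h1 : c6 / (256 * Cn) ≤ 1 := by
      rw [div_le_one (by positivity)]
      nlinarith
    have h2 : min 1 (c7 / (4 * Cn)) ≤ 1 := min_le_left _ _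
    have h3 : 0 ≤ min 1 (c7 / (4 * Cn)) := le_min (by norm_num) (by positivity)
    calc c6 / (256 * Cn) * min 1 (c7 / (4 * Cn)) ≤ 1 * 1 :=
          mul_le_mul h1 h2 h3 (by norm_num)
      _ = 1 := by norm_num
  obtain ⟨c', C1, hc', hC1, hseq⟩ := hSEQ d c5 (by omega) hc5p hc51
  obtain ⟨big, hbig⟩ : ∃ big : ℝ, big = 4 * Cn * 2 ^ d + 2 * C2 * a2 ^ 3 + 5120 * C2 + a2 +
    37 * C1 + 3 / c5 + 2 * Cs + 2 * Cf + 100 := ⟨_, rfl⟩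
  have hCs0 : (1 : ℝ) ≤ Cs := by exact_mod_cast hCs1
  have t1 : 0 ≤ 4 * Cn * 2 ^ d := by positivity
  have t2 : 0 ≤ 2 * C2 * a2 ^ 3 := by positivity
  have t3 : 0 ≤ 5120 * C2 := by positivity
  have t4 : 0 ≤ 3 / c5 := by positivity
  have hbig1 : 4 * Cn * 2 ^ d ≤ big := by
    rw [hbig]
    linarith only [t2, t3, ha2p, hC1, t4, hCs0, hCf0]
  refine ⟨⌈big⌉₊, 22, c' / 2, ?_, by positivity, ?_⟩
  · have h1 : (1 : ℝ) ≤ ⌈big⌉₊ := le_trans (by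
      rw [hbig]
      linarith only [t1, t2, t3, ha2p, hC1, t4, hCs0, hCf0]) (Nat.le_ceil big)
    exact_mod_cast h1
  intro Z hZ L K lam r ρ κ₀ _ hlam hρ hκ hLd hr hL hK
  have hZbig : big ≤ Z := (Nat.le_ceil big).trans (by exact_mod_cast hZ)
  obtain ⟨z, hz⟩ : ∃ z : ℝ, z = (Z : ℝ) := ⟨_, rfl⟩
  rw [← hz] at hZbig
  have b2 : 2 * C2 * a2 ^ 3 ≤ z := by linarith
  have b3 : 5120 * C2 ≤ z := by linarith
  have b4 : a2 ≤ z := by linarith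
  have b5 : 37 * C1 ≤ z := by linarith
  have b6 : 3 / c5 ≤ z := by linarith
  have b7 : 2 * (Cs : ℝ) ≤ z := by linarith
  have b8 : 2 * Cf ≤ z := by linarith
  have b9 : 100 ≤ z := by linarith
  have hz1 : 1 ≤ z := by linarith
  have hz0 : 0 < z := by linarith
  have hZ100 : 100 ≤ Z := by
    rw [hz] at b9
    exact_mod_cast b9
  have hZCs : 2 * Cs ≤ Z := by
    rw [hz] at b7
    exact_mod_cast b7
  have hZ0 : 0 < Z := by omega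
  have hL3 : 3 ≤ L := by
    have : 1 ≤ Z ^ 22 := Nat.one_le_pow _ _ hZ0
    omega
  obtain ⟨qf, hqf⟩ := hFb L hL3 K
  refine ⟨qf + 4 * Z ^ 2 + 2 * Cs + 4 * d + 2, ?_⟩
  intro q hq σ hσ δ h1 h2 ω A hE f hf0 hfA hf1
  have hq1 : qf ≤ q := by omega
  have hq2 : 4 * Z ^ 2 ≤ q := by omega
  have hq3 : 2 * (Cs : ℝ) ≤ q := by
    have : 2 * Cs ≤ q := by omega
    exact_mod_cast this
  have hq4 : 4 * (d : ℝ) ≤ q := by
    have : 4 * d ≤ q := by omega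
    exact_mod_cast this
  have hq5 : (2 : ℝ) ≤ q := by
    have : 2 ≤ q := by omega
    exact_mod_cast this
  obtain ⟨hδ, hδ1, hCsδ, hdδ⟩ := num_del δ q Cs d h1 h2 hq3 hq4 hq5
  obtain ⟨-, hfb, hfc⟩ := hqf q hq1 σ hσ δ h1 h2
  obtain ⟨ℓ, r0, s, e1, e2, e3, e4, e5, e6⟩ := lap_numbers d hd Cf z hCf1 hz1 (by rw [← ha2]; exact b4)
  rw [← ha2] at e4
  rw [← ha1] at e5
  -- sizes
  have hℓZ : ℓ ≤ Z ^ 3 := by
    have h3 : (ℓ : ℝ) ≤ z ^ 3 := by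
      refine e3.trans (div_le_self (by positivity) ?_)
      linarith only [hCf1]
    rw [hz] at h3
    exact_mod_cast h3
  obtain ⟨s1, s2, s3, s4, s5, s6, hu0K, hu0L, s9, s10, -⟩ :=
    num_nat Z Cs lam ρ κ₀ L K r ℓ d r0 s hZ100 hZCs hlam hρ hκ hr hL hK hℓZ hd e1 e2
  have hu01 : 1 ≤ Z ^ 6 := Nat.one_le_pow _ _ hZ0
  have hu21 : 1 ≤ Z ^ 18 := Nat.one_le_pow _ _ hZ0
  have hu0c : ((Z ^ 6 : ℕ) : ℝ) = (z ^ 3) ^ 2 := by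
    rw [hz]
    push_cast
    ring
  have hu2c : ((Z ^ 18 : ℕ) : ℝ) = (z ^ 9) ^ 2 := by
    rw [hz]
    push_cast
    ring
  have hsq0 : Real.sqrt ((Z ^ 6 : ℕ) : ℝ) = z ^ 3 := by
    rw [hu0c, Real.sqrt_sq (by positivity)]
  have hsq2 : Real.sqrt ((Z ^ 18 : ℕ) : ℝ) = z ^ 9 := by
    rw [hu2c, Real.sqrt_sq (by positivity)]
  -- the lower bound of the free kernel
  obtain ⟨p0, hp0⟩ : ∃ p0 : ℝ, p0 = 1 / (Cf * z ^ (3 * d)) := ⟨_, rfl⟩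
  have hp0p : 0 < p0 := by
    rw [hp0]
    positivity
  have hpp : ∀ x y : Fin d → ZMod L, td x y ≤ 2 * ℓ →
      p0 ≤ PP (ed ∘ σ) δ (Z ^ 6 * (q * ms d L)) x y := by
    intro x y hxy
    have h3 := hfc (Z ^ 6) hu01 hu0K hu0L x y (by
      rw [hsq0]
      have h4 : (td x y : ℝ) ≤ 2 * ℓ := by exact_mod_cast hxy
      have h5 : 2 * (z ^ 3 / (2 * Cf)) = z ^ 3 / Cf := by
        field_simp
      linarith only [h4, h5, e3])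
    refine le_trans (le_of_eq ?_) h3
    rw [hu0c, rpow_u0 z hz0 d, hp0, div_div, mul_comm Cf]
  -- the volume of the ball
  obtain ⟨bl, hbl⟩ : ∃ bl : ℝ, bl = (bal (0 : Fin d → ZMod L) ℓ).card := ⟨_, rfl⟩
  have hbl1 : (z ^ 3 / a1) ^ d ≤ bl := by
    have h3 : (((s + 1) ^ d : ℕ) : ℝ) ≤ bl := by
      rw [hbl]
      exact_mod_cast card_bal_ge ℓ s e2 s1
    refine le_trans ?_ h3
    push_cast
    push_cast at e5
    exact pow_le_pow_left₀ (by positivity) e5 d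
  have hbl0 : 0 < bl := lt_of_lt_of_le (by positivity) hbl1
  have ha1p' : 0 < a1 := lt_of_lt_of_le one_pos ha1p
  have ha2p' : 0 < a2 := lt_of_lt_of_le one_pos ha2p
  have hpb : c1 ≤ p0 * bl := by
    calc c1 = p0 * (z ^ 3 / a1) ^ d := by
          rw [hc1, hp0, num_pow1 z hz0 a1 Cf ha1p' hCf0 d]
      _ ≤ p0 * bl := mul_le_mul_of_nonneg_left hbl1 hp0p.le
  obtain ⟨ε, hε⟩ : ∃ ε : ℝ, ε = p0 * bl / 8 := ⟨_, rfl⟩
  have hεp : 0 < ε := by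
    rw [hε]
    positivity
  have hεc : c1 / 8 ≤ ε := by
    rw [hε]
    linarith only [hpb]
  have h8 : 8 * ε ≤ p0 * (bal (0 : Fin d → ZMod L) ℓ).card := by
    rw [← hbl, hε]
    linarith only
  have hX : c6 ≤ (r0 : ℝ) ^ d * (p0 ^ 2 * (bal (0 : Fin d → ZMod L) ℓ).card) := by
    rw [← hbl]
    calc c6 = (z ^ 3 / a2) ^ d * (p0 ^ 2 * (z ^ 3 / a1) ^ d) := by
          rw [hc6, hp0, num_pow z hz0 a1 a2 Cf ha1p' ha2p' hCf0 d]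
      _ ≤ (r0 : ℝ) ^ d * (p0 ^ 2 * bl) := by
          refine mul_le_mul (pow_le_pow_left₀ (by positivity) e4 d) ?_ (by positivity)
            (by positivity)
          exact mul_le_mul_of_nonneg_left hbl1 (by positivity)
  have hr7 : c7 * ((Z ^ 6 : ℕ) : ℝ) ≤ (r0 : ℝ) ^ 2 := by
    rw [hu0c, hc7]
    calc 1 / a2 ^ 2 * (z ^ 3) ^ 2 = (z ^ 3 / a2) ^ 2 := by
          rw [div_pow]
          ring
      _ ≤ (r0 : ℝ) ^ 2 := pow_le_pow_left₀ (by positivity) e4 2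
  -- the size of the damaged sets
  obtain ⟨N, hNd⟩ : ∃ N : ℝ, N = C2 * z ^ 8 := ⟨_, rfl⟩
  have hlamz : (lam : ℝ) ≤ z := by
    rw [hz]
    exact_mod_cast hlam
  have hρz : (ρ : ℝ) ≤ z := by
    rw [hz]
    exact_mod_cast hρ
  have hN : (lam : ℝ) + (8 * ρ + 16 * d) * (((Z ^ 6 : ℕ) : ℝ) * (lam + 1)) / ε ≤ N := by
    rw [hu0c, hNd]
    exact num_N z lam ρ d ε c1 C2 hz1 (Nat.cast_nonneg _) hd0.le hlamz hρz
      hc1p hεc hC2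
  have hNr : 2 * N ≤ (r0 : ℝ) ^ d := by
    rw [hNd]
    exact (num_Nr z C2 a2 hz1 ha2p b2 b4 d hd).trans (pow_le_pow_left₀ (by positivity) e4 d)
  -- the tail
  obtain ⟨τ, hτ⟩ : ∃ τ : ℝ, τ = Cf * Real.exp (-(((Z ^ 5 : ℕ) : ℝ) /
    (Cf * Real.sqrt ((Z ^ 6 : ℕ) : ℝ)))) := ⟨_, rfl⟩
  have hτ0 : 0 ≤ τ := by
    rw [hτ]
    positivity
  have htail : ∀ k ≤ Z ^ 6 * (q * ms d L), ∀ y : Fin d → ZMod L,
      ∑ x ∈ univ.filter (fun x => Z ^ 5 < td x y), PP (ed ∘ σ) δ k x y ≤ τ := by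
    intro k hk y
    rw [hτ]
    exact hfb (Z ^ 6) hu01 hu0K k hk (Z ^ 5) y
  have hτL : τ * (L : ℝ) ^ d ≤ 1 := by
    have g0 : ((Z ^ 5 : ℕ) : ℝ) = z ^ 5 := by
      rw [hz]
      push_cast
      rfl
    have g1 : ((Z ^ 5 : ℕ) : ℝ) / (Cf * Real.sqrt ((Z ^ 6 : ℕ) : ℝ)) = z ^ 2 / Cf := by
      rw [hsq0, g0]
      field_simp
    rw [hτ, g1]
    exact num_tau Cf z _ hCf1 b8 (by positivity) (by rw [hz]; exact hLd)
  have hDc : ∀ (B : ℕ), B + Z ^ 5 + ρ + 1 ≤ r → ∀ j, j + Z ^ 6 ≤ K → ∀ x : Fin d → ZMod L,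
      ((Dj σ q (Z ^ 6) ω A δ ε j ∩ bal x B).card : ℝ) ≤ N := fun B hB j hj x =>
    Dj_card hB2 hCON2 hSUB (by omega) hL3 hσ hδ hdδ h2 hτ0 hεp hE htail hτL hN j hj B hB x
  -- smoothing
  have hsm : Real.sqrt (N * (20 / Real.sqrt ((Z ^ 18 : ℕ) : ℝ))) +
      Real.exp (-((Z ^ 18 : ℕ) : ℝ)) ≤ 1 / 8 := by
    rw [hsq2, hNd]
    refine num_sm z C2 _ hz0 b3 ?_
    have : Z ≤ Z ^ 18 := Nat.le_self_pow (by norm_num) Z
    have h3 : 15 ≤ Z ^ 18 := by omega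
    exact_mod_cast h3
  -- the sequence
  obtain ⟨F, hF⟩ : ∃ F : ℕ → ℝ, F = fun j => ∑ x, fj σ q ω A δ f j x ^ 2 := ⟨_, rfl⟩
  obtain ⟨G, hG⟩ : ∃ G : ℕ → ℝ, G = fun j => ∑ x ∈ Dj σ q (Z ^ 6) ω A δ ε j,
    fj σ q ω A δ f j x ^ 2 := ⟨_, rfl⟩
  have hFmono : ∀ j, F (j + 1) ≤ F j := by
    rw [hF]
    exact fun j => fj_mono hB2 hσ q ω A hδ.le hδ1 f j
  have hF0 : ∀ j, 0 ≤ F j := by
    rw [hF]
    exact fun j => sum_nonneg fun x _ => sq_nonneg _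
  have hFanti : Antitone F := antitone_nat_of_succ_le hFmono
  have hW : ∀ j, j + Z ^ 6 ≤ K → G j ≤ F j / 2 → F j ≤ 4 * Cn * 2 ^ d / (L : ℝ) ^ d ∨
      c5 * min (F j) (((Z ^ 6 : ℕ) : ℝ) * F j ^ (1 + 2 / d : ℝ)) ≤ F j - F (j + Z ^ 6) := by
    rw [hF, hG]
    intro j hj hGj
    rw [hc5]
    exact lap_W hB2 hNEA hCn1 hNb (by omega) hL3 hσ hδ hδ1 hp0p hεp.le hpp h8
      (hDc (d * r0) s3) hNr e6 e1 s2 hc6p hc7p hX hr7 hf0 hf1 j hj hGj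
  have hS : ∀ j, Z ^ 18 ≤ j → j + Z ^ 6 ≤ K → G j ≤ F (j - Z ^ 18) / 8 := by
    rw [hF, hG]
    intro j hj hjK
    exact lap_S hB2 hSUB hSb hL3 hσ hδ hδ1 hCsδ h1 h2 hE hu21 s5 s9 (s10.trans hq2)
      le_rfl s6 (hDc _ s4) hsm hfA j hj hjK
  have hu2e : Z ^ 18 = Z ^ 12 * Z ^ 6 := by ring
  obtain ⟨n, hn'⟩ : ∃ n : ℕ, n = K / Z ^ 18 := ⟨_, rfl⟩
  have hnK : n * Z ^ 18 ≤ K := by
    rw [hn']
    exact Nat.div_mul_le_self _ _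
  have hn4 : Z ^ 4 ≤ n := by
    rw [hn', Nat.le_div_iff_mul_le (by positivity)]
    calc Z ^ 4 * Z ^ 18 = Z ^ 22 := by ring
      _ ≤ K := hK
  have hnpos : 1 ≤ n := (Nat.one_le_pow _ _ hZ0).trans hn4
  have hKn : K < (n + 1) * Z ^ 18 := by
    have := Nat.lt_mul_div_succ K (show 0 < Z ^ 18 by positivity)
    rw [← hn'] at this
    rwa [mul_comm] at this
  have g0 : F 0 = ∑ x, f x ^ 2 := by
    rw [hF]
    beta_reduce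
    unfold fj
    rw [Nat.zero_mul]
    simp [TT]
  have hF01 : F 0 ≤ 1 := by
    rw [g0]
    calc ∑ x, f x ^ 2 ≤ (∑ x, f x) ^ 2 := Finset.sum_sq_le_sq_sum_of_nonneg fun x _ => hf0 x
      _ ≤ 1 := pow_le_one₀ (sum_nonneg fun x _ => hf0 x) hf1
  have hm1 : (1 : ℝ) ≤ ((Z ^ 18 : ℕ) : ℝ) := by exact_mod_cast hu21
  have hm2 : 3 ≤ c5 * ((Z ^ 12 : ℕ) : ℝ) := by
    have g1 : z ≤ z ^ 12 := le_self_pow₀ hz1 (by norm_num)
    have g2 : ((Z ^ 12 : ℕ) : ℝ) = z ^ 12 := by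
      rw [hz]
      push_cast
      rfl
    rw [g2]
    have g3 : 3 = c5 * (3 / c5) := by
      field_simp
    calc (3 : ℝ) = c5 * (3 / c5) := g3
      _ ≤ c5 * z ^ 12 := mul_le_mul_of_nonneg_left (b6.trans g1) hc5p.le
  have hm3 : C1 * (1 + Real.log (((Z ^ 18 : ℕ) : ℝ) + 1)) ≤ (n : ℝ) := by
    have g3 : ((Z ^ 18 : ℕ) : ℝ) = z ^ 18 := by
      rw [hz]
      push_cast
      rfl
    rw [g3]
    refine num_log z C1 n hz1 hC1 b5 ?_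
    rw [hz]
    exact_mod_cast hn4
  have hm4 : 0 ≤ 4 * Cn * 2 ^ d / (L : ℝ) ^ d := by positivity
  have hmain := hseq (fun k => F (k * Z ^ 18)) n (((Z ^ 18 : ℕ) : ℝ)) (((Z ^ 12 : ℕ) : ℝ))
    (4 * Cn * 2 ^ d / (L : ℝ) ^ d) hm1 hm2 hm4 (fun k => hF0 _)
    (fun k => hFanti (Nat.mul_le_mul_right _ (Nat.le_succ k)))
    (by
      beta_reduce
      rw [Nat.zero_mul]
      exact hF01) hm3
    (fun k hk hkn => by
      have g1 : (k + 1) * Z ^ 18 ≤ K := (Nat.mul_le_mul_right _ hkn).trans hnK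
      exact seq_block F G hFmono hF0 K (Z ^ 6) (Z ^ 12) (Z ^ 18) hu2e c5 (1 + 2 / d : ℝ)
        (4 * Cn * 2 ^ d / (L : ℝ) ^ d) hc5p.le (by positivity) hW hS k hk g1)
  beta_reduce at hmain
  have hfin : F K ≤ F (n * Z ^ 18) := hFanti hnK
  have hFK : ∑ x, (vecMul f (TT (ed ∘ σ) ω A δ (K * (q * ms d L))) x) ^ 2 = F K := by
    rw [hF]
    rfl
  rw [hFK]
  refine le_trans (hfin.trans hmain) ?_
  have hL0 : (0 : ℝ) < L := by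
    have : 0 < L := by omega
    exact_mod_cast this
  refine max_le_max ?_ ?_
  · refine div_le_div_of_nonneg_right ?_ (by positivity)
    refine le_trans ?_ (Nat.le_ceil big)
    exact hbig1
  · rw [Nat.zero_mul, g0]
    have g1 : (K : ℝ) ≤ 2 * (((Z ^ 18 : ℕ) : ℝ) * n) := by
      have g2 : K ≤ 2 * (Z ^ 18 * n) := by
        have g3 : (n + 1) * Z ^ 18 ≤ (2 * n) * Z ^ 18 := Nat.mul_le_mul_right _ (by omega)
        have g4 : (2 * n) * Z ^ 18 = 2 * (Z ^ 18 * n) := by ring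
        omega
      exact_mod_cast g2
    have g5 : (0 : ℝ) < K := by
      have : 0 < K := by
        have := Nat.one_le_pow 22 Z hZ0
        omega
      exact_mod_cast this
    have g6 : 0 ≤ (∑ x, f x ^ 2) ^ (-(2 / d : ℝ)) :=
      Real.rpow_nonneg (sum_nonneg fun x _ => sq_nonneg _) _
    refine Real.rpow_le_rpow_of_nonpos (by positivity) ?_ (by
      rw [neg_nonpos]
      positivity)
    have g7 : c' / 2 * K ≤ c' * ((Z ^ 18 : ℕ) : ℝ) * n := by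
      calc c' / 2 * K ≤ c' / 2 * (2 * (((Z ^ 18 : ℕ) : ℝ) * n)) :=
            mul_le_mul_of_nonneg_left g1 (by positivity)
        _ = c' * ((Z ^ 18 : ℕ) : ℝ) * n := by ring
    exact add_le_add le_rfl g7

end Pool.Agent.Q257.LC
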