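import Pool.Agent.Q257.LC.Peel
import Pool.Agent.Q153.LC.P34

/-!
# Project LC: `S_PEEL`, unconditional
-/

set_option autoImplicit false

namespace Pool.Agent.Q257.LC

open Q292.LC

theorem peel : S_PEEL := peel_of Pool.Agent.Q153.LC.p3 Pool.Agent.Q153.LC.p4

end Pool.Agent.Q257.LC
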